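import Pool.Agent.Helper13.OZ.Wir

/-!
Automorphisms of the graph.
-/

open Finset Filter
open scoped Classical

namespace Pool.Agent.Helper13.OZ.Gr

variable {V E : Type} [DecidableEq E] (G : Gr V E) {q : ℝ} {r : E → ℝ} {D : Finset E}

/-- `(f, g)` is an automorphism. -/
def IsAut (f : V ≃ V) (g : E ≃ E) : Prop :=
  ∀ e, (G.s (g e) = f (G.s e) ∧ G.t (g e) = f (G.t e)) ∨ (G.s (g e) = f (G.t e) ∧ G.t (g e) = f (G.s e))

variable {f : V ≃ V} {g : E ≃ E}

theorem isAut_symm (h : G.IsAut f g) : G.IsAut f.symm g.symm := by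
  intro e
  have := h (g.symm e)
  rw [Equiv.apply_symm_apply] at this
  rcases this with ⟨h1, h2⟩ | ⟨h1, h2⟩
  · left; rw [h1, h2]; simp
  · right; rw [h1, h2]; simp

theorem cn_map_of (h : G.IsAut f g) {ω : Finset E} {x y : V} (hc : G.Cn ω x y) :
    G.Cn (ω.map g.toEmbedding) (f x) (f y) := by
  induction hc with
  | rel x y h1 =>
    obtain ⟨e, he, rfl, rfl⟩ := h1
    have hm : g e ∈ ω.map g.toEmbedding := Finset.mem_map_of_mem _ he
    rcases h e with ⟨h2, h3⟩ | ⟨h2, h3⟩
    · rw [← h2, ← h3]; exact G.cn_edge hm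
    · rw [← h2, ← h3]; exact G.cn_symm (G.cn_edge hm)
  | refl x => exact G.cn_refl _ _
  | symm x y _ ih => exact G.cn_symm ih
  | trans x y z _ _ ih1 ih2 => exact G.cn_trans ih1 ih2

theorem map_symm_map (g : E ≃ E) (ω : Finset E) : (ω.map g.toEmbedding).map g.symm.toEmbedding = ω := by
  ext e; simp

theorem cn_map (h : G.IsAut f g) {ω : Finset E} {x y : V} :
    G.Cn (ω.map g.toEmbedding) (f x) (f y) ↔ G.Cn ω x y := by
  constructor
  · intro h1
    have := G.cn_map_of (G.isAut_symm h) h1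
    rw [map_symm_map] at this
    simpa using this
  · exact G.cn_map_of h

theorem rk_map (h : G.IsAut f g) (ω : Finset E) : G.rk (ω.map g.toEmbedding) = G.rk ω := by
  induction ω using Finset.induction_on with
  | empty => rw [Finset.map_empty]
  | insert e ω _ ih =>
    rw [Finset.map_insert, G.rk_insert, G.rk_insert, ih]
    congr 1
    have : G.Cn (ω.map g.toEmbedding) (G.s (g e)) (G.t (g e)) ↔ G.Cn ω (G.s e) (G.t e) := by
      rcases h e with ⟨h2, h3⟩ | ⟨h2, h3⟩
      · rw [h2, h3]; exact G.cn_map h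
      · rw [h2, h3]
        constructor
        · intro h4; exact G.cn_symm ((G.cn_map h).1 h4)
        · intro h4; exact (G.cn_map h).2 (G.cn_symm h4)
    change (if G.Cn (ω.map g.toEmbedding) (G.s (g e)) (G.t (g e)) then 0 else 1) = _
    by_cases h4 : G.Cn ω (G.s e) (G.t e)
    · rw [if_pos h4, if_pos (this.2 h4)]
    · rw [if_neg h4, if_neg fun h5 => h4 (this.1 h5)]

theorem w_map (h : G.IsAut f g) (ω : Finset E) : G.w q r (ω.map g.toEmbedding) = G.w q (fun e => r (g e)) ω := by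
  unfold w
  rw [G.rk_map h, Finset.prod_map]
  rfl

theorem sum_map' (F : Finset E → ℝ) :
    ∑ a ∈ (D.map g.toEmbedding).powerset, F a = ∑ a ∈ D.powerset, F (a.map g.toEmbedding) := by
  symm
  refine Finset.sum_bij' (fun a _ => a.map g.toEmbedding) (fun a _ => a.map g.symm.toEmbedding) ?_ ?_ ?_ ?_ ?_
  · intro a ha
    rw [Finset.mem_powerset] at ha ⊢
    exact Finset.map_subset_map.2 ha
  · intro a ha
    rw [Finset.mem_powerset] at ha ⊢
    intro e he
    rw [Finset.mem_map] at he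
    obtain ⟨e', he', rfl⟩ := he
    obtain ⟨e'', h1, h2⟩ := Finset.mem_map.1 (ha he')
    rw [← h2]
    simpa using h1
  · intro a _; exact map_symm_map g a
  · intro a _; exact map_symm_map g.symm a
  · intro a _; rfl

theorem ex_map (h : G.IsAut f g) (F : Finset E → ℝ) :
    G.ex q r (D.map g.toEmbedding) F = G.ex q (fun e => r (g e)) D (fun a => F (a.map g.toEmbedding)) := by
  unfold ex Z
  rw [sum_map', sum_map']
  simp only [G.w_map h]

theorem pr_map (h : G.IsAut f g) (A : Finset E → Prop) :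
    G.pr q r (D.map g.toEmbedding) A = G.pr q (fun e => r (g e)) D (fun a => A (a.map g.toEmbedding)) :=
  G.ex_map h _

theorem iso_map (h : G.IsAut f g) {S : Set V} {a : Finset E} :
    G.Iso (f '' S) (a.map g.toEmbedding) ↔ G.Iso S a := by
  unfold Iso
  constructor
  · intro h1 e he
    have := h1 (g e) (Finset.mem_map_of_mem _ he)
    rcases h e with ⟨h2, h3⟩ | ⟨h2, h3⟩
    · rw [h2, h3] at this
      exact ⟨fun h4 => this.1 ⟨_, h4, rfl⟩, fun h4 => this.2 ⟨_, h4, rfl⟩⟩
    · rw [h2, h3] at this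
      exact ⟨fun h4 => this.2 ⟨_, h4, rfl⟩, fun h4 => this.1 ⟨_, h4, rfl⟩⟩
  · intro h1 e he
    obtain ⟨e', he', rfl⟩ := Finset.mem_map.1 he
    have := h1 e' he'
    change G.s (g e') ∉ _ ∧ G.t (g e') ∉ _
    rcases h e' with ⟨h2, h3⟩ | ⟨h2, h3⟩
    · rw [h2, h3]
      exact ⟨fun ⟨z, hz, h4⟩ => this.1 (f.injective h4 ▸ hz), fun ⟨z, hz, h4⟩ => this.2 (f.injective h4 ▸ hz)⟩
    · rw [h2, h3]
      exact ⟨fun ⟨z, hz, h4⟩ => this.2 (f.injective h4 ▸ hz), fun ⟨z, hz, h4⟩ => this.1 (f.injective h4 ▸ hz)⟩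

/-- Invariance of the infinite volume isolation probability. -/
theorem psi_map (h : G.IsAut f g) (S : Set V) : G.Psi q r (f '' S) = G.Psi q (fun e => r (g e)) S := by
  unfold Psi
  have h1 : ∀ D : Finset E, G.pr q r (D.map g.toEmbedding) (G.Iso (f '' S)) =
      G.pr q (fun e => r (g e)) D (G.Iso S) := by
    intro D
    rw [G.pr_map h]
    exact G.pr_congr fun a _ => G.iso_map h
  rw [← (Equiv.finsetCongr g).iInf_comp (g := fun D => G.pr q r D (G.Iso (f '' S)))]
  exact iInf_congr fun D => h1 D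

end Pool.Agent.Helper13.OZ.Gr
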