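import Pool.Agent.Helper13.OZ.Psi
import Pool.Agent.Helper49.FK.Defs

/-!
The FK model of `Helper49/FK/Defs.lean` on finite domains of the square lattice in terms of the general one.
-/

open Finset Filter
open scoped Classical

namespace Pool.Agent.Helper13.OZ

namespace Gr

variable {V E : Type} [DecidableEq E] (G : Gr V E)

theorem cn_insert {ω : Finset E} {e : E} {x y : V} : G.Cn (insert e ω) x y ↔
    G.Cn ω x y ∨ (G.Cn ω x (G.s e) ∧ G.Cn ω (G.t e) y) ∨ (G.Cn ω x (G.t e) ∧ G.Cn ω (G.s e) y) := by
  constructor
  · intro h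
    induction h with
    | rel x y h1 =>
      obtain ⟨f, hf, rfl, rfl⟩ := h1
      rcases Finset.mem_insert.1 hf with rfl | h
      · exact Or.inr (Or.inl ⟨G.cn_refl _ _, G.cn_refl _ _⟩)
      · exact Or.inl (G.cn_edge h)
    | refl x => exact Or.inl (G.cn_refl _ _)
    | symm x y _ ih =>
      rcases ih with h | ⟨h1, h2⟩ | ⟨h1, h2⟩
      · exact Or.inl (G.cn_symm h)
      · exact Or.inr (Or.inr ⟨G.cn_symm h2, G.cn_symm h1⟩)
      · exact Or.inr (Or.inl ⟨G.cn_symm h2, G.cn_symm h1⟩)
    | trans x y z _ _ ih1 ih2 =>
      rcases ih1 with h | ⟨h1, h2⟩ | ⟨h1, h2⟩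
      · rcases ih2 with h' | ⟨h3, h4⟩ | ⟨h3, h4⟩
        · exact Or.inl (G.cn_trans h h')
        · exact Or.inr (Or.inl ⟨G.cn_trans h h3, h4⟩)
        · exact Or.inr (Or.inr ⟨G.cn_trans h h3, h4⟩)
      · rcases ih2 with h' | ⟨h3, h4⟩ | ⟨h3, h4⟩
        · exact Or.inr (Or.inl ⟨h1, G.cn_trans h2 h'⟩)
        · exact Or.inr (Or.inl ⟨h1, h4⟩)
        · exact Or.inl (G.cn_trans h1 h4)
      · rcases ih2 with h' | ⟨h3, h4⟩ | ⟨h3, h4⟩
        · exact Or.inr (Or.inr ⟨h1, G.cn_trans h2 h'⟩)
        · exact Or.inl (G.cn_trans h1 h4)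
        · exact Or.inr (Or.inr ⟨h1, h4⟩)
  · have hs : ω ⊆ insert e ω := Finset.subset_insert e ω
    have he : G.Cn (insert e ω) (G.s e) (G.t e) := G.cn_edge (Finset.mem_insert_self e ω)
    rintro (h | ⟨h1, h2⟩ | ⟨h1, h2⟩)
    · exact G.cn_mono hs h
    · exact G.cn_trans (G.cn_mono hs h1) (G.cn_trans he (G.cn_mono hs h2))
    · exact G.cn_trans (G.cn_mono hs h1) (G.cn_trans (G.cn_symm he) (G.cn_mono hs h2))

end Gr

open Pool.Helper49.FK (Edge tip edges gr Conn ncl wt box hom dfc PsiI GI clu cle IsClu)

/-- The square lattice. -/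
def sq : Gr (ℤ × ℤ) Edge := ⟨fun e => e.1, tip⟩

theorem conn_iff (ω : Finset Edge) (x y : ℤ × ℤ) : Conn ω x y ↔ sq.Cn ω x y := by
  unfold Conn
  rw [SimpleGraph.reachable_iff_reflTransGen]
  constructor
  · intro h
    induction h with
    | refl => exact sq.cn_refl _ _
    | tail _ h2 ih =>
      obtain ⟨e, he, h3 | h3⟩ := h2
      · obtain ⟨rfl, rfl⟩ := h3
        exact sq.cn_trans ih (sq.cn_edge he)
      · obtain ⟨rfl, rfl⟩ := h3
        exact sq.cn_trans ih (sq.cn_symm (sq.cn_edge he))
  · intro h
    rw [← SimpleGraph.reachable_iff_reflTransGen]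
    induction h with
    | rel x y h1 =>
      obtain ⟨e, he, h2, h3⟩ := h1
      exact SimpleGraph.Adj.reachable ⟨e, he, Or.inl ⟨h2, h3⟩⟩
    | refl x => exact SimpleGraph.Reachable.refl _
    | symm x y _ ih => exact ih.symm
    | trans x y z _ _ ih1 ih2 => exact ih1.trans ih2

theorem mem_edges {D : Finset (ℤ × ℤ)} {e : Edge} : e ∈ edges D ↔ e.1 ∈ D ∧ tip e ∈ D := by
  unfold edges
  rw [Finset.mem_filter, Finset.mem_product]
  simp

theorem edges_mono {D D' : Finset (ℤ × ℤ)} (h : D ⊆ D') : edges D ⊆ edges D' := by
  intro e he; rw [mem_edges] at he ⊢; exact ⟨h he.1, h he.2⟩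

theorem ncl_eq (D : Finset (ℤ × ℤ)) (ω : Finset Edge) (hω : ω ⊆ edges D) : ncl D ω + sq.rk ω = D.card := by
  induction ω using Finset.induction_on with
  | empty =>
    rw [sq.rk_empty, add_zero]
    unfold ncl
    apply Finset.card_image_of_injective
    intro x y h
    have h1 : Conn ∅ x y := SimpleGraph.ConnectedComponent.exact h
    rw [conn_iff] at h1
    rcases sq.cn_vs h1 with h2 | ⟨⟨e, he, _⟩, _⟩
    · exact h2
    · exact absurd he (Finset.notMem_empty e)
  | insert e ω he ih =>
    have ih' := ih ((Finset.subset_insert e ω).trans hω)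
    have heD : e.1 ∈ D ∧ tip e ∈ D := mem_edges.1 (hω (Finset.mem_insert_self e ω))
    rw [sq.rk_insert]
    by_cases hc : sq.Cn ω (sq.s e) (sq.t e)
    · rw [if_pos hc, add_zero, ← ih']
      congr 1
      unfold ncl
      -- the classes do not change
      refine Finset.card_bij (fun c _ => (gr ω).connectedComponentMk (Quot.out c)) ?_ ?_ ?_
      · intro c hc'
        rw [Finset.mem_image] at hc' ⊢
        obtain ⟨x, hx, rfl⟩ := hc'
        refine ⟨x, hx, ?_⟩
        have h1 : (gr (insert e ω)).connectedComponentMk (Quot.out ((gr (insert e ω)).connectedComponentMk x)) =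
            (gr (insert e ω)).connectedComponentMk x := Quot.out_eq _
        have h2 : Conn (insert e ω) (Quot.out ((gr (insert e ω)).connectedComponentMk x)) x :=
          SimpleGraph.ConnectedComponent.exact h1
        rw [conn_iff, sq.cn_insert] at h2
        apply SimpleGraph.ConnectedComponent.sound
        change Conn ω x _
        rw [conn_iff]
        rcases h2 with h | ⟨h3, h4⟩ | ⟨h3, h4⟩
        · exact sq.cn_symm h
        · exact sq.cn_symm (sq.cn_trans h3 (sq.cn_trans hc h4))
        · exact sq.cn_symm (sq.cn_trans h3 (sq.cn_trans (sq.cn_symm hc) h4))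
      · intro c _ c' _ h
        have h1 : Conn ω (Quot.out c) (Quot.out c') := SimpleGraph.ConnectedComponent.exact h
        have h2 : (gr (insert e ω)).connectedComponentMk (Quot.out c) =
            (gr (insert e ω)).connectedComponentMk (Quot.out c') := by
          apply SimpleGraph.ConnectedComponent.sound
          change Conn (insert e ω) _ _
          rw [conn_iff] at h1 ⊢
          exact sq.cn_mono (Finset.subset_insert e ω) h1
        calc c = (gr (insert e ω)).connectedComponentMk (Quot.out c) := (Quot.out_eq c).symm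
          _ = (gr (insert e ω)).connectedComponentMk (Quot.out c') := h2
          _ = c' := Quot.out_eq c'
      · intro c hc'
        rw [Finset.mem_image] at hc'
        obtain ⟨x, hx, rfl⟩ := hc'
        refine ⟨(gr (insert e ω)).connectedComponentMk x, Finset.mem_image_of_mem _ hx, ?_⟩
        have h1 : (gr (insert e ω)).connectedComponentMk (Quot.out ((gr (insert e ω)).connectedComponentMk x)) =
            (gr (insert e ω)).connectedComponentMk x := Quot.out_eq _
        have h2 : Conn (insert e ω) (Quot.out ((gr (insert e ω)).connectedComponentMk x)) x :=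
          SimpleGraph.ConnectedComponent.exact h1
        rw [conn_iff, sq.cn_insert] at h2
        apply SimpleGraph.ConnectedComponent.sound
        change Conn ω _ x
        rw [conn_iff]
        rcases h2 with h | ⟨h3, h4⟩ | ⟨h3, h4⟩
        · exact h
        · exact sq.cn_trans h3 (sq.cn_trans hc h4)
        · exact sq.cn_trans h3 (sq.cn_trans (sq.cn_symm hc) h4)
    · rw [if_neg hc]
      have key : ncl D ω = ncl D (insert e ω) + 1 := by
        unfold ncl
        have hmem : (gr ω).connectedComponentMk (tip e) ∈ D.image (fun x => (gr ω).connectedComponentMk x) :=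
          Finset.mem_image_of_mem _ heD.2
        rw [← Finset.card_erase_add_one hmem]
        congr 1
        refine Finset.card_bij (fun c _ => (gr (insert e ω)).connectedComponentMk (Quot.out c)) ?_ ?_ ?_
        · intro c hc'
          rw [Finset.mem_erase, Finset.mem_image] at hc'
          obtain ⟨_, x, hx, rfl⟩ := hc'
          rw [Finset.mem_image]
          refine ⟨x, hx, ?_⟩
          have h1 : (gr ω).connectedComponentMk (Quot.out ((gr ω).connectedComponentMk x)) =
            (gr ω).connectedComponentMk x := Quot.out_eq _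
          have h2 : Conn ω (Quot.out ((gr ω).connectedComponentMk x)) x :=
            SimpleGraph.ConnectedComponent.exact h1
          apply SimpleGraph.ConnectedComponent.sound
          change Conn (insert e ω) x _
          rw [conn_iff] at h2 ⊢
          exact sq.cn_mono (Finset.subset_insert e ω) (sq.cn_symm h2)
        · intro c hc1 c' hc2 h
          rw [Finset.mem_erase] at hc1 hc2
          have h1 : Conn (insert e ω) (Quot.out c) (Quot.out c') := SimpleGraph.ConnectedComponent.exact h
          have n1 : ∀ c : (gr ω).ConnectedComponent, c ≠ (gr ω).connectedComponentMk (tip e) →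
              ¬ sq.Cn ω (sq.t e) (Quot.out c) := by
            intro c hc3 hc4
            apply hc3
            calc c = (gr ω).connectedComponentMk (Quot.out c) := (Quot.out_eq c).symm
              _ = (gr ω).connectedComponentMk (tip e) := by
                apply SimpleGraph.ConnectedComponent.sound
                change Conn ω _ _
                rw [conn_iff]
                exact sq.cn_symm hc4
          rw [conn_iff, sq.cn_insert] at h1
          have h2 : sq.Cn ω (Quot.out c) (Quot.out c') := by
            rcases h1 with h | ⟨h3, h4⟩ | ⟨h3, h4⟩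
            · exact h
            · exact absurd h4 (n1 c' hc2.1)
            · exact absurd (sq.cn_symm h3) (n1 c hc1.1)
          calc c = (gr ω).connectedComponentMk (Quot.out c) := (Quot.out_eq c).symm
            _ = (gr ω).connectedComponentMk (Quot.out c') := by
                apply SimpleGraph.ConnectedComponent.sound
                change Conn ω _ _
                rw [conn_iff]
                exact h2
            _ = c' := Quot.out_eq c'
        · intro c hc'
          rw [Finset.mem_image] at hc'
          obtain ⟨x, hx, rfl⟩ := hc'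
          -- choose the representative `x`, or `s e` if `x` is in the class of `t e`
          by_cases hxt : sq.Cn ω (sq.t e) x
          · refine ⟨(gr ω).connectedComponentMk (sq.s e), ?_, ?_⟩
            · rw [Finset.mem_erase]
              refine ⟨fun h => hc ?_, Finset.mem_image_of_mem _ heD.1⟩
              have : Conn ω (sq.s e) (tip e) := SimpleGraph.ConnectedComponent.exact h
              rwa [conn_iff] at this
            · have h1 : (gr ω).connectedComponentMk (Quot.out ((gr ω).connectedComponentMk (sq.s e))) =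
                (gr ω).connectedComponentMk (sq.s e) := Quot.out_eq _
              have h2 : Conn ω (Quot.out ((gr ω).connectedComponentMk (sq.s e))) (sq.s e) :=
                SimpleGraph.ConnectedComponent.exact h1
              apply SimpleGraph.ConnectedComponent.sound
              change Conn (insert e ω) _ x
              rw [conn_iff] at h2 ⊢
              rw [sq.cn_insert]
              exact Or.inr (Or.inl ⟨h2, hxt⟩)
          · refine ⟨(gr ω).connectedComponentMk x, ?_, ?_⟩
            · rw [Finset.mem_erase]
              refine ⟨fun h => hxt ?_, Finset.mem_image_of_mem _ hx⟩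
              have : Conn ω x (tip e) := SimpleGraph.ConnectedComponent.exact h
              rw [conn_iff] at this
              exact sq.cn_symm this
            · have h1 : (gr ω).connectedComponentMk (Quot.out ((gr ω).connectedComponentMk x)) =
                (gr ω).connectedComponentMk x := Quot.out_eq _
              have h2 : Conn ω (Quot.out ((gr ω).connectedComponentMk x)) x :=
                SimpleGraph.ConnectedComponent.exact h1
              apply SimpleGraph.ConnectedComponent.sound
              change Conn (insert e ω) _ x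
              rw [conn_iff] at h2 ⊢
              exact sq.cn_mono (Finset.subset_insert e ω) h2
      omega

variable {q : ℝ} {r r' : Edge → ℝ} {D D' : Finset (ℤ × ℤ)}

theorem wt_eq (hq : 0 < q) {ω : Finset Edge} (hω : ω ⊆ edges D) : wt q r D ω = q ^ D.card * sq.w q r ω := by
  unfold wt Gr.w
  rw [← ncl_eq D ω hω, pow_add]
  have : q ^ sq.rk ω ≠ 0 := pow_ne_zero _ hq.ne'
  field_simp

theorem Z_eq (hq : 0 < q) : Pool.Helper49.FK.Z q r D = q ^ D.card * sq.Z q r (edges D) := by
  unfold Pool.Helper49.FK.Z Gr.Z
  rw [Finset.mul_sum]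
  exact Finset.sum_congr rfl fun ω hω => wt_eq hq (Finset.mem_powerset.1 hω)

theorem ex_eq (hq : 0 < q) (f : Finset Edge → ℝ) : Pool.Helper49.FK.ex q r D f = sq.ex q r (edges D) f := by
  unfold Pool.Helper49.FK.ex Gr.ex
  have h1 : ∑ ω ∈ (edges D).powerset, wt q r D ω * f ω =
      q ^ D.card * ∑ ω ∈ (edges D).powerset, sq.w q r ω * f ω := by
    rw [Finset.mul_sum]
    exact Finset.sum_congr rfl fun ω hω => by rw [wt_eq hq (Finset.mem_powerset.1 hω), mul_assoc]
  rw [h1, Z_eq hq, mul_div_mul_left _ _ (pow_ne_zero _ hq.ne')]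

theorem pr_eq (hq : 0 < q) (A : Finset Edge → Prop) : Pool.Helper49.FK.pr q r D A = sq.pr q r (edges D) A :=
  ex_eq hq _

theorem del_edges (V : Finset (ℤ × ℤ)) : sq.del (edges D) (V : Set (ℤ × ℤ)) = edges (D \ V) := by
  ext e
  rw [Gr.mem_del, mem_edges, mem_edges, Finset.mem_sdiff, Finset.mem_sdiff, Finset.mem_coe, Finset.mem_coe]
  change (e.1 ∈ D ∧ tip e ∈ D) ∧ e.1 ∉ V ∧ tip e ∉ V ↔ _
  tauto

theorem iso_eq (V : Finset (ℤ × ℤ)) (ω : Finset Edge) : Pool.Helper49.FK.Iso V ω ↔ sq.Iso (V : Set (ℤ × ℤ)) ω :=
  Iff.rfl

theorem psi_eq (hq : 0 < q) (V : Finset (ℤ × ℤ)) :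
    Pool.Helper49.FK.Psi q r D V = sq.pr q r (edges D) (sq.Iso (V : Set (ℤ × ℤ))) := by
  unfold Pool.Helper49.FK.Psi
  rw [Gr.pr_iso, del_edges, Z_eq hq, Z_eq hq]
  have h1 : D.card = (V ∩ D).card + (D \ V).card := by
    have := Finset.card_sdiff_add_card_inter D V
    rw [Finset.inter_comm V D]; omega
  rw [h1, pow_add, mul_assoc, mul_div_mul_left _ _ (pow_ne_zero _ hq.ne'),
    mul_div_mul_left _ _ (pow_ne_zero _ hq.ne')]

end Pool.Agent.Helper13.OZ
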