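import Mathlib

/-!
Random cluster (FK) model on finite edge sets of a multigraph: definitions.
-/

open Finset
open scoped Classical

namespace Pool.Agent.Helper13.OZ

/-- The indicator of a proposition. -/
noncomputable def ind (p : Prop) : ℝ := if p then 1 else 0

theorem ind_pos {p : Prop} (h : p) : ind p = 1 := if_pos h

theorem ind_neg {p : Prop} (h : ¬ p) : ind p = 0 := if_neg h

theorem ind_nonneg (p : Prop) : 0 ≤ ind p := by
  by_cases h : p
  · rw [ind_pos h]; exact zero_le_one
  · rw [ind_neg h]

theorem ind_le_one (p : Prop) : ind p ≤ 1 := by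
  by_cases h : p
  · rw [ind_pos h]
  · rw [ind_neg h]; exact zero_le_one

theorem ind_mono {p p' : Prop} (h : p → p') : ind p ≤ ind p' := by
  by_cases hp : p
  · rw [ind_pos hp, ind_pos (h hp)]
  · rw [ind_neg hp]; exact ind_nonneg p'

theorem ind_congr {p p' : Prop} (h : p ↔ p') : ind p = ind p' := by rw [propext h]

theorem ind_not (p : Prop) : ind (¬ p) = 1 - ind p := by
  by_cases hp : p
  · rw [ind_pos hp, ind_neg (not_not.2 hp), sub_self]
  · rw [ind_neg hp, ind_pos hp, sub_zero]

theorem ind_and (p p' : Prop) : ind (p ∧ p') = ind p * ind p' := by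
  by_cases hp : p
  · by_cases hp' : p'
    · rw [ind_pos hp, ind_pos hp', ind_pos ⟨hp, hp'⟩, mul_one]
    · rw [ind_neg hp', ind_neg (fun h => hp' h.2), mul_zero]
  · rw [ind_neg hp, ind_neg (fun h => hp h.1), zero_mul]

/-- A multigraph: every edge has two ends. -/
structure Gr (V E : Type) where
  s : E → V
  t : E → V

namespace Gr

variable {V E : Type} (G : Gr V E)

/-- `x` and `y` are joined by edges of `ω`. -/
def Cn (ω : Finset E) (x y : V) : Prop :=
  Relation.EqvGen (fun u v => ∃ e ∈ ω, G.s e = u ∧ G.t e = v) x y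

/-- The vector of an edge in `F₂^V`. -/
noncomputable def vec (e : E) : V →₀ ZMod 2 := Finsupp.single (G.s e) 1 + Finsupp.single (G.t e) 1

/-- The rank: the number of edges of a spanning forest of `ω`. -/
noncomputable def rk (ω : Finset E) : ℕ :=
  Module.finrank (ZMod 2) (Submodule.span (ZMod 2) (G.vec '' (ω : Set E)))

/-- The weight of a configuration (odds `r`, cluster weight `q`). -/
noncomputable def w (q : ℝ) (r : E → ℝ) (ω : Finset E) : ℝ := (∏ e ∈ ω, r e) / q ^ G.rk ω

/-- Partition function of the edge set `D`, free boundary condition. -/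
noncomputable def Z (q : ℝ) (r : E → ℝ) (D : Finset E) : ℝ := ∑ ω ∈ D.powerset, G.w q r ω

/-- Expectation of `F` in the edge set `D`, free boundary condition. -/
noncomputable def ex (q : ℝ) (r : E → ℝ) (D : Finset E) (F : Finset E → ℝ) : ℝ :=
  (∑ ω ∈ D.powerset, G.w q r ω * F ω) / G.Z q r D

/-- Probability of the event `A` in the edge set `D`, free boundary condition. -/
noncomputable def pr (q : ℝ) (r : E → ℝ) (D : Finset E) (A : Finset E → Prop) : ℝ :=
  G.ex q r D (fun ω => ind (A ω))

/-- The edges of `D` without an end in `S`. -/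
noncomputable def del (D : Finset E) (S : Set V) : Finset E := D.filter fun e => G.s e ∉ S ∧ G.t e ∉ S

/-- The vertices of an edge set. -/
def vs (K : Finset E) : Set V := {x | ∃ e ∈ K, G.s e = x ∨ G.t e = x}

/-- The edges of `ω` joined to `S`. -/
noncomputable def cl (ω : Finset E) (S : Set V) : Finset E := ω.filter fun e => ∃ x ∈ S, G.Cn ω x (G.s e)

/-- No edge with an end in `S` is open. -/
def Iso (S : Set V) (ω : Finset E) : Prop := ∀ e ∈ ω, G.s e ∉ S ∧ G.t e ∉ S

/-- The sets `S` and `T` are joined. -/
def Jn (S T : Set V) (ω : Finset E) : Prop := ∃ x ∈ S, ∃ y ∈ T, G.Cn ω x y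

end Gr

end Pool.Agent.Helper13.OZ
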