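import Pool.Agent.Helper13.OZ.Rk

/-!
Vertex-disjoint edge sets: connectivity, additivity of the rank, weights.
-/

open Finset
open scoped Classical

namespace Pool.Agent.Helper13.OZ.Gr

variable {V E : Type} [DecidableEq E] (G : Gr V E)

theorem vs_s {K : Finset E} {e : E} (he : e ∈ K) : G.s e ∈ G.vs K := ⟨e, he, Or.inl rfl⟩

theorem vs_t {K : Finset E} {e : E} (he : e ∈ K) : G.t e ∈ G.vs K := ⟨e, he, Or.inr rfl⟩

theorem vs_mono {K L : Finset E} (h : K ⊆ L) : G.vs K ⊆ G.vs L := by
  rintro x ⟨e, he, hx⟩; exact ⟨e, h he, hx⟩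

theorem vs_union (K L : Finset E) : G.vs (K ∪ L) = G.vs K ∪ G.vs L := by
  ext x; constructor
  · rintro ⟨e, he, hx⟩
    rcases Finset.mem_union.1 he with h | h
    · exact Or.inl ⟨e, h, hx⟩
    · exact Or.inr ⟨e, h, hx⟩
  · rintro (⟨e, he, hx⟩ | ⟨e, he, hx⟩)
    · exact ⟨e, Finset.mem_union_left _ he, hx⟩
    · exact ⟨e, Finset.mem_union_right _ he, hx⟩

/-- A vertex joined to a different vertex is an end of an edge. -/
theorem cn_vs {ω : Finset E} {x y : V} (h : G.Cn ω x y) : x = y ∨ (x ∈ G.vs ω ∧ y ∈ G.vs ω) := by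
  induction h with
  | rel x y h1 => obtain ⟨e, he, rfl, rfl⟩ := h1; exact Or.inr ⟨G.vs_s he, G.vs_t he⟩
  | refl x => exact Or.inl rfl
  | symm x y _ ih =>
    rcases ih with h | h
    · exact Or.inl h.symm
    · exact Or.inr ⟨h.2, h.1⟩
  | trans x y z _ _ ih1 ih2 =>
    rcases ih1 with rfl | h1
    · exact ih2
    · rcases ih2 with rfl | h2
      · exact Or.inr h1
      · exact Or.inr ⟨h1.1, h2.2⟩

/-- In a union of vertex-disjoint edge sets, connections stay in one part. -/
theorem cn_union_disj {ω η : Finset E} (hd : Disjoint (G.vs ω) (G.vs η)) {x y : V}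
    (h : G.Cn (ω ∪ η) x y) : G.Cn ω x y ∨ G.Cn η x y := by
  induction h with
  | rel x y h1 =>
    obtain ⟨e, he, rfl, rfl⟩ := h1
    rcases Finset.mem_union.1 he with h | h
    · exact Or.inl (G.cn_edge h)
    · exact Or.inr (G.cn_edge h)
  | refl x => exact Or.inl (G.cn_refl _ x)
  | symm x y _ ih => exact ih.imp (fun h => G.cn_symm h) (fun h => G.cn_symm h)
  | trans x y z _ _ ih1 ih2 =>
    rcases ih1 with h1 | h1
    · rcases ih2 with h2 | h2
      · exact Or.inl (G.cn_trans h1 h2)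
      · rcases G.cn_vs h1 with rfl | h3
        · exact Or.inr h2
        · rcases G.cn_vs h2 with rfl | h4
          · exact Or.inl h1
          · exact absurd h4.1 (Set.disjoint_left.1 hd h3.2)
    · rcases ih2 with h2 | h2
      · rcases G.cn_vs h1 with rfl | h3
        · exact Or.inl h2
        · rcases G.cn_vs h2 with rfl | h4
          · exact Or.inr h1
          · exact absurd h3.2 (Set.disjoint_left.1 hd h4.1)
      · exact Or.inr (G.cn_trans h1 h2)

/-- Connections of two vertices off `ω`. -/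
theorem cn_union_off {ω η : Finset E} (hd : Disjoint (G.vs ω) (G.vs η)) {x y : V} (hx : x ∉ G.vs ω) :
    G.Cn (ω ∪ η) x y ↔ G.Cn η x y := by
  constructor
  · intro h
    rcases G.cn_union_disj hd h with h1 | h1
    · rcases G.cn_vs h1 with rfl | h3
      · exact G.cn_refl _ x
      · exact absurd h3.1 hx
    · exact h1
  · exact fun h => G.cn_mono Finset.subset_union_right h

theorem rk_union {ω η : Finset E} (hd : Disjoint (G.vs ω) (G.vs η)) : G.rk (ω ∪ η) = G.rk ω + G.rk η := by
  induction η using Finset.induction_on with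
  | empty => rw [Finset.union_empty, G.rk_empty, add_zero]
  | insert e η he ih =>
    have hs : η ⊆ insert e η := Finset.subset_insert _ _
    have hd' : Disjoint (G.vs ω) (G.vs η) := hd.mono_right (G.vs_mono hs)
    have h1 : G.s e ∉ G.vs ω := fun h => Set.disjoint_left.1 hd h (G.vs_s (Finset.mem_insert_self e η))
    rw [Finset.union_insert, G.rk_insert, G.rk_insert, ih hd', add_assoc]
    congr 2
    have := G.cn_union_off hd' (y := G.t e) h1
    by_cases h : G.Cn η (G.s e) (G.t e)
    · rw [if_pos h, if_pos (this.2 h)]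
    · rw [if_neg h, if_neg (fun h' => h (this.1 h'))]

theorem disj_of_vs {ω η : Finset E} (hd : Disjoint (G.vs ω) (G.vs η)) : Disjoint ω η := by
  rw [Finset.disjoint_left]
  intro e h1 h2
  exact Set.disjoint_left.1 hd (G.vs_s h1) (G.vs_s h2)

variable (q : ℝ) (r : E → ℝ)

theorem w_empty : G.w q r ∅ = 1 := by simp [w, G.rk_empty]

theorem w_union {ω η : Finset E} (hd : Disjoint (G.vs ω) (G.vs η)) :
    G.w q r (ω ∪ η) = G.w q r ω * G.w q r η := by
  unfold w
  rw [Finset.prod_union (G.disj_of_vs hd), G.rk_union hd, pow_add]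
  ring

theorem w_insert (hq : 0 < q) {ω : Finset E} {e : E} (he : e ∉ ω) :
    G.w q r (insert e ω) = G.w q r ω * (r e * if G.Cn ω (G.s e) (G.t e) then 1 else q⁻¹) := by
  unfold w
  rw [Finset.prod_insert he, G.rk_insert]
  split_ifs with h
  · rw [add_zero]; ring
  · rw [pow_add, pow_one]; field_simp

theorem w_nonneg (hq : 0 ≤ q) {ω : Finset E} (hr : ∀ e ∈ ω, 0 ≤ r e) : 0 ≤ G.w q r ω :=
  div_nonneg (Finset.prod_nonneg hr) (pow_nonneg hq _)

theorem w_pos (hq : 0 < q) {ω : Finset E} (hr : ∀ e ∈ ω, 0 < r e) : 0 < G.w q r ω :=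
  div_pos (Finset.prod_pos hr) (pow_pos hq _)

/-- Two parts joined by one edge. -/
theorem w_cut (hq : 0 < q) {ω η : Finset E} {e : E} (hd : Disjoint (G.vs ω) (G.vs η))
    (hs : G.s e ∉ G.vs η) (ht : G.t e ∉ G.vs ω) (hn : G.s e ≠ G.t e) :
    G.w q r (insert e (ω ∪ η)) = G.w q r ω * G.w q r η * (r e / q) := by
  have h1 : e ∉ ω ∪ η := by
    intro h
    rcases Finset.mem_union.1 h with h | h
    · exact ht (G.vs_t h)
    · exact hs (G.vs_s h)
  have h2 : ¬ G.Cn (ω ∪ η) (G.s e) (G.t e) := by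
    intro h
    rcases G.cn_union_disj hd h with h | h
    · rcases G.cn_vs h with h | h
      · exact hn h
      · exact ht h.2
    · rcases G.cn_vs h with h | h
      · exact hn h
      · exact hs h.1
  rw [G.w_insert q r hq h1, if_neg h2, G.w_union q r hd]
  ring

theorem Z_pos (hq : 0 < q) {D : Finset E} (hr : ∀ e ∈ D, 0 ≤ r e) : 0 < G.Z q r D := by
  unfold Z
  refine Finset.sum_pos' (fun ω hω => G.w_nonneg q r hq.le fun e he => hr e (Finset.mem_powerset.1 hω he)) ?_
  exact ⟨∅, Finset.empty_mem_powerset D, by rw [G.w_empty]; exact one_pos⟩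

end Pool.Agent.Helper13.OZ.Gr
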