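import Pool.Agent.Helper13.OZ.Hol

/-!
Exploration of the clusters of a set; isolated sets; comparison of domains.
-/

open Finset
open scoped Classical

namespace Pool.Agent.Helper13.OZ.Gr

variable {V E : Type} [DecidableEq E] (G : Gr V E) {q : ℝ} {r r' : E → ℝ} {D D' : Finset E} {S T : Set V}

theorem mem_del {e : E} : e ∈ G.del D S ↔ e ∈ D ∧ G.s e ∉ S ∧ G.t e ∉ S := by
  unfold del; rw [Finset.mem_filter]

theorem del_sub : G.del D S ⊆ D := Finset.filter_subset _ _

theorem del_del : G.del (G.del D S) T = G.del D (S ∪ T) := by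
  ext e; simp only [mem_del, Set.mem_union, not_or]; tauto

theorem del_anti (h : S ⊆ T) : G.del D T ⊆ G.del D S := by
  intro e he; rw [mem_del] at he ⊢; exact ⟨he.1, fun h' => he.2.1 (h h'), fun h' => he.2.2 (h h')⟩

theorem del_mono (h : D ⊆ D') : G.del D S ⊆ G.del D' S := by
  intro e he; rw [mem_del] at he ⊢; exact ⟨h he.1, he.2⟩

theorem iso_iff {a : Finset E} (ha : a ⊆ D) : G.Iso S a ↔ a ⊆ G.del D S := by
  constructor
  · intro h e he; rw [mem_del]; exact ⟨ha he, h e he⟩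
  · intro h e he; exact ((G.mem_del).1 (h he)).2

theorem mem_cl {a : Finset E} {e : E} : e ∈ G.cl a S ↔ e ∈ a ∧ ∃ x ∈ S, G.Cn a x (G.s e) := by
  unfold cl; rw [Finset.mem_filter]

theorem cl_sub {a : Finset E} : G.cl a S ⊆ a := Finset.filter_subset _ _

/-- Vertices of the explored part are joined to `S`. -/
theorem cl_vs {a : Finset E} {y : V} (hy : y ∈ G.vs (G.cl a S)) : ∃ x ∈ S, G.Cn a x y := by
  obtain ⟨e, he, h⟩ := hy
  rw [mem_cl] at he
  obtain ⟨ha, x, hx, hc⟩ := he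
  rcases h with rfl | rfl
  · exact ⟨x, hx, hc⟩
  · exact ⟨x, hx, (G.cn_ends ha x).1 hc⟩

/-- The unexplored edges touch neither `S` nor the explored part. -/
theorem rest_sub {a : Finset E} (ha : a ⊆ D) : a \ G.cl a S ⊆ G.del D (S ∪ G.vs (G.cl a S)) := by
  intro e he
  rw [Finset.mem_sdiff, mem_cl] at he
  have h1 : ¬ ∃ x ∈ S, G.Cn a x (G.s e) := fun h => he.2 ⟨he.1, h⟩
  have h2 : ¬ ∃ x ∈ S, G.Cn a x (G.t e) := by
    rintro ⟨x, hx, h⟩; exact h1 ⟨x, hx, (G.cn_ends he.1 x).2 h⟩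
  rw [mem_del]
  refine ⟨ha he.1, ?_, ?_⟩
  · rintro (h | h)
    · exact h1 ⟨_, h, G.cn_refl _ _⟩
    · exact h1 (G.cl_vs h)
  · rintro (h | h)
    · exact h2 ⟨_, h, G.cn_refl _ _⟩
    · exact h2 (G.cl_vs h)

theorem vs_del : Disjoint (G.vs (G.del D S)) S := by
  rw [Set.disjoint_left]
  rintro x ⟨e, he, h⟩ hx
  rw [mem_del] at he
  rcases h with rfl | rfl
  · exact he.2.1 hx
  · exact he.2.2 hx

theorem disj_del {K b : Finset E} (hb : b ⊆ G.del D (S ∪ G.vs K)) : Disjoint (G.vs K) (G.vs b) := by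
  have := (G.vs_del (D := D) (S := S ∪ G.vs K)).mono_left (G.vs_mono hb)
  exact (this.mono_right Set.subset_union_right).symm

theorem cn_cl {a : Finset E} {x y : V} (hx : x ∈ S) (h : G.Cn a x y) : G.Cn (G.cl a S) x y := by
  have hr := G.rest_sub (S := S) (Finset.Subset.refl a)
  have hd := G.disj_del hr
  have e : a = G.cl a S ∪ (a \ G.cl a S) := (Finset.union_sdiff_of_subset G.cl_sub).symm
  have h' : G.Cn (G.cl a S ∪ (a \ G.cl a S)) x y := by rw [← e]; exact h
  rcases G.cn_union_disj hd h' with h1 | h1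
  · exact h1
  · rcases G.cn_vs h1 with rfl | h2
    · exact G.cn_refl _ _
    · exact absurd (Or.inl hx) (Set.disjoint_left.1 (G.vs_del (D := a) (S := S ∪ G.vs (G.cl a S)))
        (G.vs_mono hr h2.1))

theorem cl_cl {a : Finset E} : G.cl (G.cl a S) S = G.cl a S := by
  refine Finset.Subset.antisymm G.cl_sub fun e he => ?_
  obtain ⟨_, x, hx, hc⟩ := (G.mem_cl).1 he
  rw [mem_cl]
  exact ⟨he, x, hx, G.cn_cl hx hc⟩

theorem cl_union {K b : Finset E} (hK : G.cl K S = K) (hb : b ⊆ G.del D (S ∪ G.vs K)) : G.cl (K ∪ b) S = K := by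
  have hd := G.disj_del hb
  have hv : Disjoint (G.vs b) (S ∪ G.vs K) := (G.vs_del (D := D) (S := S ∪ G.vs K)).mono_left (G.vs_mono hb)
  ext e
  rw [mem_cl]
  constructor
  · rintro ⟨he, x, hx, hc⟩
    rcases Finset.mem_union.1 he with h | h
    · exact h
    · exfalso
      have hse : G.s e ∈ G.vs b := G.vs_s h
      have hn : G.s e ∉ S ∪ G.vs K := Set.disjoint_left.1 hv hse
      rcases G.cn_union_disj hd hc with h1 | h1
      · rcases G.cn_vs h1 with h2 | h2
        · exact hn (Or.inl (h2 ▸ hx))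
        · exact hn (Or.inr h2.2)
      · rcases G.cn_vs h1 with h2 | h2
        · exact hn (Or.inl (h2 ▸ hx))
        · exact Set.disjoint_left.1 hv h2.1 (Or.inl hx)
  · intro he
    have h1 : e ∈ G.cl K S := by rw [hK]; exact he
    obtain ⟨_, x, hx, hc⟩ := (G.mem_cl).1 h1
    exact ⟨Finset.mem_union_left _ he, x, hx, G.cn_mono Finset.subset_union_left hc⟩

/-- Exploration identity: the sum over all configurations is the sum over the explored parts `K` and the
configurations off `K`. -/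
theorem explore (q : ℝ) (r : E → ℝ) (D : Finset E) (S : Set V) (F : Finset E → ℝ) :
    ∑ a ∈ D.powerset, G.w q r a * F a = ∑ K ∈ D.powerset.filter (fun K => G.cl K S = K),
      G.w q r K * ∑ b ∈ (G.del D (S ∪ G.vs K)).powerset, G.w q r b * F (K ∪ b) := by
  have h1 : ∀ a ∈ D.powerset, G.cl a S ∈ D.powerset.filter (fun K => G.cl K S = K) := by
    intro a ha
    rw [Finset.mem_filter, Finset.mem_powerset]
    exact ⟨G.cl_sub.trans (Finset.mem_powerset.1 ha), G.cl_cl⟩
  rw [← Finset.sum_fiberwise_of_maps_to h1]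
  refine Finset.sum_congr rfl fun K hK => ?_
  rw [Finset.mem_filter, Finset.mem_powerset] at hK
  rw [Finset.mul_sum]
  refine Finset.sum_bij' (fun a _ => a \ K) (fun b _ => K ∪ b) ?_ ?_ ?_ ?_ ?_
  · intro a ha
    rw [Finset.mem_filter, Finset.mem_powerset] at ha
    rw [Finset.mem_powerset, ← ha.2]
    exact G.rest_sub ha.1
  · intro b hb
    rw [Finset.mem_powerset] at hb
    rw [Finset.mem_filter, Finset.mem_powerset]
    exact ⟨Finset.union_subset hK.1 (hb.trans G.del_sub), G.cl_union hK.2 hb⟩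
  · intro a ha
    rw [Finset.mem_filter, Finset.mem_powerset] at ha
    exact Finset.union_sdiff_of_subset (ha.2 ▸ G.cl_sub)
  · intro b hb
    rw [Finset.mem_powerset] at hb
    exact Finset.union_sdiff_cancel_left (G.disj_of_vs (G.disj_del hb))
  · intro a ha
    rw [Finset.mem_filter, Finset.mem_powerset] at ha
    have hb : a \ K ⊆ G.del D (S ∪ G.vs K) := ha.2 ▸ G.rest_sub ha.1
    have hs : K ⊆ a := ha.2 ▸ G.cl_sub
    have e : K ∪ a \ K = a := Finset.union_sdiff_of_subset hs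
    have := G.w_union q r (G.disj_del hb)
    rw [e] at this
    change G.w q r a * F a = G.w q r K * (G.w q r (a \ K) * F (K ∪ a \ K))
    rw [e, this]
    ring

theorem ex_congr {F H : Finset E → ℝ} (h : ∀ a, a ⊆ D → F a = H a) : G.ex q r D F = G.ex q r D H := by
  unfold ex
  rw [Finset.sum_congr rfl fun a ha => by rw [h a (Finset.mem_powerset.1 ha)]]

theorem w_congr {a : Finset E} (h : ∀ e ∈ a, r e = r' e) : G.w q r a = G.w q r' a := by
  unfold w; rw [Finset.prod_congr rfl h]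

theorem Z_congr (h : ∀ e ∈ D, r e = r' e) : G.Z q r D = G.Z q r' D := by
  unfold Z
  exact Finset.sum_congr rfl fun a ha => G.w_congr fun e he => h e (Finset.mem_powerset.1 ha he)

theorem ex_congr_r (h : ∀ e ∈ D, r e = r' e) (F : Finset E → ℝ) : G.ex q r D F = G.ex q r' D F := by
  unfold ex
  rw [G.Z_congr h, Finset.sum_congr rfl fun a ha => by
    rw [G.w_congr fun e he => h e (Finset.mem_powerset.1 ha he)]]

theorem pr_eq (A : Finset E → Prop) :
    G.pr q r D A = (∑ a ∈ D.powerset, G.w q r a * ind (A a)) / G.Z q r D := rfl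

theorem pr_nonneg (hq : 0 < q) (hr : ∀ e ∈ D, 0 ≤ r e) (A : Finset E → Prop) : 0 ≤ G.pr q r D A := by
  rw [pr_eq]
  exact div_nonneg (Finset.sum_nonneg fun a ha => mul_nonneg
    (G.w_nonneg q r hq.le fun e he => hr e (Finset.mem_powerset.1 ha he)) (ind_nonneg _)) (G.Z_pos q r hq hr).le

theorem ex_mono {F H : Finset E → ℝ} (hq : 0 < q) (hr : ∀ e ∈ D, 0 ≤ r e) (h : ∀ a, a ⊆ D → F a ≤ H a) :
    G.ex q r D F ≤ G.ex q r D H := by
  unfold ex
  refine div_le_div_of_nonneg_right (Finset.sum_le_sum fun a ha => ?_) (G.Z_pos q r hq hr).le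
  have ha' := Finset.mem_powerset.1 ha
  exact mul_le_mul_of_nonneg_left (h a ha') (G.w_nonneg q r hq.le fun e he => hr e (ha' he))

theorem pr_mono (hq : 0 < q) (hr : ∀ e ∈ D, 0 ≤ r e) {A B : Finset E → Prop} (h : ∀ a, a ⊆ D → A a → B a) :
    G.pr q r D A ≤ G.pr q r D B := by
  unfold pr
  exact G.ex_mono hq hr fun a ha => ind_mono (h a ha)

theorem pr_congr {A B : Finset E → Prop} (h : ∀ a, a ⊆ D → (A a ↔ B a)) :
    G.pr q r D A = G.pr q r D B := by
  unfold pr
  exact G.ex_congr fun a ha => ind_congr (h a ha)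

theorem ex_const (hq : 0 < q) (hr : ∀ e ∈ D, 0 ≤ r e) (c : ℝ) : G.ex q r D (fun _ => c) = c := by
  have := G.Z_pos q r hq hr
  unfold ex
  rw [← Finset.sum_mul]
  change G.Z q r D * c / G.Z q r D = c
  field_simp

theorem pr_true (hq : 0 < q) (hr : ∀ e ∈ D, 0 ≤ r e) : G.pr q r D (fun _ => True) = 1 := by
  unfold pr
  rw [G.ex_congr (H := fun _ => 1) fun _ _ => ind_pos trivial]
  exact G.ex_const hq hr 1

theorem pr_le_one (hq : 0 < q) (hr : ∀ e ∈ D, 0 ≤ r e) (A : Finset E → Prop) : G.pr q r D A ≤ 1 := by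
  rw [← G.pr_true (D := D) (r := r) hq hr]
  exact G.pr_mono hq hr fun _ _ _ => trivial

theorem ex_add (F H : Finset E → ℝ) : G.ex q r D (fun a => F a + H a) = G.ex q r D F + G.ex q r D H := by
  unfold ex
  rw [← add_div, ← Finset.sum_add_distrib]
  congr 1
  exact Finset.sum_congr rfl fun a _ => by ring

theorem ex_smul (c : ℝ) (F : Finset E → ℝ) : G.ex q r D (fun a => c * F a) = c * G.ex q r D F := by
  unfold ex
  rw [← mul_div_assoc, Finset.mul_sum]
  congr 1
  exact Finset.sum_congr rfl fun a _ => by ring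

theorem pr_not (hq : 0 < q) (hr : ∀ e ∈ D, 0 ≤ r e) (A : Finset E → Prop) :
    G.pr q r D (fun a => ¬ A a) = 1 - G.pr q r D A := by
  have h1 := G.ex_const (D := D) (r := r) hq hr 1
  have h2 := G.ex_add (D := D) (r := r) (q := q) (fun a => ind (¬ A a)) (fun a => ind (A a))
  rw [G.ex_congr (H := fun _ => 1) fun a _ => by rw [ind_not]; ring, h1] at h2
  unfold pr
  linarith

theorem pr_or_le (hq : 0 < q) (hr : ∀ e ∈ D, 0 ≤ r e) (A B : Finset E → Prop) :
    G.pr q r D (fun a => A a ∨ B a) ≤ G.pr q r D A + G.pr q r D B := by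
  unfold pr
  rw [← G.ex_add]
  refine G.ex_mono hq hr fun a _ => ?_
  by_cases h : A a
  · rw [ind_pos (Or.inl h), ind_pos h]; linarith [ind_nonneg (B a)]
  · by_cases h' : B a
    · rw [ind_pos (Or.inr h'), ind_pos h']; linarith [ind_nonneg (A a)]
    · rw [ind_neg (fun h'' => h''.elim h h')]; linarith [ind_nonneg (A a), ind_nonneg (B a)]

/-- Larger odds and larger domain. -/
theorem ex_mono_D (hq : 1 ≤ q) (hD : D ⊆ D') (hr : ∀ e ∈ D, 0 ≤ r e) (hrr : ∀ e ∈ D, r e ≤ r' e)
    (hr' : ∀ e ∈ D', 0 ≤ r' e) {F : Finset E → ℝ} (hF : MonoOn D' F) : G.ex q r D F ≤ G.ex q r' D' F := by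
  let r0 : E → ℝ := fun e => if e ∈ D then r e else 0
  have e0 : ∀ H : Finset E → ℝ, ∑ a ∈ D'.powerset, G.w q r0 a * H a = ∑ a ∈ D.powerset, G.w q r a * H a := by
    intro H
    symm
    rw [← Finset.sum_subset (Finset.powerset_mono.2 hD)]
    · refine Finset.sum_congr rfl fun a ha => ?_
      rw [G.w_congr (r := r0) (r' := r) fun e he => if_pos (Finset.mem_powerset.1 ha he)]
    · intro a _ ha
      have : ∃ e ∈ a, e ∉ D := by
        by_contra h
        push Not at h
        exact ha (Finset.mem_powerset.2 h)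
      obtain ⟨e, he, heD⟩ := this
      unfold w
      rw [Finset.prod_eq_zero he (if_neg heD), zero_div, zero_mul]
  have e1 : G.Z q r0 D' = G.Z q r D := by
    have := e0 (fun _ => 1)
    simp only [mul_one] at this
    exact this
  have e2 : G.ex q r0 D' F = G.ex q r D F := by
    unfold ex; rw [e0, e1]
  rw [← e2]
  refine G.ex_mono_r hq (fun e _ => ?_) (fun e he => ?_) hF
  · change (0 : ℝ) ≤ if e ∈ D then r e else 0
    split_ifs with h
    · exact hr e h
    · exact le_refl _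
  · change (if e ∈ D then r e else 0) ≤ r' e
    split_ifs with h
    · exact hrr e h
    · exact hr' e he

/-- Increasing events. -/
theorem pr_mono_D (hq : 1 ≤ q) (hD : D ⊆ D') (hr : ∀ e ∈ D, 0 ≤ r e) (hrr : ∀ e ∈ D, r e ≤ r' e)
    (hr' : ∀ e ∈ D', 0 ≤ r' e) {A : Finset E → Prop} (hA : ∀ a b, a ⊆ b → A a → A b) :
    G.pr q r D A ≤ G.pr q r' D' A := by
  exact G.ex_mono_D hq hD hr hrr hr' fun a b hab _ => ind_mono (hA a b hab)

/-- Decreasing events. -/
theorem pr_anti_D (hq : 1 ≤ q) (hD : D ⊆ D') (hr : ∀ e ∈ D, 0 ≤ r e) (hrr : ∀ e ∈ D, r e ≤ r' e)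
    (hr' : ∀ e ∈ D', 0 ≤ r' e) {A : Finset E → Prop} (hA : ∀ a b, a ⊆ b → A b → A a) :
    G.pr q r' D' A ≤ G.pr q r D A := by
  have h := G.pr_mono_D hq hD hr hrr hr' (A := fun a => ¬ A a) fun a b hab h h' => h (hA a b hab h')
  rw [G.pr_not (one_pos.trans_le hq) hr, G.pr_not (one_pos.trans_le hq) hr'] at h
  linarith

theorem iso_anti {a b : Finset E} (hab : a ⊆ b) (h : G.Iso S b) : G.Iso S a := fun e he => h e (hab he)

theorem sum_iso (F : Finset E → ℝ) : ∑ a ∈ D.powerset, G.w q r a * (F a * ind (G.Iso S a)) =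
    ∑ a ∈ (G.del D S).powerset, G.w q r a * F a := by
  have h1 : (G.del D S).powerset = D.powerset.filter (fun a => G.Iso S a) := by
    ext a
    rw [Finset.mem_filter, Finset.mem_powerset, Finset.mem_powerset]
    constructor
    · intro h; exact ⟨h.trans G.del_sub, (G.iso_iff (h.trans G.del_sub)).2 h⟩
    · rintro ⟨h1, h2⟩; exact (G.iso_iff h1).1 h2
  rw [h1, Finset.sum_filter]
  refine Finset.sum_congr rfl fun a _ => ?_
  by_cases h : G.Iso S a
  · rw [if_pos h, ind_pos h, mul_one]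
  · rw [if_neg h, ind_neg h, mul_zero, mul_zero]

theorem pr_iso : G.pr q r D (G.Iso S) = G.Z q r (G.del D S) / G.Z q r D := by
  rw [pr_eq]
  have := G.sum_iso (q := q) (r := r) (D := D) (S := S) (fun _ => 1)
  simp only [one_mul, mul_one] at this
  rw [this]; rfl

theorem pr_iso_union (hq : 0 < q) (hr : ∀ e ∈ D, 0 ≤ r e) :
    G.pr q r D (G.Iso (S ∪ T)) = G.pr q r D (G.Iso S) * G.pr q r (G.del D S) (G.Iso T) := by
  have hZ := G.Z_pos q r hq (D := G.del D S) fun e he => hr e (G.del_sub he)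
  rw [G.pr_iso, G.pr_iso, G.pr_iso, G.del_del, div_mul_div_comm, mul_comm (G.Z q r (G.del D S)),
    mul_div_mul_right _ _ hZ.ne']

theorem jn_iff {a : Finset E} (ha : a ⊆ D) : ¬ G.Jn S T a ↔ Disjoint (S ∪ G.vs (G.cl a S)) T := by
  constructor
  · intro h
    rw [Set.disjoint_left]
    rintro y (hy | hy) hT
    · exact h ⟨y, hy, y, hT, G.cn_refl _ _⟩
    · obtain ⟨x, hx, hc⟩ := G.cl_vs hy
      exact h ⟨x, hx, y, hT, hc⟩
  · rintro h ⟨x, hx, y, hy, hc⟩
    have h1 := G.cn_cl hx hc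
    rcases G.cn_vs h1 with rfl | h2
    · exact Set.disjoint_left.1 h (Or.inl hx) hy
    · exact Set.disjoint_left.1 h (Or.inr h2.2) hy

/-- If `T` is not reached from `S` then `T` is isolated with at least the probability in any larger domain
or with larger odds: comparison of the domain `D'` with odds `r'` with the domain `D` with odds `r`. -/
theorem iso_explore (hq : 1 ≤ q) (hr : ∀ e ∈ D, 0 ≤ r e) (hr' : ∀ e ∈ D', 0 ≤ r' e)
    (hS : ∀ e ∈ D', G.s e ∉ S → G.t e ∉ S → e ∈ D ∧ r' e = r e) :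
    G.pr q r' D' (fun a => ¬ G.Jn S T a) * G.pr q r D (G.Iso T) ≤ G.pr q r' D' (G.Iso T) := by
  have hq0 : 0 < q := one_pos.trans_le hq
  have hZ' := G.Z_pos q r' hq0 hr'
  rw [G.pr_eq (D := D'), G.pr_eq (D := D')]
  rw [div_mul_eq_mul_div, div_le_div_iff_of_pos_right hZ']
  rw [G.explore q r' D' S, G.explore q r' D' S, Finset.sum_mul]
  beta_reduce
  refine Finset.sum_le_sum fun K hK => ?_
  rw [Finset.mem_filter, Finset.mem_powerset] at hK
  have hwK : 0 ≤ G.w q r' K := G.w_nonneg q r' hq0.le fun e he => hr' e (hK.1 he)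
  have hsub : G.del D' (S ∪ G.vs K) ⊆ D' := G.del_sub
  have hDK : ∀ e ∈ G.del D' (S ∪ G.vs K), e ∈ D ∧ r' e = r e := by
    intro e he
    rw [mem_del] at he
    exact hS e he.1 (fun h => he.2.1 (Or.inl h)) (fun h => he.2.2 (Or.inl h))
  have hwb : ∀ b ∈ (G.del D' (S ∪ G.vs K)).powerset, 0 ≤ G.w q r' b := fun b hb =>
    G.w_nonneg q r' hq0.le fun e he => hr' e (hsub (Finset.mem_powerset.1 hb he))
  rw [mul_assoc]
  refine mul_le_mul_of_nonneg_left ?_ hwK
  by_cases hT : Disjoint (S ∪ G.vs K) T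
  · have h1 : ∑ b ∈ (G.del D' (S ∪ G.vs K)).powerset, G.w q r' b * ind (¬ G.Jn S T (K ∪ b)) =
        G.Z q r' (G.del D' (S ∪ G.vs K)) := by
      unfold Z
      refine Finset.sum_congr rfl fun b hb => ?_
      have hb' := Finset.mem_powerset.1 hb
      have h2 : ¬ G.Jn S T (K ∪ b) := by
        rw [G.jn_iff (Finset.Subset.refl _), G.cl_union hK.2 hb']
        exact hT
      rw [ind_pos h2, mul_one]
    have h3 : ∑ b ∈ (G.del D' (S ∪ G.vs K)).powerset, G.w q r' b * ind (G.Iso T (K ∪ b)) =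
        G.pr q r' (G.del D' (S ∪ G.vs K)) (G.Iso T) * G.Z q r' (G.del D' (S ∪ G.vs K)) := by
      have hZK := G.Z_pos q r' hq0 (D := G.del D' (S ∪ G.vs K)) fun e he => hr' e (hsub he)
      rw [pr_eq, div_mul_cancel₀ _ hZK.ne']
      refine Finset.sum_congr rfl fun b hb => ?_
      have h4 : G.Iso T (K ∪ b) ↔ G.Iso T b := by
        constructor
        · exact fun h => G.iso_anti Finset.subset_union_right h
        · intro h e he
          rcases Finset.mem_union.1 he with h5 | h5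
          · exact ⟨fun h6 => Set.disjoint_left.1 hT (Or.inr (G.vs_s h5)) h6,
              fun h6 => Set.disjoint_left.1 hT (Or.inr (G.vs_t h5)) h6⟩
          · exact h e h5
      rw [ind_congr h4]
    rw [h1, h3, mul_comm]
    refine mul_le_mul_of_nonneg_right ?_
      (G.Z_pos q r' hq0 (D := G.del D' (S ∪ G.vs K)) fun e he => hr' e (hsub he)).le
    have h7 : G.pr q r' (G.del D' (S ∪ G.vs K)) (G.Iso T) = G.pr q r (G.del D' (S ∪ G.vs K)) (G.Iso T) := by
      unfold pr; exact G.ex_congr_r (fun e he => (hDK e he).2) _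
    rw [h7]
    exact G.pr_anti_D hq (fun e he => (hDK e he).1) (fun e he => hr e (hDK e he).1) (fun e _ => le_rfl) hr
      fun a b hab h => G.iso_anti hab h
  · have h1 : ∑ b ∈ (G.del D' (S ∪ G.vs K)).powerset, G.w q r' b * ind (¬ G.Jn S T (K ∪ b)) = 0 := by
      refine Finset.sum_eq_zero fun b hb => ?_
      have hb' := Finset.mem_powerset.1 hb
      have h2 : ¬ ¬ G.Jn S T (K ∪ b) := by
        rw [G.jn_iff (Finset.Subset.refl _), G.cl_union hK.2 hb']
        exact hT
      rw [ind_neg h2, mul_zero]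
    rw [h1, zero_mul]
    exact Finset.sum_nonneg fun b hb => mul_nonneg (hwb b hb) (ind_nonneg _)

/-- The law of the explored part. -/
theorem pr_cl {K : Finset E} (hK : G.cl K S = K) (hKD : K ⊆ D) (hq : 0 < q) (hr : ∀ e ∈ D, 0 ≤ r e) :
    G.pr q r D (fun a => G.cl a S = K) = G.w q r K * G.pr q r D (G.Iso (S ∪ G.vs K)) := by
  rw [G.pr_iso, pr_eq]
  rw [G.explore q r D S, ← mul_div_assoc]
  beta_reduce
  congr 1
  have hm : K ∈ D.powerset.filter (fun K => G.cl K S = K) := by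
    rw [Finset.mem_filter, Finset.mem_powerset]; exact ⟨hKD, hK⟩
  rw [Finset.sum_eq_single_of_mem K hm]
  · congr 1
    unfold Z
    refine Finset.sum_congr rfl fun b hb => ?_
    rw [ind_pos (G.cl_union hK (Finset.mem_powerset.1 hb)), mul_one]
  · intro K' hK' hne
    rw [Finset.mem_filter] at hK'
    rw [Finset.sum_eq_zero, mul_zero]
    intro b hb
    rw [ind_neg, mul_zero]
    rw [G.cl_union hK'.2 (Finset.mem_powerset.1 hb)]
    exact hne

end Pool.Agent.Helper13.OZ.Gr
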