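import Pool.Agent.Helper13.OZ.Dis

/-!
Holley's inequality from the one edge condition; the FKG inequality; monotonicity in the odds and in the domain.
-/

open Finset
open scoped Classical FinsetFamily

namespace Pool.Agent.Helper13.OZ

section general

variable {E : Type} [DecidableEq E]

/-- Monotone on the subsets of `D`. -/
def MonoOn (D : Finset E) (F : Finset E → ℝ) : Prop := ∀ a b, a ⊆ b → b ⊆ D → F a ≤ F b

theorem lattice_of_ratio {D : Finset E} {μ ν : Finset E → ℝ} (hμ : ∀ a, a ⊆ D → 0 ≤ μ a) (hν : ∀ a, a ⊆ D → 0 ≤ ν a)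
    (hs : ∀ a e, insert e a ⊆ D → μ a = 0 → μ (insert e a) = 0)
    (h : ∀ a b e, a ⊆ b → b ⊆ D → e ∈ D → e ∉ b → μ (insert e a) * ν b ≤ ν (insert e b) * μ a)
    (b : Finset E) (hb : b ⊆ D) (a : Finset E) (ha : a ⊆ D) : μ a * ν b ≤ μ (a ∩ b) * ν (a ∪ b) := by
  -- induction on the edges of `a \ b`
  have key : ∀ c : Finset E, c ⊆ D → Disjoint c b → ∀ a₀, a₀ ⊆ b → μ (c ∪ a₀) * ν b ≤ μ a₀ * ν (c ∪ b) := by
    intro c
    induction c using Finset.induction_on with
    | empty => intro _ _ a₀ _; rw [Finset.empty_union, Finset.empty_union]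
    | insert e c he ih =>
      intro hc hd a₀ ha₀
      have hcD : c ⊆ D := (Finset.subset_insert e c).trans hc
      have heD : e ∈ D := hc (Finset.mem_insert_self e c)
      have heb : e ∉ b := Finset.disjoint_left.1 hd (Finset.mem_insert_self e c)
      have ih' := ih hcD (hd.mono_left (Finset.subset_insert e c)) a₀ ha₀
      have h1 : e ∉ c ∪ b := by
        intro h'; rcases Finset.mem_union.1 h' with h' | h'
        · exact he h'
        · exact heb h'
      have h2 := h (c ∪ a₀) (c ∪ b) e (Finset.union_subset_union_right ha₀) (Finset.union_subset hcD hb) heD h1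
      rw [Finset.insert_union, Finset.insert_union]
      have p1 : 0 ≤ μ (c ∪ a₀) := hμ _ (Finset.union_subset hcD (ha₀.trans hb))
      have p2 : 0 ≤ ν (c ∪ b) := hν _ (Finset.union_subset hcD hb)
      have p3 : 0 ≤ ν b := hν _ hb
      have p4 : 0 ≤ μ a₀ := hμ _ (ha₀.trans hb)
      have hi : insert e (c ∪ b) ⊆ D := Finset.insert_subset heD (Finset.union_subset hcD hb)
      have p5 : 0 ≤ ν (insert e (c ∪ b)) := hν _ hi
      have hi' : insert e (c ∪ a₀) ⊆ D := Finset.insert_subset heD (Finset.union_subset hcD (ha₀.trans hb))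
      have p6 : 0 ≤ μ (insert e (c ∪ a₀)) := hμ _ hi'
      rcases p1.eq_or_lt with z | z
      · rw [hs _ e hi' z.symm, zero_mul]; exact mul_nonneg p4 p5
      · rcases p3.eq_or_lt with y | y
        · rw [← y, mul_zero]; exact mul_nonneg p4 p5
        · -- then `ν (c ∪ b) > 0`
          have hpos : 0 < μ a₀ * ν (c ∪ b) := lt_of_lt_of_le (mul_pos z y) ih'
          have hν' : 0 < ν (c ∪ b) := by
            rcases p2.eq_or_lt with x | x
            · rw [← x, mul_zero] at hpos; exact absurd hpos (lt_irrefl _)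
            · exact x
          have : μ (insert e (c ∪ a₀)) * ν b * (μ (c ∪ a₀) * ν (c ∪ b)) ≤
              μ a₀ * ν (insert e (c ∪ b)) * (μ (c ∪ a₀) * ν (c ∪ b)) := by
            calc μ (insert e (c ∪ a₀)) * ν b * (μ (c ∪ a₀) * ν (c ∪ b))
                = (μ (insert e (c ∪ a₀)) * ν (c ∪ b)) * (μ (c ∪ a₀) * ν b) := by ring
              _ ≤ (ν (insert e (c ∪ b)) * μ (c ∪ a₀)) * (μ a₀ * ν (c ∪ b)) :=
                  mul_le_mul h2 ih' (mul_nonneg p1 p3) (mul_nonneg p5 p1)
              _ = _ := by ring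
          exact le_of_mul_le_mul_right this (mul_pos z hν')
  have h3 := key (a \ b) (Finset.sdiff_subset.trans ha) Finset.sdiff_disjoint (a ∩ b) Finset.inter_subset_right
  rwa [Finset.sdiff_union_inter, Finset.sdiff_union_self_eq_union] at h3

theorem holley_ratio {D : Finset E} {μ ν : Finset E → ℝ} (hμ : ∀ a, a ⊆ D → 0 ≤ μ a) (hν : ∀ a, a ⊆ D → 0 ≤ ν a)
    (hs : ∀ a e, insert e a ⊆ D → μ a = 0 → μ (insert e a) = 0)
    (h : ∀ a b e, a ⊆ b → b ⊆ D → e ∈ D → e ∉ b → μ (insert e a) * ν b ≤ ν (insert e b) * μ a)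
    {F : Finset E → ℝ} (hF : MonoOn D F) :
    (∑ a ∈ D.powerset, μ a * F a) * ∑ a ∈ D.powerset, ν a ≤ (∑ a ∈ D.powerset, μ a) * ∑ a ∈ D.powerset, ν a * F a := by
  -- first for `F` minus its minimum
  have key : (∑ a ∈ D.powerset, μ a * (F a - F ∅)) * ∑ a ∈ D.powerset, ν a ≤
      (∑ a ∈ D.powerset, μ a) * ∑ a ∈ D.powerset, ν a * (F a - F ∅) := by
    let i : Finset E → ℝ := fun a => if a ⊆ D then 1 else 0
    have hi : ∀ a, a ⊆ D → i a = 1 := fun a ha => if_pos ha
    have hi' : ∀ a, ¬ a ⊆ D → i a = 0 := fun a ha => if_neg ha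
    have hF0 : ∀ a, a ⊆ D → 0 ≤ F a - F ∅ := fun a ha => sub_nonneg.2 (hF ∅ a (Finset.empty_subset a) ha)
    have nn : ∀ f : Finset E → ℝ, (∀ a, a ⊆ D → 0 ≤ f a) → 0 ≤ fun a => i a * f a := by
      intro f hf a
      change 0 ≤ i a * f a
      by_cases ha : a ⊆ D
      · rw [hi a ha, one_mul]; exact hf a ha
      · rw [hi' a ha, zero_mul]
    have := Finset.four_functions_theorem (f₁ := fun a => i a * (μ a * (F a - F ∅))) (f₂ := fun a => i a * ν a)
      (f₃ := fun a => i a * μ a) (f₄ := fun a => i a * (ν a * (F a - F ∅))) D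
      (nn _ fun a ha => mul_nonneg (hμ a ha) (hF0 a ha)) (nn _ hν) (nn _ hμ)
      (nn _ fun a ha => mul_nonneg (hν a ha) (hF0 a ha)) (by
        intro a ha b hb
        have hab : a ∩ b ⊆ D := Finset.inter_subset_left.trans ha
        have hab' : a ∪ b ⊆ D := Finset.union_subset ha hb
        simp only [hi a ha, hi b hb, hi _ hab, hi _ hab', one_mul]
        have h1 := lattice_of_ratio hμ hν hs h b hb a ha
        have h2 : F a - F ∅ ≤ F (a ∪ b) - F ∅ := sub_le_sub_right (hF a _ Finset.subset_union_left hab') _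
        calc μ a * (F a - F ∅) * ν b = μ a * ν b * (F a - F ∅) := by ring
          _ ≤ μ (a ∩ b) * ν (a ∪ b) * (F (a ∪ b) - F ∅) :=
              mul_le_mul h1 h2 (hF0 a ha) (mul_nonneg (hμ _ hab) (hν _ hab'))
          _ = _ := by ring)
      (Finset.Subset.refl D.powerset) (Finset.Subset.refl D.powerset)
    have e1 : D.powerset ⊼ D.powerset = D.powerset := by
      ext a
      rw [Finset.mem_infs]
      constructor
      · rintro ⟨b, hb, c, _, rfl⟩
        exact Finset.mem_powerset.2 (Finset.inter_subset_left.trans (Finset.mem_powerset.1 hb))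
      · intro ha
        exact ⟨a, ha, a, ha, inf_idem a⟩
    have e2 : D.powerset ⊻ D.powerset = D.powerset := by
      ext a
      rw [Finset.mem_sups]
      constructor
      · rintro ⟨b, hb, c, hc, rfl⟩
        exact Finset.mem_powerset.2 (Finset.union_subset (Finset.mem_powerset.1 hb) (Finset.mem_powerset.1 hc))
      · intro ha
        exact ⟨a, ha, a, ha, sup_idem a⟩
    rw [e1, e2] at this
    have s : ∀ f : Finset E → ℝ, ∑ a ∈ D.powerset, i a * f a = ∑ a ∈ D.powerset, f a := by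
      intro f
      refine Finset.sum_congr rfl fun a ha => ?_
      rw [hi a (Finset.mem_powerset.1 ha), one_mul]
    simpa only [s] using this
  have e3 : ∀ f : Finset E → ℝ, ∑ a ∈ D.powerset, f a * (F a - F ∅) =
      ∑ a ∈ D.powerset, f a * F a - F ∅ * ∑ a ∈ D.powerset, f a := by
    intro f
    rw [Finset.mul_sum, ← Finset.sum_sub_distrib]
    exact Finset.sum_congr rfl fun a _ => by ring
  rw [e3, e3] at key
  nlinarith [key]

end general

namespace Gr

variable {V E : Type} [DecidableEq E] (G : Gr V E) {q : ℝ} {r r' : E → ℝ} {D D' : Finset E}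

/-- The ratio condition for the weights. -/
theorem w_ratio (hq : 1 ≤ q) {a b : Finset E} {e : E} (hab : a ⊆ b) (hr : ∀ f ∈ a, 0 ≤ r f) (hr' : ∀ f ∈ b, 0 ≤ r' f)
    (he0 : 0 ≤ r e) (he1 : r e ≤ r' e) (he : e ∉ b) :
    G.w q r (insert e a) * G.w q r' b ≤ G.w q r' (insert e b) * G.w q r a := by
  have hq0 : 0 < q := one_pos.trans_le hq
  rw [G.w_insert q r hq0 (fun h => he (hab h)), G.w_insert q r' hq0 he]
  have h1 : (if G.Cn a (G.s e) (G.t e) then (1 : ℝ) else q⁻¹) ≤ if G.Cn b (G.s e) (G.t e) then 1 else q⁻¹ := by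
    by_cases h : G.Cn a (G.s e) (G.t e)
    · rw [if_pos h, if_pos (G.cn_mono hab h)]
    · rw [if_neg h]
      split_ifs
      · exact inv_le_one_of_one_le₀ hq
      · exact le_refl _
  have h2 : (0 : ℝ) ≤ if G.Cn a (G.s e) (G.t e) then (1 : ℝ) else q⁻¹ := by
    split_ifs
    · exact zero_le_one
    · exact inv_nonneg.2 hq0.le
  have h3 := G.w_nonneg q r hq0.le hr
  have h4 := G.w_nonneg q r' hq0.le hr'
  calc G.w q r a * (r e * if G.Cn a (G.s e) (G.t e) then 1 else q⁻¹) * G.w q r' b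
      = (G.w q r a * G.w q r' b) * (r e * if G.Cn a (G.s e) (G.t e) then 1 else q⁻¹) := by ring
    _ ≤ (G.w q r a * G.w q r' b) * (r' e * if G.Cn b (G.s e) (G.t e) then 1 else q⁻¹) :=
        mul_le_mul_of_nonneg_left (mul_le_mul he1 h1 h2 (he0.trans he1)) (mul_nonneg h3 h4)
    _ = _ := by ring

theorem w_zero {a : Finset E} {e : E} (h : G.w q r a = 0) (hq : 0 < q) : G.w q r (insert e a) = 0 := by
  by_cases he : e ∈ a
  · rw [Finset.insert_eq_of_mem he, h]
  · rw [G.w_insert q r hq he, h, zero_mul]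

theorem ex_eq (F : Finset E → ℝ) : G.ex q r D F = (∑ ω ∈ D.powerset, G.w q r ω * F ω) / G.Z q r D := rfl

/-- Expectations of increasing functions increase with the odds. -/
theorem ex_mono_r (hq : 1 ≤ q) (hr : ∀ e ∈ D, 0 ≤ r e) (hrr : ∀ e ∈ D, r e ≤ r' e) {F : Finset E → ℝ}
    (hF : MonoOn D F) : G.ex q r D F ≤ G.ex q r' D F := by
  have hq0 : 0 < q := one_pos.trans_le hq
  have hr' : ∀ e ∈ D, 0 ≤ r' e := fun e he => (hr e he).trans (hrr e he)
  have := holley_ratio (D := D) (μ := G.w q r) (ν := G.w q r')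
    (fun a ha => G.w_nonneg q r hq0.le fun e he => hr e (ha he))
    (fun a ha => G.w_nonneg q r' hq0.le fun e he => hr' e (ha he))
    (fun a e _ h => G.w_zero h hq0)
    (fun a b e hab hb he heb => G.w_ratio hq hab (fun f hf => hr f (hb (hab hf))) (fun f hf => hr' f (hb hf))
      (hr e he) (hrr e he) heb) hF
  unfold ex
  rw [div_le_div_iff₀ (G.Z_pos q r hq0 hr) (G.Z_pos q r' hq0 hr')]
  calc _ ≤ _ := this
    _ = _ := mul_comm _ _

/-- The FKG inequality. -/
theorem fkg (hq : 1 ≤ q) (hr : ∀ e ∈ D, 0 ≤ r e) {F H : Finset E → ℝ}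
    (hF : MonoOn D F) (hH : MonoOn D H) (hH0 : ∀ a, a ⊆ D → 0 ≤ H a) :
    G.ex q r D F * G.ex q r D H ≤ G.ex q r D (fun ω => F ω * H ω) := by
  have hq0 : 0 < q := one_pos.trans_le hq
  have wn : ∀ a, a ⊆ D → 0 ≤ G.w q r a := fun a ha => G.w_nonneg q r hq0.le fun e he => hr e (ha he)
  have := holley_ratio (D := D) (μ := G.w q r) (ν := fun a => G.w q r a * H a) wn
    (fun a ha => mul_nonneg (wn a ha) (hH0 a ha))
    (fun a e _ h => G.w_zero h hq0)
    (fun a b e hab hb he heb => by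
      have h1 := G.w_ratio hq (r := r) (r' := r) hab (fun f hf => hr f (hb (hab hf))) (fun f hf => hr f (hb hf))
        (hr e he) le_rfl heb
      have hi : insert e b ⊆ D := Finset.insert_subset he hb
      have h2 : H b ≤ H (insert e b) := hH _ _ (Finset.subset_insert e b) hi
      calc G.w q r (insert e a) * (G.w q r b * H b) = G.w q r (insert e a) * G.w q r b * H b := by ring
        _ ≤ G.w q r (insert e b) * G.w q r a * H (insert e b) :=
            mul_le_mul h1 h2 (hH0 b hb) (mul_nonneg (wn _ hi) (wn _ (hab.trans hb)))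
        _ = _ := by ring) hF
  have hZ := G.Z_pos q r hq0 hr
  unfold ex
  rw [div_mul_div_comm, div_le_div_iff₀ (mul_pos hZ hZ) hZ]
  have e : ∑ ω ∈ D.powerset, G.w q r ω * (F ω * H ω) = ∑ ω ∈ D.powerset, G.w q r ω * H ω * F ω :=
    Finset.sum_congr rfl fun ω _ => by ring
  rw [e]
  have h3 := mul_le_mul_of_nonneg_right this hZ.le
  unfold Z at *
  linarith [h3]

end Gr

end Pool.Agent.Helper13.OZ
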