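import Pool.Agent.Helper13.OZ.Sym
import Pool.Agent.Helper49.QP.Dual

/-!
Planar duality for the Dobrushin box: the two graphs and the orthogonality relation.
-/

open Finset hiding box
open scoped Classical

namespace Pool.Agent.Helper13.OZ

open Pool.Agent.Helper49.QP (Dn Rn dE)
open Pool.Agent.Helper49.FL (Lam)

/-- Edges of the square lattice. -/
abbrev Ed : Type := (ℤ × ℤ) × Bool

theorem tip_true (x y : ℤ) : Pool.Helper49.FK.tip ((x, y), true) = (x + 1, y) := by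
  simp [Pool.Helper49.FK.tip]

theorem tip_false (x y : ℤ) : Pool.Helper49.FK.tip ((x, y), false) = (x, y + 1) := by
  simp [Pool.Helper49.FK.tip]

theorem tipL_true (x y : ℤ) : Pool.Agent.Helper49.FL.tip ((x, y), true) = (x + 1, y) := by
  simp [Pool.Agent.Helper49.FL.tip]

theorem tipL_false (x y : ℤ) : Pool.Agent.Helper49.FL.tip ((x, y), false) = (x, y + 1) := by
  simp [Pool.Agent.Helper49.FL.tip]

theorem mem_Lam' {n : ℕ} {x : ℤ × ℤ} : x ∈ Lam n ↔ (-(n : ℤ) ≤ x.1 ∧ x.1 ≤ n) ∧ -(n : ℤ) + 1 ≤ x.2 ∧ x.2 ≤ n := by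
  unfold Lam
  rw [Finset.mem_product, Finset.mem_Icc, Finset.mem_Icc]

theorem mem_Dn {n : ℕ} {x : ℤ × ℤ} : x ∈ Dn n ↔ (0 ≤ x.1 ∧ x.1 ≤ 2 * (n : ℤ) + 1) ∧ -(n : ℤ) ≤ x.2 ∧ x.2 ≤ n := by
  unfold Dn
  rw [Finset.mem_product, Finset.mem_Icc, Finset.mem_Icc]

/-- The primal edges meeting the box: horizontal ones. -/
theorem mem_eL_true {n : ℕ} {x y : ℤ} : ((x, y), true) ∈ Pool.Agent.Helper49.FL.edges (Lam n) ↔
    (-(n : ℤ) - 1 ≤ x ∧ x ≤ n) ∧ -(n : ℤ) + 1 ≤ y ∧ y ≤ n := by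
  unfold Pool.Agent.Helper49.FL.edges
  simp only [Finset.mem_union, Finset.mem_product, Finset.mem_image, Finset.mem_singleton, mem_Lam']
  constructor
  · rintro (⟨h | ⟨⟨a, b⟩, h, h'⟩, _⟩ | ⟨_, h⟩)
    · omega
    · simp only [Prod.mk.injEq] at h'
      omega
    · simp at h
  · rintro ⟨h1, h2⟩
    left
    refine ⟨?_, trivial⟩
    by_cases hx : -(n : ℤ) ≤ x
    · left; exact ⟨⟨hx, h1.2⟩, h2⟩
    · right
      refine ⟨(x + 1, y), ?_, by simp⟩
      dsimp only
      omega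

/-- The primal edges meeting the box: vertical ones. -/
theorem mem_eL_false {n : ℕ} {x y : ℤ} : ((x, y), false) ∈ Pool.Agent.Helper49.FL.edges (Lam n) ↔
    (-(n : ℤ) ≤ x ∧ x ≤ n) ∧ -(n : ℤ) ≤ y ∧ y ≤ n ∧ 1 ≤ n := by
  unfold Pool.Agent.Helper49.FL.edges
  simp only [Finset.mem_union, Finset.mem_product, Finset.mem_image, Finset.mem_singleton, mem_Lam']
  constructor
  · rintro (⟨_, h⟩ | ⟨h | ⟨⟨a, b⟩, h, h'⟩, _⟩)
    · simp at h
    · omega
    · simp only [Prod.mk.injEq] at h'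
      omega
  · rintro ⟨h1, h2⟩
    right
    refine ⟨?_, trivial⟩
    by_cases hy : -(n : ℤ) + 1 ≤ y
    · left; exact ⟨h1, hy, h2.2.1⟩
    · right
      refine ⟨(x, y + 1), ?_, by simp⟩
      dsimp only; omega

/-- The map of the sites off the box to the two boundary vertices. -/
noncomputable def pp (n : ℕ) (x : ℤ × ℤ) : ℤ × ℤ :=
  if x ∈ Lam n then x else if 1 ≤ x.2 then (0, (n : ℤ) + 1) else (0, -(n : ℤ))

theorem pp_in {n : ℕ} {x : ℤ × ℤ} (h : x ∈ Lam n) : pp n x = x := if_pos h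

theorem pp_up {n : ℕ} {x y : ℤ} (h : ¬ ((-(n : ℤ) ≤ x ∧ x ≤ n) ∧ -(n : ℤ) + 1 ≤ y ∧ y ≤ n)) (h' : 1 ≤ y) :
    pp n (x, y) = (0, (n : ℤ) + 1) := by
  unfold pp
  rw [if_neg (fun h1 => h (mem_Lam'.1 h1)), if_pos h']

theorem pp_dn {n : ℕ} {x y : ℤ} (h : ¬ ((-(n : ℤ) ≤ x ∧ x ≤ n) ∧ -(n : ℤ) + 1 ≤ y ∧ y ≤ n)) (h' : y < 1) :
    pp n (x, y) = (0, -(n : ℤ)) := by
  unfold pp
  rw [if_neg (fun h1 => h (mem_Lam'.1 h1)), if_neg (not_le.2 h')]

/-- The primal graph. -/
noncomputable def GP (n : ℕ) : Gr (ℤ × ℤ) Ed := ⟨fun e => pp n e.1, fun e => pp n (Pool.Agent.Helper49.FL.tip e)⟩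

/-- The left neighbour of the left end of the defect row is identified with the right end. -/
noncomputable def pd (n : ℕ) (x : ℤ × ℤ) : ℤ × ℤ := if x = (-1, 0) then Rn n else x

/-- The dual graph. -/
noncomputable def GD (n : ℕ) : Gr (ℤ × ℤ) Ed := ⟨fun e => pd n e.1, fun e => pd n (Pool.Helper49.FK.tip e)⟩

/-- The additional primal edge, between the two boundary vertices. -/
def e0 (n : ℕ) : Ed := ((-(n : ℤ) - 1, 0), false)

/-- The primal edges. -/
noncomputable def EP (n : ℕ) : Finset Ed := insert (e0 n) (Pool.Agent.Helper49.FL.edges (Lam n))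

theorem dE_true (n : ℕ) (x y : ℤ) : dE n ((x, y), true) = ((x + n + 1, y - 1), false) := by simp [dE]

theorem dE_false (n : ℕ) (x y : ℤ) : dE n ((x, y), false) = ((x + n, y), true) := by simp [dE]

theorem dE_inj (n : ℕ) : Function.Injective (dE n) := by
  rintro ⟨⟨a, b⟩, c⟩ ⟨⟨a', b'⟩, c'⟩ h
  cases c <;> cases c' <;> simp [dE] at h ⊢ <;> omega

theorem dE_e0 (n : ℕ) : dE n (e0 n) = ((-1, 0), true) := by
  rw [e0, dE_false]
  congr 2
  ring

/-- The duals of the primal edges meeting the box are the edges of the dual rectangle. -/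
theorem dE_mem {n : ℕ} (hn : 1 ≤ n) (e : Ed) :
    dE n e ∈ Pool.Helper49.FK.edges (Dn n) ↔ e ∈ Pool.Agent.Helper49.FL.edges (Lam n) := by
  obtain ⟨⟨x, y⟩, c⟩ := e
  rw [mem_edges, mem_Dn, mem_Dn]
  cases c
  · rw [dE_false, tip_true, mem_eL_false]
    dsimp only; omega
  · rw [dE_true, tip_false, mem_eL_true]
    dsimp only; omega

theorem dE_surj {n : ℕ} (f : Ed) : ∃ e, dE n e = f := by
  obtain ⟨⟨x, y⟩, c⟩ := f
  cases c
  · exact ⟨((x - n - 1, y + 1), true), by rw [dE_true]; congr 2 <;> ring⟩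
  · exact ⟨((x - n, y), false), by rw [dE_false]; congr 2; ring⟩

theorem e0_notMem (n : ℕ) : e0 n ∉ Pool.Agent.Helper49.FL.edges (Lam n) := by
  rw [e0, mem_eL_false]; omega

theorem image_edges {n : ℕ} (hn : 1 ≤ n) :
    (Pool.Agent.Helper49.FL.edges (Lam n)).image (dE n) = Pool.Helper49.FK.edges (Dn n) := by
  ext f
  rw [Finset.mem_image]
  constructor
  · rintro ⟨e, he, rfl⟩; exact (dE_mem hn e).2 he
  · intro hf
    obtain ⟨e, rfl⟩ := dE_surj (n := n) f
    exact ⟨e, (dE_mem hn e).1 hf, rfl⟩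

theorem zmod_self (a : ZMod 2) : a + a = 0 := by
  have : (2 : ZMod 2) = 0 := rfl
  rw [← two_mul, this, zero_mul]

/-- The orthogonality relation. -/
theorem orth {n : ℕ} (hn : 1 ≤ n) (c : ℤ × ℤ → ZMod 2) :
    ∑ e ∈ EP n, (c ((GP n).s e) + c ((GP n).t e)) • (GD n).vec (dE n e) = 0 := by
  -- values at the lattice sites
  set C : ℤ → ℤ → ZMod 2 := fun x y => c (pp n (x, y)) with hC
  have hE : Pool.Agent.Helper49.FL.edges (Lam n) =
      ((Finset.Icc (-(n : ℤ) - 1) n ×ˢ Finset.Icc (-(n : ℤ) + 1) n).image fun x => ((x, true) : Ed)) ∪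
      ((Finset.Icc (-(n : ℤ)) n ×ˢ Finset.Icc (-(n : ℤ)) n).image fun x => ((x, false) : Ed)) := by
    ext ⟨⟨x, y⟩, b⟩
    cases b
    · rw [mem_eL_false]
      simp only [Finset.mem_union, Finset.mem_image, Finset.mem_product, Finset.mem_Icc, Prod.mk.injEq,
        Prod.exists]
      constructor
      · intro h; right; exact ⟨x, y, by omega, by simp⟩
      · rintro (⟨a, b, _, h⟩ | ⟨a, b, h, h'⟩)
        · simp at h
        · omega
    · rw [mem_eL_true]
      simp only [Finset.mem_union, Finset.mem_image, Finset.mem_product, Finset.mem_Icc, Prod.mk.injEq,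
        Prod.exists]
      constructor
      · intro h; left; exact ⟨x, y, by omega, by simp⟩
      · rintro (⟨a, b, h, h'⟩ | ⟨a, b, _, h⟩)
        · omega
        · simp at h
  have hdis : Disjoint ((Finset.Icc (-(n : ℤ) - 1) n ×ˢ Finset.Icc (-(n : ℤ) + 1) n).image fun x => ((x, true) : Ed))
      ((Finset.Icc (-(n : ℤ)) n ×ˢ Finset.Icc (-(n : ℤ)) n).image fun x => ((x, false) : Ed)) := by
    rw [Finset.disjoint_left]
    intro e h1 h2
    rw [Finset.mem_image] at h1 h2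
    obtain ⟨a, _, rfl⟩ := h1
    obtain ⟨b, _, h⟩ := h2
    simp at h
  have inj : ∀ b : Bool, Function.Injective fun x : ℤ × ℤ => ((x, b) : Ed) := fun b x y h => (Prod.mk.inj h).1
  rw [EP, Finset.sum_insert (e0_notMem n), hE, Finset.sum_union hdis,
    Finset.sum_image (fun x _ y _ h => inj true h), Finset.sum_image (fun x _ y _ h => inj false h)]
  ext ⟨i, j⟩
  rw [Finsupp.add_apply, Finsupp.add_apply, Finsupp.finset_sum_apply, Finsupp.finset_sum_apply,
    Finsupp.smul_apply, Finsupp.zero_apply]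
  simp only [Finsupp.smul_apply, smul_eq_mul]
  -- the values of the vectors
  have v1 : ∀ x : ℤ × ℤ, x ∈ Finset.Icc (-(n : ℤ) - 1) n ×ˢ Finset.Icc (-(n : ℤ) + 1) n →
      (c ((GP n).s (x, true)) + c ((GP n).t (x, true))) * ((GD n).vec (dE n (x, true))) (i, j) =
      (if x = (i - n - 1, j + 1) then C x.1 x.2 + C (x.1 + 1) x.2 else 0) +
        (if x = (i - n - 1, j) then C x.1 x.2 + C (x.1 + 1) x.2 else 0) := by
    rintro ⟨x, y⟩ hx
    rw [Finset.mem_product, Finset.mem_Icc, Finset.mem_Icc] at hx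
    dsimp only at hx
    have a1 : (GP n).s ((x, y), true) = pp n (x, y) := rfl
    have a2 : (GP n).t ((x, y), true) = pp n (x + 1, y) := by
      change pp n (Pool.Agent.Helper49.FL.tip ((x, y), true)) = _
      rw [tipL_true]
    have a3 : (GD n).vec (dE n ((x, y), true)) =
        Finsupp.single (x + n + 1, y - 1) 1 + Finsupp.single (x + n + 1, y) 1 := by
      rw [dE_true]
      change Finsupp.single (pd n (x + n + 1, y - 1)) 1 +
        Finsupp.single (pd n (Pool.Helper49.FK.tip ((x + n + 1, y - 1), false))) 1 = _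
      rw [tip_false, sub_add_cancel]
      have h1 : pd n (x + n + 1, y - 1) = (x + n + 1, y - 1) := by
        unfold pd; rw [if_neg]; simp only [Prod.mk.injEq]; omega
      have h2 : pd n (x + n + 1, y) = (x + n + 1, y) := by
        unfold pd; rw [if_neg]; simp only [Prod.mk.injEq]; omega
      rw [h1, h2]
    rw [a1, a2, a3, Finsupp.add_apply, Finsupp.single_apply, Finsupp.single_apply]
    have b1 : ((x + n + 1, y - 1) : ℤ × ℤ) = (i, j) ↔ ((x, y) : ℤ × ℤ) = (i - n - 1, j + 1) := by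
      simp only [Prod.mk.injEq]; omega
    have b2 : ((x + n + 1, y) : ℤ × ℤ) = (i, j) ↔ ((x, y) : ℤ × ℤ) = (i - n - 1, j) := by
      simp only [Prod.mk.injEq]; omega
    simp only [b1, b2, mul_add, mul_ite, mul_one, mul_zero]
    rfl
  have v2 : ∀ x : ℤ × ℤ, x ∈ Finset.Icc (-(n : ℤ)) n ×ˢ Finset.Icc (-(n : ℤ)) n →
      (c ((GP n).s (x, false)) + c ((GP n).t (x, false))) * ((GD n).vec (dE n (x, false))) (i, j) =
      (if x = (i - n, j) then C x.1 x.2 + C x.1 (x.2 + 1) else 0) +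
        (if x = (i - n - 1, j) then C x.1 x.2 + C x.1 (x.2 + 1) else 0) := by
    rintro ⟨x, y⟩ hx
    rw [Finset.mem_product, Finset.mem_Icc, Finset.mem_Icc] at hx
    dsimp only at hx
    have a1 : (GP n).s ((x, y), false) = pp n (x, y) := rfl
    have a2 : (GP n).t ((x, y), false) = pp n (x, y + 1) := by
      change pp n (Pool.Agent.Helper49.FL.tip ((x, y), false)) = _
      rw [tipL_false]
    have a3 : (GD n).vec (dE n ((x, y), false)) =
        Finsupp.single (x + n, y) 1 + Finsupp.single (x + n + 1, y) 1 := by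
      rw [dE_false]
      change Finsupp.single (pd n (x + n, y)) 1 +
        Finsupp.single (pd n (Pool.Helper49.FK.tip ((x + n, y), true))) 1 = _
      rw [tip_true]
      have h1 : pd n (x + n, y) = (x + n, y) := by
        unfold pd; rw [if_neg]; simp only [Prod.mk.injEq]; omega
      have h2 : pd n (x + n + 1, y) = (x + n + 1, y) := by
        unfold pd; rw [if_neg]; simp only [Prod.mk.injEq]; omega
      rw [h1, h2]
    rw [a1, a2, a3, Finsupp.add_apply, Finsupp.single_apply, Finsupp.single_apply]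
    have b1 : ((x + n, y) : ℤ × ℤ) = (i, j) ↔ ((x, y) : ℤ × ℤ) = (i - n, j) := by
      simp only [Prod.mk.injEq]; omega
    have b2 : ((x + n + 1, y) : ℤ × ℤ) = (i, j) ↔ ((x, y) : ℤ × ℤ) = (i - n - 1, j) := by
      simp only [Prod.mk.injEq]; omega
    simp only [b1, b2, mul_add, mul_ite, mul_one, mul_zero]
    rfl
  rw [Finset.sum_congr rfl v1, Finset.sum_congr rfl v2, Finset.sum_add_distrib, Finset.sum_add_distrib]
  simp only [Finset.sum_ite_eq', Finset.mem_product, Finset.mem_Icc]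
  -- the additional edge
  have v0 : (c ((GP n).s (e0 n)) + c ((GP n).t (e0 n))) * ((GD n).vec (dE n (e0 n))) (i, j) =
      (c (0, -(n : ℤ)) + c (0, (n : ℤ) + 1)) * ((if ((2 * (n : ℤ) + 1, 0) : ℤ × ℤ) = (i, j) then 1 else 0) +
        if ((0, 0) : ℤ × ℤ) = (i, j) then 1 else 0) := by
    have a1 : (GP n).s (e0 n) = (0, -(n : ℤ)) := by
      exact pp_dn (by omega) (by omega)
    have a2 : (GP n).t (e0 n) = (0, (n : ℤ) + 1) := by
      change pp n (Pool.Agent.Helper49.FL.tip ((-(n : ℤ) - 1, 0), false)) = _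
      rw [tipL_false]
      exact pp_up (by omega) (by omega)
    have a3 : (GD n).vec (dE n (e0 n)) = Finsupp.single (2 * (n : ℤ) + 1, 0) 1 + Finsupp.single (0, 0) 1 := by
      rw [dE_e0]
      change Finsupp.single (pd n (-1, 0)) 1 + Finsupp.single (pd n (Pool.Helper49.FK.tip ((-1, 0), true))) 1 = _
      rw [tip_true]
      have h1 : pd n (-1, 0) = (2 * (n : ℤ) + 1, 0) := by unfold pd; rw [if_pos rfl]; rfl
      have h2 : pd n (-1 + 1, 0) = (0, 0) := by unfold pd; rw [if_neg]; · rfl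
                                                simp
      rw [h1, h2]
    rw [a1, a2, a3, Finsupp.add_apply, Finsupp.single_apply, Finsupp.single_apply]
  rw [v0]
  -- out of range values
  have oh : ∀ x y : ℤ, ¬ ((-(n : ℤ) - 1 ≤ x ∧ x ≤ n) ∧ -(n : ℤ) + 1 ≤ y ∧ y ≤ n) → C x y + C (x + 1) y = 0 := by
    intro x y h
    have : pp n (x, y) = pp n (x + 1, y) := by
      by_cases h1 : 1 ≤ y
      · rw [pp_up (by omega) h1, pp_up (by omega) h1]
      · rw [pp_dn (by omega) (by omega), pp_dn (by omega) (by omega)]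
    simp only [hC, this]
    exact zmod_self _
  have ov : ∀ x y : ℤ, ¬ ((-(n : ℤ) ≤ x ∧ x ≤ n) ∧ -(n : ℤ) ≤ y ∧ y ≤ n) → y ≠ 0 → C x y + C x (y + 1) = 0 := by
    intro x y h hy
    have : pp n (x, y) = pp n (x, y + 1) := by
      by_cases h1 : 1 ≤ y
      · rw [pp_up (by omega) h1, pp_up (by omega) (by omega)]
      · rw [pp_dn (by omega) (by omega), pp_dn (by omega) (by omega)]
    simp only [hC, this]
    exact zmod_self _
  have ov0 : ∀ x : ℤ, ¬ (-(n : ℤ) ≤ x ∧ x ≤ n) → C x 0 + C x (0 + 1) = c (0, -(n : ℤ)) + c (0, (n : ℤ) + 1) := by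
    intro x h
    have h1 : pp n (x, 0) = (0, -(n : ℤ)) := pp_dn (by omega) (by omega)
    have h2 : pp n (x, 0 + 1) = (0, (n : ℤ) + 1) := pp_up (by omega) (by omega)
    simp only [hC, h1, h2]
  by_cases hg : (0 ≤ i ∧ i ≤ 2 * (n : ℤ) + 1) ∧ -(n : ℤ) ≤ j ∧ j ≤ n
  · -- a vertex of the dual rectangle: all four edges count
    have r1 : (if (-(n : ℤ) - 1 ≤ i - n - 1 ∧ i - n - 1 ≤ n) ∧ -(n : ℤ) + 1 ≤ j + 1 ∧ j + 1 ≤ n then
        C (i - n - 1) (j + 1) + C (i - n - 1 + 1) (j + 1) else 0) =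
        C (i - n - 1) (j + 1) + C (i - n - 1 + 1) (j + 1) := by
      split_ifs with h
      · rfl
      · exact (oh _ _ h).symm
    have r2 : (if (-(n : ℤ) - 1 ≤ i - n - 1 ∧ i - n - 1 ≤ n) ∧ -(n : ℤ) + 1 ≤ j ∧ j ≤ n then
        C (i - n - 1) j + C (i - n - 1 + 1) j else 0) = C (i - n - 1) j + C (i - n - 1 + 1) j := by
      split_ifs with h
      · rfl
      · exact (oh _ _ h).symm
    have r3 : (if (-(n : ℤ) ≤ i - n ∧ i - n ≤ n) ∧ -(n : ℤ) ≤ j ∧ j ≤ n then C (i - n) j + C (i - n) (j + 1) else 0) +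
        (c (0, -(n : ℤ)) + c (0, (n : ℤ) + 1)) * (if ((2 * (n : ℤ) + 1, 0) : ℤ × ℤ) = (i, j) then 1 else 0) =
        C (i - n) j + C (i - n) (j + 1) := by
      by_cases h : (-(n : ℤ) ≤ i - n ∧ i - n ≤ n) ∧ -(n : ℤ) ≤ j ∧ j ≤ n
      · rw [if_pos h, if_neg, mul_zero, add_zero]
        simp only [Prod.mk.injEq]; omega
      · rw [if_neg h, zero_add]
        by_cases hj : j = 0
        · subst hj
          have hi : (2 * (n : ℤ) + 1) = i := by omega
          rw [ov0 (i - n) (by omega), if_pos (by rw [hi]), mul_one]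
        · rw [ov _ _ h hj, if_neg, mul_zero]
          simp only [Prod.mk.injEq]; omega
    have r4 : (if (-(n : ℤ) ≤ i - n - 1 ∧ i - n - 1 ≤ n) ∧ -(n : ℤ) ≤ j ∧ j ≤ n then
        C (i - n - 1) j + C (i - n - 1) (j + 1) else 0) +
        (c (0, -(n : ℤ)) + c (0, (n : ℤ) + 1)) * (if ((0, 0) : ℤ × ℤ) = (i, j) then 1 else 0) =
        C (i - n - 1) j + C (i - n - 1) (j + 1) := by
      by_cases h : (-(n : ℤ) ≤ i - n - 1 ∧ i - n - 1 ≤ n) ∧ -(n : ℤ) ≤ j ∧ j ≤ n
      · rw [if_pos h, if_neg, mul_zero, add_zero]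
        simp only [Prod.mk.injEq]; omega
      · rw [if_neg h, zero_add]
        by_cases hj : j = 0
        · subst hj
          have hi : (0 : ℤ) = i := by omega
          rw [ov0 (i - n - 1) (by omega), if_pos (by rw [hi]), mul_one]
        · rw [ov _ _ h hj, if_neg, mul_zero]
          simp only [Prod.mk.injEq]; omega
    have e1 : i - n - 1 + 1 = i - (n : ℤ) := by ring
    rw [e1] at r1 r2
    simp only [e1]
    rw [r1, r2, mul_add]
    calc _ = (C (i - n - 1) (j + 1) + C (i - n) (j + 1)) + (C (i - n - 1) j + C (i - n) j) +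
          (((if (-(n : ℤ) ≤ i - n ∧ i - n ≤ n) ∧ -(n : ℤ) ≤ j ∧ j ≤ n then C (i - n) j + C (i - n) (j + 1) else 0) +
            (c (0, -(n : ℤ)) + c (0, (n : ℤ) + 1)) *
              (if ((2 * (n : ℤ) + 1, 0) : ℤ × ℤ) = (i, j) then 1 else 0)) +
          ((if (-(n : ℤ) ≤ i - n - 1 ∧ i - n - 1 ≤ n) ∧ -(n : ℤ) ≤ j ∧ j ≤ n then
            C (i - n - 1) j + C (i - n - 1) (j + 1) else 0) +
            (c (0, -(n : ℤ)) + c (0, (n : ℤ) + 1)) * (if ((0, 0) : ℤ × ℤ) = (i, j) then 1 else 0))) := by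
          ring
      _ = (C (i - n - 1) (j + 1) + C (i - n - 1) (j + 1)) + (C (i - n) (j + 1) + C (i - n) (j + 1)) +
          ((C (i - n - 1) j + C (i - n - 1) j) + (C (i - n) j + C (i - n) j)) := by rw [r3, r4]; ring
      _ = 0 := by simp only [zmod_self, add_zero]
  · -- off the dual rectangle
    have q1 : ¬ ((-(n : ℤ) - 1 ≤ i - n - 1 ∧ i - n - 1 ≤ n) ∧ -(n : ℤ) + 1 ≤ j + 1 ∧ j + 1 ≤ n) := by omega
    have q2 : ¬ ((-(n : ℤ) - 1 ≤ i - n - 1 ∧ i - n - 1 ≤ n) ∧ -(n : ℤ) + 1 ≤ j ∧ j ≤ n) := by omega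
    have q3 : ¬ ((-(n : ℤ) ≤ i - n ∧ i - n ≤ n) ∧ -(n : ℤ) ≤ j ∧ j ≤ n) := by omega
    have q4 : ¬ ((-(n : ℤ) ≤ i - n - 1 ∧ i - n - 1 ≤ n) ∧ -(n : ℤ) ≤ j ∧ j ≤ n) := by omega
    have q5 : ¬ (((2 * (n : ℤ) + 1, 0) : ℤ × ℤ) = (i, j)) := by rw [Prod.mk.injEq]; omega
    have q6 : ¬ (((0, 0) : ℤ × ℤ) = (i, j)) := by rw [Prod.mk.injEq]; omega
    simp only [if_neg q1, if_neg q2, if_neg q3, if_neg q4, if_neg q5, if_neg q6, add_zero, mul_zero]

end Pool.Agent.Helper13.OZ
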