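import Pool.Agent.Helper13.OZ.Pd1

/-!
Planar duality for the Dobrushin box: rank formula and the connection of the two boundary vertices.
-/

open Finset hiding box
open scoped Classical

namespace Pool.Agent.Helper13.OZ

open Pool.Agent.Helper49.QP (Dn Rn dE)
open Pool.Agent.Helper49.FL (Lam)

/-- A forest given by a height function has full rank. -/
theorem rk_forest {V E : Type} [DecidableEq E] (G : Gr V E) (h : V → ℤ) (p o : E → V) (T : Finset E)
    (hp : ∀ e ∈ T, (G.s e = p e ∧ G.t e = o e) ∨ (G.s e = o e ∧ G.t e = p e))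
    (hi : ∀ e ∈ T, ∀ e' ∈ T, p e = p e' → e = e') (hh : ∀ e ∈ T, h (o e) < h (p e)) : G.rk T = T.card := by
  induction hc : T.card generalizing T with
  | zero =>
    rw [Finset.card_eq_zero] at hc
    rw [hc, G.rk_empty]
  | succ m ih =>
    have hne : T.Nonempty := by rw [← Finset.card_pos, hc]; exact Nat.succ_pos m
    obtain ⟨e, he, hmax⟩ := Finset.exists_max_image T (fun e => h (p e)) hne
    have hsub : T.erase e ⊆ T := Finset.erase_subset e T
    have h1 := ih (T.erase e) (fun f hf => hp f (hsub hf)) (fun f hf f' hf' => hi f (hsub hf) f' (hsub hf'))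
      (fun f hf => hh f (hsub hf)) (by rw [Finset.card_erase_of_mem he, hc]; rfl)
    have h2 : G.rk T = G.rk (T.erase e) + if G.Cn (T.erase e) (G.s e) (G.t e) then 0 else 1 := by
      rw [← G.rk_insert, Finset.insert_erase he]
    -- the top vertex is not an end of the other edges
    have h3 : p e ∉ G.vs (T.erase e) := by
      rintro ⟨f, hf, hx⟩
      have hfT := hsub hf
      have hfe : f ≠ e := (Finset.mem_erase.1 hf).1
      have h4 : p e = p f ∨ p e = o f := by
        rcases hp f hfT with ⟨h5, h6⟩ | ⟨h5, h6⟩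
        · rw [h5, h6] at hx; exact hx.imp (fun h => h.symm) (fun h => h.symm)
        · rw [h5, h6] at hx; exact (hx.imp (fun h => h.symm) (fun h => h.symm)).symm
      rcases h4 with h4 | h4
      · exact hfe (hi f hfT e he h4.symm)
      · have := hh f hfT
        have := hmax f hfT
        rw [h4] at this
        linarith
    have h5 : ¬ G.Cn (T.erase e) (G.s e) (G.t e) := by
      intro h6
      have h7 : G.s e ≠ G.t e := by
        intro h8
        have := hh e he
        rcases hp e he with ⟨h9, h10⟩ | ⟨h9, h10⟩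
        · rw [← h9, ← h10, h8] at this; exact lt_irrefl _ this
        · rw [← h9, ← h10, h8] at this; exact lt_irrefl _ this
      rcases G.cn_vs h6 with h8 | h8
      · exact h7 h8
      · rcases hp e he with ⟨h9, _⟩ | ⟨_, h9⟩
        · exact h3 (h9 ▸ h8.1)
        · exact h3 (h9 ▸ h8.2)
    rw [h2, if_neg h5, h1]

theorem rk_mono {V E : Type} [DecidableEq E] (G : Gr V E) {a b : Finset E} (h : a ⊆ b) : G.rk a ≤ G.rk b := by
  have key : ∀ c : Finset E, G.rk a ≤ G.rk (c ∪ a) := by
    intro c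
    induction c using Finset.induction_on with
    | empty => rw [Finset.empty_union]
    | insert e c _ ih => rw [Finset.insert_union, G.rk_insert]; exact ih.trans (Nat.le_add_right _ _)
  have := key b
  rwa [Finset.union_eq_left.2 h] at this

/-- The dual configuration. -/
noncomputable def du (n : ℕ) (b : Finset Ed) : Finset Ed := (EP n \ b).image (dE n)

theorem mem_du {n : ℕ} {b : Finset Ed} {e : Ed} : dE n e ∈ du n b ↔ e ∈ EP n ∧ e ∉ b := by
  unfold du
  rw [Finset.mem_image]
  constructor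
  · rintro ⟨e', he', h⟩
    rw [dE_inj n h] at he'
    exact Finset.mem_sdiff.1 he'
  · intro h; exact ⟨e, Finset.mem_sdiff.2 h, rfl⟩

theorem du_insert {n : ℕ} {b : Finset Ed} {e : Ed} (he : e ∈ EP n) (heb : e ∉ b) :
    du n b = insert (dE n e) (du n (insert e b)) := by
  ext f
  obtain ⟨f, rfl⟩ := dE_surj (n := n) f
  rw [Finset.mem_insert, mem_du, mem_du, Finset.mem_insert]
  constructor
  · rintro ⟨h1, h2⟩
    by_cases h : f = e
    · left; rw [h]
    · right; exact ⟨h1, fun h' => h'.elim h h2⟩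
  · rintro (h | ⟨h1, h2⟩)
    · rw [dE_inj n h]; exact ⟨he, heb⟩
    · exact ⟨h1, fun h => h2 (Or.inr h)⟩

/-- If an edge joins two primal clusters then its dual closes a dual circuit. -/
theorem dual_cn {n : ℕ} (hn : 1 ≤ n) {b : Finset Ed} {e : Ed} (he : e ∈ EP n)
    (h : ¬ (GP n).Cn b ((GP n).s e) ((GP n).t e)) :
    (GD n).Cn (du n (insert e b)) ((GD n).s (dE n e)) ((GD n).t (dE n e)) := by
  rw [← (GD n).mem_span_iff]
  change (GD n).vec (dE n e) ∈ _
  let c : ℤ × ℤ → ZMod 2 := fun x => if (GP n).Cn b ((GP n).s e) x then 1 else 0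
  have h1 := orth hn c
  rw [← Finset.add_sum_erase _ _ he] at h1
  have h2 : c ((GP n).s e) + c ((GP n).t e) = 1 := by
    change (if (GP n).Cn b ((GP n).s e) ((GP n).s e) then (1 : ZMod 2) else 0) +
      (if (GP n).Cn b ((GP n).s e) ((GP n).t e) then (1 : ZMod 2) else 0) = 1
    rw [if_pos ((GP n).cn_refl _ _), if_neg h, add_zero]
  rw [h2, one_smul] at h1
  have h3 : (GD n).vec (dE n e) = - ∑ x ∈ (EP n).erase e, (c ((GP n).s x) + c ((GP n).t x)) • (GD n).vec (dE n x) :=
    eq_neg_of_add_eq_zero_left h1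
  rw [h3]
  refine Submodule.neg_mem _ (Submodule.sum_mem _ fun x hx => ?_)
  rw [Finset.mem_erase] at hx
  by_cases hxb : x ∈ b
  · have h4 : c ((GP n).s x) = c ((GP n).t x) := by
      change (if (GP n).Cn b ((GP n).s e) ((GP n).s x) then (1 : ZMod 2) else 0) =
        if (GP n).Cn b ((GP n).s e) ((GP n).t x) then (1 : ZMod 2) else 0
      by_cases h5 : (GP n).Cn b ((GP n).s e) ((GP n).s x)
      · rw [if_pos h5, if_pos (((GP n).cn_ends hxb _).1 h5)]
      · rw [if_neg h5, if_neg fun h6 => h5 (((GP n).cn_ends hxb _).2 h6)]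
    rw [h4, zmod_self, zero_smul]
    exact Submodule.zero_mem _
  · refine Submodule.smul_mem _ _ (Submodule.subset_span ⟨dE n x, ?_, rfl⟩)
    rw [Finset.mem_coe, mem_du, Finset.mem_insert]
    exact ⟨hx.2, fun h => h.elim hx.1 hxb⟩

/-- One step. -/
theorem step {n : ℕ} (hn : 1 ≤ n) {b : Finset Ed} {e : Ed} (he : e ∈ EP n) (heb : e ∉ b) :
    (GP n).rk (insert e b) + (GD n).rk (du n b) ≤ (GP n).rk b + (GD n).rk (du n (insert e b)) + 1 := by
  rw [(GP n).rk_insert, du_insert he heb, (GD n).rk_insert]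
  by_cases h : (GP n).Cn b ((GP n).s e) ((GP n).t e)
  · rw [if_pos h]
    split_ifs <;> omega
  · rw [if_neg h, if_pos (dual_cn hn he h)]
    omega

theorem card_du {n : ℕ} (b : Finset Ed) (hb : b ⊆ EP n) : (du n b).card + b.card = (EP n).card := by
  unfold du
  rw [Finset.card_image_of_injective _ (dE_inj n)]
  exact Finset.card_sdiff_add_card_eq_card hb

/-- Monotonicity of the rank defect. -/
theorem defect_mono {n : ℕ} (hn : 1 ≤ n) (c : Finset Ed) : ∀ b, c ∪ b ⊆ EP n → Disjoint c b →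
    (GP n).rk (c ∪ b) + (GD n).rk (du n b) ≤ (GP n).rk b + (GD n).rk (du n (c ∪ b)) + c.card := by
  induction c using Finset.induction_on with
  | empty => intro b _ _; rw [Finset.empty_union, Finset.card_empty]; omega
  | insert e c he ih =>
    intro b hb hd
    have heE : e ∈ EP n := hb (Finset.mem_union_left _ (Finset.mem_insert_self e c))
    have heb : e ∉ b := Finset.disjoint_left.1 hd (Finset.mem_insert_self e c)
    have h1 := ih b ((Finset.union_subset_union_left (Finset.subset_insert e c)).trans hb)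
      (hd.mono_left (Finset.subset_insert e c))
    have h2 := step hn (b := c ∪ b) heE (fun h => (Finset.mem_union.1 h).elim he heb)
    rw [Finset.insert_union, Finset.card_insert_of_notMem he]
    omega

/-- The primal spanning tree. -/
noncomputable def TP (n : ℕ) : Finset Ed :=
  insert (e0 n) ((Finset.Icc (-(n : ℤ)) n ×ˢ Finset.Icc (-(n : ℤ) + 1) n).image fun x => ((x, false) : Ed))

theorem mem_TP {n : ℕ} {e : Ed} : e ∈ TP n ↔ e = e0 n ∨ (e.2 = false ∧
    (-(n : ℤ) ≤ e.1.1 ∧ e.1.1 ≤ n) ∧ -(n : ℤ) + 1 ≤ e.1.2 ∧ e.1.2 ≤ n) := by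
  unfold TP
  rw [Finset.mem_insert, Finset.mem_image]
  obtain ⟨⟨x, y⟩, b⟩ := e
  constructor
  · rintro (h | ⟨⟨a, c⟩, h1, h2⟩)
    · exact Or.inl h
    · rw [Finset.mem_product, Finset.mem_Icc, Finset.mem_Icc] at h1
      simp only [Prod.mk.injEq] at h2
      obtain ⟨⟨rfl, rfl⟩, rfl⟩ := h2
      exact Or.inr ⟨rfl, h1⟩
  · rintro (h | ⟨h1, h2⟩)
    · exact Or.inl h
    · right
      dsimp only at h1 h2
      subst h1
      exact ⟨(x, y), by rw [Finset.mem_product, Finset.mem_Icc, Finset.mem_Icc]; exact h2, rfl⟩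

theorem rk_TP {n : ℕ} (hn : 1 ≤ n) : (GP n).rk (TP n) = (TP n).card := by
  refine rk_forest (GP n) (fun x => -x.2) (fun e => pp n e.1) (fun e => pp n (Pool.Agent.Helper49.FL.tip e)) _
    (fun e _ => Or.inl ⟨rfl, rfl⟩) ?_ ?_
  · rintro ⟨⟨x, y⟩, b⟩ h1 ⟨⟨x', y'⟩, b'⟩ h2 h
    rw [mem_TP] at h1 h2
    dsimp only at h1 h2 h
    rcases h1 with h1 | ⟨h1, h1'⟩
    · rcases h2 with h2 | ⟨h2, h2'⟩
      · rw [h1, h2]
      · exfalso
        rw [e0, Prod.mk.injEq, Prod.mk.injEq] at h1
        obtain ⟨⟨rfl, rfl⟩, _⟩ := h1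
        rw [pp_dn (by omega) (by omega), pp_in (mem_Lam'.2 h2'), Prod.mk.injEq] at h
        omega
    · rcases h2 with h2 | ⟨h2, h2'⟩
      · exfalso
        rw [e0, Prod.mk.injEq, Prod.mk.injEq] at h2
        obtain ⟨⟨rfl, rfl⟩, _⟩ := h2
        rw [pp_dn (x := -(n : ℤ) - 1) (by omega) (by omega), pp_in (mem_Lam'.2 h1'), Prod.mk.injEq] at h
        omega
      · rw [pp_in (mem_Lam'.2 h1'), pp_in (mem_Lam'.2 h2')] at h
        rw [h, h1, h2]
  · rintro ⟨⟨x, y⟩, b⟩ h1
    rw [mem_TP] at h1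
    dsimp only at h1 ⊢
    rcases h1 with h1 | ⟨h1, h1'⟩
    · rw [e0, Prod.mk.injEq, Prod.mk.injEq] at h1
      obtain ⟨⟨rfl, rfl⟩, rfl⟩ := h1
      rw [tipL_false, pp_up (x := -(n : ℤ) - 1) (y := 0 + 1) (by omega) (by omega),
        pp_dn (x := -(n : ℤ) - 1) (y := 0) (by omega) (by omega)]
      dsimp only; omega
    · subst h1
      rw [tipL_false, pp_in (x := (x, y)) (mem_Lam'.2 h1')]
      by_cases hy : y + 1 ≤ n
      · rw [pp_in (mem_Lam'.2 ⟨h1'.1, by dsimp only; omega, hy⟩)]
        dsimp only; omega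
      · rw [pp_up (by omega) (by omega)]
        dsimp only; omega

theorem TP_sub {n : ℕ} (hn : 1 ≤ n) : TP n ⊆ EP n := by
  intro e he
  rw [mem_TP] at he
  rw [EP, Finset.mem_insert]
  rcases he with he | ⟨h1, h2⟩
  · exact Or.inl he
  · right
    obtain ⟨⟨x, y⟩, b⟩ := e
    dsimp only at h1 h2
    subst h1
    rw [mem_eL_false]; omega

theorem rk_TD {n : ℕ} (hn : 1 ≤ n) : (GD n).rk (du n (TP n)) = (du n (TP n)).card := by
  have hmem : ∀ e : Ed, dE n e ∈ du n (TP n) → (e.2 = true ∧ (-(n : ℤ) - 1 ≤ e.1.1 ∧ e.1.1 ≤ n) ∧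
      -(n : ℤ) + 1 ≤ e.1.2 ∧ e.1.2 ≤ n) ∨ (e.2 = false ∧ (-(n : ℤ) ≤ e.1.1 ∧ e.1.1 ≤ n) ∧ e.1.2 = -(n : ℤ)) := by
    rintro ⟨⟨x, y⟩, b⟩ he
    rw [mem_du, mem_TP, EP, Finset.mem_insert] at he
    obtain ⟨h1, h2⟩ := he
    rcases h1 with h1 | h1
    · exact absurd (Or.inl h1) h2
    · cases b
      · right
        rw [mem_eL_false] at h1
        refine ⟨rfl, h1.1, ?_⟩
        by_contra h3
        exact h2 (Or.inr ⟨rfl, h1.1, by dsimp only at h3 ⊢; omega, h1.2.2.1⟩)
      · left
        rw [mem_eL_true] at h1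
        exact ⟨rfl, h1⟩
  refine rk_forest (GD n) (fun x => x.1 + x.2) (fun f => pd n (Pool.Helper49.FK.tip f)) (fun f => pd n f.1) _
    (fun e _ => Or.inr ⟨rfl, rfl⟩) ?_ ?_
  · intro f hf f' hf' h
    obtain ⟨⟨⟨x, y⟩, b⟩, rfl⟩ := dE_surj (n := n) f
    obtain ⟨⟨⟨x', y'⟩, b'⟩, rfl⟩ := dE_surj (n := n) f'
    have h1 := hmem _ hf
    have h2 := hmem _ hf'
    dsimp only at h1 h2
    congr 1
    rcases h1 with ⟨rfl, h1⟩ | ⟨rfl, h1⟩ <;> rcases h2 with ⟨rfl, h2⟩ | ⟨rfl, h2⟩
    · rw [dE_true, dE_true, tip_false, tip_false] at h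
      unfold pd at h
      rw [if_neg (by rw [Prod.mk.injEq]; omega), if_neg (by rw [Prod.mk.injEq]; omega), Prod.mk.injEq] at h
      have hx : x = x' := by omega
      have hy : y = y' := by omega
      rw [hx, hy]
    · exfalso
      rw [dE_true, dE_false, tip_false, tip_true] at h
      unfold pd at h
      rw [if_neg (by rw [Prod.mk.injEq]; omega), if_neg (by rw [Prod.mk.injEq]; omega), Prod.mk.injEq] at h
      omega
    · exfalso
      rw [dE_true, dE_false, tip_false, tip_true] at h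
      unfold pd at h
      rw [if_neg (by rw [Prod.mk.injEq]; omega), if_neg (by rw [Prod.mk.injEq]; omega), Prod.mk.injEq] at h
      omega
    · rw [dE_false, dE_false, tip_true, tip_true] at h
      unfold pd at h
      rw [if_neg (by rw [Prod.mk.injEq]; omega), if_neg (by rw [Prod.mk.injEq]; omega), Prod.mk.injEq] at h
      have hx : x = x' := by omega
      have hy : y = y' := by omega
      rw [hx, hy]
  · intro f hf
    obtain ⟨⟨⟨x, y⟩, b⟩, rfl⟩ := dE_surj (n := n) f
    have h1 := hmem _ hf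
    dsimp only at h1
    rcases h1 with ⟨rfl, h1⟩ | ⟨rfl, h1⟩
    · rw [dE_true, tip_false]
      unfold pd
      rw [if_neg (by rw [Prod.mk.injEq]; omega), if_neg (by rw [Prod.mk.injEq]; omega)]
      dsimp only; omega
    · rw [dE_false, tip_true]
      unfold pd
      rw [if_neg (by rw [Prod.mk.injEq]; omega), if_neg (by rw [Prod.mk.injEq]; omega)]
      dsimp only; omega

theorem du_anti {n : ℕ} {b c : Finset Ed} (h : b ⊆ c) : du n c ⊆ du n b := by
  intro f hf
  obtain ⟨e, rfl⟩ := dE_surj (n := n) f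
  rw [mem_du] at hf ⊢
  exact ⟨hf.1, fun h' => hf.2 (h h')⟩

/-- Duality of the ranks. -/
theorem rk_dual {n : ℕ} (hn : 1 ≤ n) {b : Finset Ed} (hb : b ⊆ EP n) :
    (GP n).rk b + (EP n).card = b.card + (GD n).rk (du n b) + (GP n).rk (EP n) ∧
      (GP n).rk (EP n) + (GD n).rk (du n ∅) = (EP n).card := by
  have h1 := defect_mono hn b ∅ (by rwa [Finset.union_empty]) (Finset.disjoint_empty_right b)
  have h2 := defect_mono hn (EP n \ b) b (by rw [Finset.sdiff_union_of_subset hb]) Finset.sdiff_disjoint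
  rw [Finset.union_empty, (GP n).rk_empty] at h1
  rw [Finset.sdiff_union_of_subset hb] at h2
  have e1 : du n (EP n) = ∅ := by unfold du; rw [Finset.sdiff_self, Finset.image_empty]
  rw [e1, (GD n).rk_empty] at h2
  have h3 := Finset.card_sdiff_add_card_eq_card hb
  have h4 := rk_TP hn
  have h5 := rk_TD hn
  have h6 := rk_mono (GP n) (TP_sub hn)
  have h7 := rk_mono (GD n) (du_anti (n := n) (Finset.empty_subset (TP n)))
  have h8 := card_du (TP n) (TP_sub hn)
  have h9 := card_du (n := n) ∅ (Finset.empty_subset _)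
  rw [Finset.card_empty] at h9
  constructor <;> omega

/-- The two boundary vertices are joined in the primal configuration if and only if the two ends of the defect row
are not joined in the dual one. -/
theorem joined_iff {n : ℕ} (hn : 1 ≤ n) {b : Finset Ed} (hb : b ⊆ Pool.Agent.Helper49.FL.edges (Lam n)) :
    (GP n).Cn b ((GP n).s (e0 n)) ((GP n).t (e0 n)) ↔
      ¬ (GD n).Cn (du n (insert (e0 n) b)) ((GD n).s (dE n (e0 n))) ((GD n).t (dE n (e0 n))) := by
  have he : e0 n ∈ EP n := Finset.mem_insert_self _ _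
  have heb : e0 n ∉ b := fun h => e0_notMem n (hb h)
  have hb' : b ⊆ EP n := hb.trans (Finset.subset_insert _ _)
  have h1 := (rk_dual hn hb').1
  have h2 := (rk_dual hn (Finset.insert_subset he hb')).1
  rw [(GP n).rk_insert, Finset.card_insert_of_notMem heb] at h2
  rw [du_insert he heb, (GD n).rk_insert] at h1
  constructor
  · intro h h'
    rw [if_pos h] at h2
    rw [if_pos h'] at h1
    omega
  · intro h
    by_contra h'
    rw [if_neg h'] at h2
    rw [if_neg h] at h1
    omega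

end Pool.Agent.Helper13.OZ
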