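import Pool.Agent.Helper13.OZ.Pd2

/-!
Planar duality for the Dobrushin box in the coordinates of the dual rectangle; the number of colourings.
-/

open Finset hiding box
open scoped Classical

namespace Pool.Agent.Helper13.OZ

open Pool.Agent.Helper49.QP (Dn Rn dE glue dob Conf)
open Pool.Agent.Helper49.FL (Lam)

theorem vecD {n : ℕ} {f : Ed} (hf : f ∈ Pool.Helper49.FK.edges (Dn n)) : (GD n).vec f = sq.vec f := by
  rw [mem_edges, mem_Dn, mem_Dn] at hf
  have h1 : pd n f.1 = f.1 := by
    unfold pd; rw [if_neg]; intro h; rw [h] at hf; dsimp only at hf; omega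
  have h2 : pd n (Pool.Helper49.FK.tip f) = Pool.Helper49.FK.tip f := by
    unfold pd; rw [if_neg]; intro h; rw [h] at hf; dsimp only at hf; omega
  change Finsupp.single (pd n f.1) 1 + Finsupp.single (pd n (Pool.Helper49.FK.tip f)) 1 = _
  rw [h1, h2]
  rfl

theorem imageD {n : ℕ} {a : Finset Ed} (ha : a ⊆ Pool.Helper49.FK.edges (Dn n)) :
    (GD n).vec '' (a : Set Ed) = sq.vec '' (a : Set Ed) :=
  Set.image_congr fun f hf => vecD (ha hf)

theorem rkD {n : ℕ} {a : Finset Ed} (ha : a ⊆ Pool.Helper49.FK.edges (Dn n)) : (GD n).rk a = sq.rk a := by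
  unfold Gr.rk; rw [imageD ha]

theorem cnD {n : ℕ} {a : Finset Ed} (ha : a ⊆ Pool.Helper49.FK.edges (Dn n)) (x y : ℤ × ℤ) :
    (GD n).Cn a x y ↔ sq.Cn a x y := by
  rw [← (GD n).mem_span_iff, ← sq.mem_span_iff, imageD ha]

/-- The dual configuration inside the rectangle. -/
noncomputable def dua (n : ℕ) (b : Finset Ed) : Finset Ed := (Pool.Agent.Helper49.FL.edges (Lam n) \ b).image (dE n)

theorem dua_sub {n : ℕ} (hn : 1 ≤ n) (b : Finset Ed) : dua n b ⊆ Pool.Helper49.FK.edges (Dn n) := by
  rw [← image_edges hn]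
  exact Finset.image_subset_image Finset.sdiff_subset

theorem mem_dua {n : ℕ} {b : Finset Ed} {e : Ed} :
    dE n e ∈ dua n b ↔ e ∈ Pool.Agent.Helper49.FL.edges (Lam n) ∧ e ∉ b := by
  unfold dua
  rw [Finset.mem_image]
  constructor
  · rintro ⟨e', he', h⟩
    rw [dE_inj n h] at he'
    exact Finset.mem_sdiff.1 he'
  · intro h; exact ⟨e, Finset.mem_sdiff.2 h, rfl⟩

theorem du_e0 {n : ℕ} (b : Finset Ed) : du n (insert (e0 n) b) = dua n b := by
  ext f
  obtain ⟨e, rfl⟩ := dE_surj (n := n) f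
  rw [mem_du, mem_dua, EP, Finset.mem_insert, Finset.mem_insert]
  constructor
  · rintro ⟨h1 | h1, h2⟩
    · exact absurd (Or.inl h1) h2
    · exact ⟨h1, fun h => h2 (Or.inr h)⟩
  · rintro ⟨h1, h2⟩
    refine ⟨Or.inr h1, fun h => h.elim (fun h' => ?_) h2⟩
    rw [h'] at h1
    exact e0_notMem n h1

/-- The top boundary vertex. -/
def vt (n : ℕ) : ℤ × ℤ := (0, (n : ℤ) + 1)

/-- The bottom boundary vertex. -/
def vb (n : ℕ) : ℤ × ℤ := (0, -(n : ℤ))

theorem s_e0 (n : ℕ) : (GP n).s (e0 n) = vb n := pp_dn (x := -(n : ℤ) - 1) (y := 0) (by omega) (by omega)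

theorem t_e0 (n : ℕ) : (GP n).t (e0 n) = vt n := by
  change pp n (Pool.Agent.Helper49.FL.tip ((-(n : ℤ) - 1, 0), false)) = _
  rw [tipL_false]
  exact pp_up (x := -(n : ℤ) - 1) (y := 0 + 1) (by omega) (by omega)

theorem sD_e0 (n : ℕ) : (GD n).s (dE n (e0 n)) = Rn n := by
  rw [dE_e0]
  change pd n (-1, 0) = _
  unfold pd
  rw [if_pos rfl]

theorem tD_e0 (n : ℕ) : (GD n).t (dE n (e0 n)) = (0, 0) := by
  rw [dE_e0]
  change pd n (Pool.Helper49.FK.tip ((-1, 0), true)) = _
  rw [tip_true]
  unfold pd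
  rw [if_neg]
  · rfl
  · simp

/-- Duality of the connections. -/
theorem sep_iff {n : ℕ} (hn : 1 ≤ n) {b : Finset Ed} (hb : b ⊆ Pool.Agent.Helper49.FL.edges (Lam n)) :
    ¬ (GP n).Cn b (vt n) (vb n) ↔ Pool.Helper49.FK.Conn (dua n b) (0, 0) (Rn n) := by
  have h := joined_iff hn hb
  rw [s_e0, t_e0, sD_e0, tD_e0, du_e0, cnD (dua_sub hn b)] at h
  rw [conn_iff]
  constructor
  · intro h1
    by_contra h2
    exact h1 ((GP n).cn_symm (h.2 fun h3 => h2 (sq.cn_symm h3)))
  · intro h1 h2
    exact h.1 ((GP n).cn_symm h2) (sq.cn_symm h1)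

/-- Duality of the ranks. -/
theorem rk_sep {n : ℕ} (hn : 1 ≤ n) {b : Finset Ed} (hb : b ⊆ Pool.Agent.Helper49.FL.edges (Lam n))
    (h : Pool.Helper49.FK.Conn (dua n b) (0, 0) (Rn n)) :
    (GP n).rk b + (Pool.Agent.Helper49.FL.edges (Lam n)).card + 1 =
      b.card + sq.rk (dua n b) + (GP n).rk (EP n) := by
  have he : e0 n ∈ EP n := Finset.mem_insert_self _ _
  have heb : e0 n ∉ b := fun h => e0_notMem n (hb h)
  have hb' : b ⊆ EP n := hb.trans (Finset.subset_insert _ _)
  have h1 := (rk_dual hn hb').1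
  have h2 : (EP n).card = (Pool.Agent.Helper49.FL.edges (Lam n)).card + 1 := by
    rw [EP, Finset.card_insert_of_notMem (e0_notMem n)]
  rw [conn_iff] at h
  rw [du_insert he heb, (GD n).rk_insert, du_e0, sD_e0, tD_e0, if_pos ((cnD (dua_sub hn b) _ _).2 (sq.cn_symm h)),
    rkD (dua_sub hn b)] at h1
  omega

/-! ### Colourings -/

variable {k : ℕ}

/-- The colours of the vertices of the primal graph. -/
noncomputable def tau (n : ℕ) (σ : Lam n → Fin (k + 2)) (x : ℤ × ℤ) : Fin (k + 2) :=
  if h : x ∈ Lam n then σ ⟨x, h⟩ else if x = vt n then 0 else 1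

theorem vt_notMem (n : ℕ) : vt n ∉ Lam n := by
  rw [mem_Lam']; unfold vt; dsimp only; omega

theorem vb_notMem (n : ℕ) : vb n ∉ Lam n := by
  rw [mem_Lam']; unfold vb; dsimp only; omega

theorem vt_ne_vb (n : ℕ) : vt n ≠ vb n := by
  unfold vt vb
  rw [Ne, Prod.mk.injEq]; omega

theorem glue_eq (n : ℕ) (σ : Lam n → Fin (k + 2)) (x : ℤ × ℤ) :
    glue (Lam n) dob σ x = tau n σ (pp n x) := by
  unfold glue tau
  by_cases h : x ∈ Lam n
  · rw [dif_pos h]
    simp only [pp_in h, dif_pos h]
  · rw [dif_neg h]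
    by_cases h1 : 1 ≤ x.2
    · have : pp n x = vt n := by unfold pp; rw [if_neg h, if_pos h1]; rfl
      rw [this, dif_neg (vt_notMem n), if_pos rfl]
      unfold dob; rw [if_pos h1]
    · have : pp n x = vb n := by unfold pp; rw [if_neg h, if_neg h1]; rfl
      rw [this, dif_neg (vb_notMem n), if_neg (vt_ne_vb n).symm]
      unfold dob; rw [if_neg h1]

theorem pp_cases (n : ℕ) (x : ℤ × ℤ) : pp n x ∈ Lam n ∨ pp n x = vt n ∨ pp n x = vb n := by
  by_cases h : x ∈ Lam n
  · left; rw [pp_in h]; exact h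
  · right
    unfold pp
    rw [if_neg h]
    split_ifs
    · exact Or.inl rfl
    · exact Or.inr rfl

/-- The colourings which are constant along the edges of `b`. -/
noncomputable def col (k n : ℕ) (b : Finset Ed) : Finset (Lam n → Fin (k + 2)) :=
  Finset.univ.filter fun σ => ∀ e ∈ b, tau n σ ((GP n).s e) = tau n σ ((GP n).t e)

theorem mem_col {n : ℕ} {b : Finset Ed} {σ : Lam n → Fin (k + 2)} :
    σ ∈ col k n b ↔ ∀ e ∈ b, tau n σ ((GP n).s e) = tau n σ ((GP n).t e) := by
  unfold col; rw [Finset.mem_filter]; simp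

/-- No colouring if the two boundary vertices are joined. -/
theorem col_empty {n : ℕ} {b : Finset Ed} (h : (GP n).Cn b (vt n) (vb n)) : col k n b = ∅ := by
  rw [Finset.eq_empty_iff_forall_notMem]
  intro σ hσ
  rw [mem_col] at hσ
  have := (GP n).cn_inv h (tau n σ) hσ
  unfold tau at this
  rw [dif_neg (vt_notMem n), dif_neg (vb_notMem n), if_pos rfl, if_neg (vt_ne_vb n).symm] at this
  exact absurd this (by
    intro h
    have := congrArg Fin.val h
    simp at this)

/-- Shift of the colours of the cluster of `x` by `c`. -/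
noncomputable def shf (n : ℕ) (b : Finset Ed) (x : ℤ × ℤ) (c : Fin (k + 2)) (σ : Lam n → Fin (k + 2)) :
    Lam n → Fin (k + 2) :=
  fun v => if (GP n).Cn b x v then σ v + c else σ v

/-- The step of the count: an edge which joins two clusters, the one of `x` does not contain boundary vertices. -/
theorem col_step {n : ℕ} {b : Finset Ed} {e : Ed} {x x' : ℤ × ℤ}
    (hx : (x = (GP n).s e ∧ x' = (GP n).t e) ∨ (x = (GP n).t e ∧ x' = (GP n).s e))
    (h : ¬ (GP n).Cn b x x') (ht : ¬ (GP n).Cn b x (vt n)) (hb : ¬ (GP n).Cn b x (vb n)) :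
    (col k n b).card = (k + 2) * (col k n (insert e b)).card := by
  -- the vertices of the cluster are in the box
  have hin : ∀ y, (GP n).Cn b x y → y ∈ Lam n := by
    intro y hy
    have h1 : y ∈ Lam n ∨ y = vt n ∨ y = vb n := by
      rcases (GP n).cn_vs hy with h2 | h2
      · rw [← h2]
        rcases hx with ⟨h3, _⟩ | ⟨h3, _⟩ <;> rw [h3] <;> exact pp_cases n _
      · obtain ⟨f, _, h3 | h3⟩ := h2.2 <;> rw [← h3] <;> exact pp_cases n _
    rcases h1 with h1 | h1 | h1
    · exact h1
    · exact absurd (h1 ▸ hy) ht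
    · exact absurd (h1 ▸ hy) hb
  have tsh : ∀ (c : Fin (k + 2)) (σ : Lam n → Fin (k + 2)) (y : ℤ × ℤ),
      tau n (shf n b x c σ) y = if (GP n).Cn b x y then tau n σ y + c else tau n σ y := by
    intro c σ y
    unfold tau shf
    by_cases hy : y ∈ Lam n
    · simp only [dif_pos hy]
    · rw [dif_neg hy, dif_neg hy, if_neg fun h' => hy (hin y h')]
  have hcol : ∀ (c : Fin (k + 2)) (σ : Lam n → Fin (k + 2)), σ ∈ col k n b → shf n b x c σ ∈ col k n b := by
    intro c σ hσ
    rw [mem_col] at hσ ⊢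
    intro f hf
    rw [tsh, tsh, hσ f hf]
    by_cases h1 : (GP n).Cn b x ((GP n).s f)
    · rw [if_pos h1, if_pos (((GP n).cn_ends hf x).1 h1)]
    · rw [if_neg h1, if_neg fun h2 => h1 (((GP n).cn_ends hf x).2 h2)]
  have hinv : ∀ (c : Fin (k + 2)) (σ : Lam n → Fin (k + 2)), shf n b x (-c) (shf n b x c σ) = σ := by
    intro c σ
    funext v
    unfold shf
    split_ifs
    · rw [add_neg_cancel_right]
    · rfl
  have hins : ∀ σ : Lam n → Fin (k + 2), σ ∈ col k n (insert e b) ↔ σ ∈ col k n b ∧ tau n σ x' = tau n σ x := by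
    intro σ
    rw [mem_col, mem_col]
    constructor
    · intro h1
      refine ⟨fun f hf => h1 f (Finset.mem_insert_of_mem hf), ?_⟩
      have := h1 e (Finset.mem_insert_self e b)
      rcases hx with ⟨h2, h3⟩ | ⟨h2, h3⟩
      · rw [h2, h3]; exact this.symm
      · rw [h2, h3]; exact this
    · rintro ⟨h1, h2⟩ f hf
      rcases Finset.mem_insert.1 hf with rfl | hf
      · rcases hx with ⟨h3, h4⟩ | ⟨h3, h4⟩
        · rw [← h3, ← h4]; exact h2.symm
        · rw [← h3, ← h4]; exact h2
      · exact h1 f hf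
  rw [Finset.card_eq_sum_card_fiberwise (f := fun σ => tau n σ x' - tau n σ x) (t := Finset.univ)
    (fun σ _ => Finset.mem_univ _)]
  have hfib : ∀ c : Fin (k + 2), ((col k n b).filter fun σ => tau n σ x' - tau n σ x = c).card =
      (col k n (insert e b)).card := by
    intro c
    refine Finset.card_bij' (fun σ _ => shf n b x c σ) (fun σ _ => shf n b x (-c) σ) ?_ ?_ ?_ ?_
    · intro σ hσ
      rw [Finset.mem_filter] at hσ
      rw [hins]
      refine ⟨hcol c σ hσ.1, ?_⟩
      rw [tsh, tsh, if_neg h, if_pos ((GP n).cn_refl _ _), ← hσ.2]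
      abel
    · intro σ hσ
      rw [hins] at hσ
      rw [Finset.mem_filter]
      refine ⟨hcol (-c) σ hσ.1, ?_⟩
      rw [tsh, tsh, if_neg h, if_pos ((GP n).cn_refl _ _), hσ.2]
      abel
    · intro σ _; exact hinv c σ
    · intro σ _
      have := hinv (-c) σ
      rwa [neg_neg] at this
  rw [Finset.sum_congr rfl fun c _ => hfib c, Finset.sum_const, Finset.card_univ, Fintype.card_fin, smul_eq_mul]

/-- The number of colourings. -/
theorem col_card {n : ℕ} (b : Finset Ed) (h : ¬ (GP n).Cn b (vt n) (vb n)) :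
    (col k n b).card * (k + 2) ^ (GP n).rk b = (k + 2) ^ (Lam n).card := by
  induction b using Finset.induction_on with
  | empty =>
    rw [(GP n).rk_empty, pow_zero, mul_one]
    have : col k n ∅ = Finset.univ := by
      ext σ; rw [mem_col]; simp
    rw [this, Finset.card_univ, Fintype.card_fun, Fintype.card_fin, Fintype.card_coe]
  | insert e b _ ih =>
    have hsub : b ⊆ insert e b := Finset.subset_insert e b
    have ih' := ih fun h' => h ((GP n).cn_mono hsub h')
    rw [(GP n).rk_insert]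
    by_cases hc : (GP n).Cn b ((GP n).s e) ((GP n).t e)
    · rw [if_pos hc, add_zero, ← ih']
      congr 2
      ext σ
      rw [mem_col, mem_col]
      constructor
      · intro h1 f hf; exact h1 f (hsub hf)
      · intro h1 f hf
        rcases Finset.mem_insert.1 hf with rfl | hf
        · exact (GP n).cn_inv hc (tau n σ) h1
        · exact h1 f hf
    · rw [if_neg hc, pow_succ, ← ih']
      have key : (col k n b).card = (k + 2) * (col k n (insert e b)).card := by
        have hedge : (GP n).Cn (insert e b) ((GP n).s e) ((GP n).t e) := (GP n).cn_edge (Finset.mem_insert_self e b)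
        by_cases h1 : (GP n).Cn b ((GP n).s e) (vt n) ∨ (GP n).Cn b ((GP n).s e) (vb n)
        · -- then the cluster of the other end contains no boundary vertex
          refine col_step (x := (GP n).t e) (x' := (GP n).s e) (Or.inr ⟨rfl, rfl⟩)
            (fun h2 => hc ((GP n).cn_symm h2)) ?_ ?_
          · intro h2
            rcases h1 with h1 | h1
            · exact hc ((GP n).cn_trans h1 ((GP n).cn_symm h2))
            · exact h ((GP n).cn_trans ((GP n).cn_symm ((GP n).cn_mono hsub h2))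
                ((GP n).cn_trans ((GP n).cn_symm hedge) ((GP n).cn_mono hsub h1)))
          · intro h2
            rcases h1 with h1 | h1
            · exact h ((GP n).cn_trans ((GP n).cn_symm ((GP n).cn_mono hsub h1))
                ((GP n).cn_trans hedge ((GP n).cn_mono hsub h2)))
            · exact hc ((GP n).cn_trans h1 ((GP n).cn_symm h2))
        · push Not at h1
          exact col_step (x := (GP n).s e) (x' := (GP n).t e) (Or.inl ⟨rfl, rfl⟩) hc h1.1 h1.2
      rw [key]
      ring

end Pool.Agent.Helper13.OZ
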