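import Pool.Agent.Helper13.OZ.Thin

/-!
Infinite volume: the probability `Psi S` that the finite set `S` is isolated, its conditional versions, and the
decay of the memory.
-/

open Finset Filter
open scoped Classical

namespace Pool.Agent.Helper13.OZ.Gr

variable {V E : Type} [DecidableEq E] (G : Gr V E) {q : ℝ} {r r' : E → ℝ} {D D' : Finset E} {S S' T : Set V}

/-- Adding one edge. -/
theorem Z_insert_le (hq : 1 ≤ q) {e : E} (hr : ∀ f, 0 ≤ r f) :
    G.Z q r (insert e D) ≤ (1 + r e) * G.Z q r D := by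
  have hq0 : 0 < q := one_pos.trans_le hq
  by_cases he : e ∈ D
  · rw [Finset.insert_eq_of_mem he]
    have := (G.Z_pos q r hq0 (D := D) fun e _ => hr e).le
    nlinarith [hr e, mul_nonneg (hr e) this]
  · unfold Z
    rw [Finset.sum_powerset_insert he, add_mul, one_mul, Finset.mul_sum]
    refine add_le_add le_rfl (Finset.sum_le_sum fun a ha => ?_)
    have hea : e ∉ a := fun h => he (Finset.mem_powerset.1 ha h)
    rw [G.w_insert q r hq0 hea, mul_left_comm]
    refine mul_le_mul_of_nonneg_left ?_ (hr e)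
    have hw := G.w_nonneg q r hq0.le (ω := a) fun f _ => hr f
    calc G.w q r a * (if G.Cn a (G.s e) (G.t e) then 1 else q⁻¹) ≤ G.w q r a * 1 := by
          refine mul_le_mul_of_nonneg_left ?_ hw
          split_ifs
          · exact le_refl _
          · exact inv_le_one_of_one_le₀ hq
      _ = G.w q r a := mul_one _

theorem Z_union_le (hq : 1 ≤ q) (hr : ∀ f, 0 ≤ r f) (N : Finset E) :
    G.Z q r (N ∪ D) ≤ (∏ e ∈ N, (1 + r e)) * G.Z q r D := by
  induction N using Finset.induction_on with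
  | empty => rw [Finset.empty_union, Finset.prod_empty, one_mul]
  | insert e N he ih =>
    rw [Finset.insert_union, Finset.prod_insert he]
    calc _ ≤ _ := G.Z_insert_le hq hr
      _ ≤ (1 + r e) * ((∏ e ∈ N, (1 + r e)) * G.Z q r D) :=
          mul_le_mul_of_nonneg_left ih (by linarith [hr e])
      _ = _ := by ring

/-- Isolation has a positive probability, uniformly in the domain. -/
theorem pr_iso_ge (hq : 1 ≤ q) (hr : ∀ f, 0 ≤ r f) {N : Finset E} (hN : ∀ e, e ∉ N → G.s e ∉ S ∧ G.t e ∉ S) :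
    (∏ e ∈ N, (1 + r e))⁻¹ ≤ G.pr q r D (G.Iso S) := by
  have hq0 : 0 < q := one_pos.trans_le hq
  have hZ := G.Z_pos q r hq0 (D := D) fun e _ => hr e
  have hZ' := G.Z_pos q r hq0 (D := G.del D S) fun e _ => hr e
  have hp : 0 < ∏ e ∈ N, (1 + r e) := Finset.prod_pos fun e _ => by linarith [hr e]
  rw [pr_iso, inv_eq_one_div, div_le_div_iff₀ hp hZ, one_mul]
  have h1 : D ⊆ N ∪ G.del D S := by
    intro e he
    by_cases h : e ∈ N
    · exact Finset.mem_union_left _ h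
    · exact Finset.mem_union_right _ ((G.mem_del).2 ⟨he, hN e h⟩)
  have h2 : G.Z q r D ≤ G.Z q r (N ∪ G.del D S) := by
    unfold Z
    exact Finset.sum_le_sum_of_subset_of_nonneg (Finset.powerset_mono.2 h1)
      fun a _ _ => G.w_nonneg q r hq0.le fun f _ => hr f
  calc _ ≤ _ := h2
    _ ≤ _ := G.Z_union_le hq hr N
    _ = _ := mul_comm _ _

/-- Infinite volume probability that `S` is isolated. -/
noncomputable def Psi (q : ℝ) (r : E → ℝ) (S : Set V) : ℝ := ⨅ D : Finset E, G.pr q r D (G.Iso S)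

theorem psi_le (hq : 1 ≤ q) (hr : ∀ f, 0 ≤ r f) (D : Finset E) : G.Psi q r S ≤ G.pr q r D (G.Iso S) :=
  ciInf_le ⟨0, by rintro x ⟨D, rfl⟩; exact G.pr_nonneg (one_pos.trans_le hq) (fun e _ => hr e) _⟩ D

theorem iso_antitone (hq : 1 ≤ q) (hr : ∀ f, 0 ≤ r f) : Antitone fun D : Finset E => G.pr q r D (G.Iso S) :=
  fun _ _ h => G.pr_anti_D hq h (fun e _ => hr e) (fun _ _ => le_rfl) (fun e _ => hr e)
    fun _ _ hab h' => G.iso_anti hab h'

theorem psi_tendsto (hq : 1 ≤ q) (hr : ∀ f, 0 ≤ r f) :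
    Tendsto (fun D : Finset E => G.pr q r D (G.Iso S)) atTop (nhds (G.Psi q r S)) :=
  tendsto_atTop_ciInf (G.iso_antitone hq hr)
    ⟨0, by rintro x ⟨D, rfl⟩; exact G.pr_nonneg (one_pos.trans_le hq) (fun e _ => hr e) _⟩

theorem psi_ge (hq : 1 ≤ q) (hr : ∀ f, 0 ≤ r f) {N : Finset E} (hN : ∀ e, e ∉ N → G.s e ∉ S ∧ G.t e ∉ S) :
    (∏ e ∈ N, (1 + r e))⁻¹ ≤ G.Psi q r S :=
  le_ciInf fun D => G.pr_iso_ge hq hr hN (D := D)

theorem psi_le_one (hq : 1 ≤ q) (hr : ∀ f, 0 ≤ r f) : G.Psi q r S ≤ 1 :=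
  (G.psi_le hq hr ∅).trans (G.pr_le_one (one_pos.trans_le hq) (fun e _ => hr e) _)

/-- Only finitely many edges touch `S`. -/
def FinSet (S : Set V) : Prop := ∃ N : Finset E, ∀ e, e ∉ N → G.s e ∉ S ∧ G.t e ∉ S

theorem finSet_union (h : G.FinSet S) (h' : G.FinSet T) : G.FinSet (S ∪ T) := by
  obtain ⟨N, hN⟩ := h
  obtain ⟨M, hM⟩ := h'
  refine ⟨N ∪ M, fun e he => ?_⟩
  rw [Finset.mem_union, not_or] at he
  exact ⟨fun h => h.elim (hN e he.1).1 (hM e he.2).1, fun h => h.elim (hN e he.1).2 (hM e he.2).2⟩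

theorem psi_pos (hq : 1 ≤ q) (hr : ∀ f, 0 ≤ r f) (hS : G.FinSet S) : 0 < G.Psi q r S := by
  obtain ⟨N, hN⟩ := hS
  refine lt_of_lt_of_le ?_ (G.psi_ge hq hr hN)
  exact inv_pos.2 (Finset.prod_pos fun e _ => by linarith [hr e])

/-- Conditional probability that `T` is isolated given that `S` is isolated, in infinite volume. -/
noncomputable def cg (q : ℝ) (r : E → ℝ) (S T : Set V) : ℝ := G.Psi q r (S ∪ T) / G.Psi q r S

theorem cg_tendsto (hq : 1 ≤ q) (hr : ∀ f, 0 ≤ r f) (hS : G.FinSet S) :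
    Tendsto (fun D : Finset E => G.pr q r (G.del D S) (G.Iso T)) atTop (nhds (G.cg q r S T)) := by
  have hq0 : 0 < q := one_pos.trans_le hq
  have h1 := (G.psi_tendsto (S := S ∪ T) hq hr).div (G.psi_tendsto (S := S) hq hr) (G.psi_pos hq hr hS).ne'
  refine h1.congr fun D => ?_
  have h2 : 0 < G.pr q r D (G.Iso S) := lt_of_lt_of_le (G.psi_pos hq hr hS) (G.psi_le hq hr D)
  change G.pr q r D (G.Iso (S ∪ T)) / G.pr q r D (G.Iso S) = _
  rw [G.pr_iso_union hq0 (fun e _ => hr e), mul_div_cancel_left₀ _ h2.ne']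

theorem cg_mono (hq : 1 ≤ q) (hr : ∀ f, 0 ≤ r f) (hS : G.FinSet S) (hS' : G.FinSet S') (h : S ⊆ S') :
    G.cg q r S T ≤ G.cg q r S' T := by
  refine le_of_tendsto_of_tendsto' (G.cg_tendsto hq hr hS) (G.cg_tendsto hq hr hS') fun D => ?_
  exact G.pr_anti_D hq (G.del_anti h) (fun e _ => hr e) (fun _ _ => le_rfl) (fun e _ => hr e)
    fun _ _ hab h' => G.iso_anti hab h'

theorem cg_pos (hq : 1 ≤ q) (hr : ∀ f, 0 ≤ r f) (hS : G.FinSet S) (hT : G.FinSet T) : 0 < G.cg q r S T :=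
  div_pos (G.psi_pos hq hr (G.finSet_union hS hT)) (G.psi_pos hq hr hS)

theorem cg_le_one (hq : 1 ≤ q) (hr : ∀ f, 0 ≤ r f) (hS : G.FinSet S) : G.cg q r S T ≤ 1 :=
  le_of_tendsto' (G.cg_tendsto hq hr hS) fun D => G.pr_le_one (one_pos.trans_le hq) (fun e _ => hr e) _

theorem cg_empty (hq : 1 ≤ q) (hr : ∀ f, 0 ≤ r f) : G.cg q r ∅ T = G.Psi q r T := by
  unfold cg
  have : G.Psi q r ∅ = 1 := by
    unfold Psi
    have : ∀ D : Finset E, G.pr q r D (G.Iso ∅) = 1 := by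
      intro D
      rw [← G.pr_true (D := D) (r := r) (one_pos.trans_le hq) (fun e _ => hr e)]
      exact G.pr_congr fun a _ => ⟨fun _ => trivial, fun _ e _ => ⟨fun h => h, fun h => h⟩⟩
    simp only [this]
    exact ciInf_const
  rw [Set.empty_union, this, div_one]

/-- The chain rule. -/
theorem psi_union (hq : 1 ≤ q) (hr : ∀ f, 0 ≤ r f) (hS : G.FinSet S) :
    G.Psi q r (S ∪ T) = G.Psi q r S * G.cg q r S T := by
  unfold cg
  rw [mul_div_cancel₀]
  exact (G.psi_pos hq hr hS).ne'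

/-- Union bound for the event that two finite sets are joined. -/
theorem jn_le (hq : 1 ≤ q) (hr : ∀ f, 0 ≤ r f) {τ : V → V → ℝ}
    (hτ : ∀ D x y, G.pr q r D (fun a => G.Cn a x y) ≤ τ x y) (S T : Finset V) :
    G.pr q r D (G.Jn (S : Set V) (T : Set V)) ≤ ∑ x ∈ S, ∑ y ∈ T, τ x y := by
  have hq0 : 0 < q := one_pos.trans_le hq
  have h1 : ∀ a : Finset E, ind (G.Jn (S : Set V) (T : Set V) a) ≤ ∑ x ∈ S, ∑ y ∈ T, ind (G.Cn a x y) := by
    intro a
    by_cases h : G.Jn (S : Set V) (T : Set V) a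
    · obtain ⟨x, hx, y, hy, hc⟩ := h
      have h2 : ∑ y ∈ T, ind (G.Cn a x y) ≤ ∑ x ∈ S, ∑ y ∈ T, ind (G.Cn a x y) :=
        Finset.single_le_sum (f := fun x => ∑ y ∈ T, ind (G.Cn a x y))
          (fun x _ => Finset.sum_nonneg fun y _ => ind_nonneg _) hx
      have h3 : ind (G.Cn a x y) ≤ ∑ y ∈ T, ind (G.Cn a x y) :=
        Finset.single_le_sum (f := fun y => ind (G.Cn a x y)) (fun y _ => ind_nonneg _) hy
      calc _ ≤ (1 : ℝ) := ind_le_one _
        _ = ind (G.Cn a x y) := (ind_pos hc).symm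
        _ ≤ _ := h3.trans h2
    · rw [ind_neg h]
      exact Finset.sum_nonneg fun x _ => Finset.sum_nonneg fun y _ => ind_nonneg _
  have h2 : G.ex q r D (fun a => ∑ x ∈ S, ∑ y ∈ T, ind (G.Cn a x y)) =
      ∑ x ∈ S, ∑ y ∈ T, G.pr q r D (fun a => G.Cn a x y) := by
    unfold pr ex
    simp only [Finset.mul_sum]
    rw [Finset.sum_comm, Finset.sum_div]
    refine Finset.sum_congr rfl fun x _ => ?_
    rw [Finset.sum_comm, Finset.sum_div]
  calc _ ≤ _ := G.ex_mono hq0 (fun e _ => hr e) fun a _ => h1 a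
    _ = _ := h2
    _ ≤ _ := Finset.sum_le_sum fun x _ => Finset.sum_le_sum fun y _ => hτ D x y

/-- Memory decay: adding a set `S'` to the conditioning changes the conditional probability of isolation of `T`
by at most the factor `1 / (1 - ε)`, if `S'` and `T` are joined with probability at most `ε`. -/
theorem cg_memory (hq : 1 ≤ q) (hr : ∀ f, 0 ≤ r f) (hS : G.FinSet S) (hS' : G.FinSet S') {ε : ℝ}
    (hε : ∀ D, G.pr q r D (G.Jn S' T) ≤ ε) :
    (1 - ε) * G.cg q r (S ∪ S') T ≤ G.cg q r S T := by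
  have hq0 : 0 < q := one_pos.trans_le hq
  have h1 := (G.cg_tendsto (T := T) hq hr (G.finSet_union hS hS')).const_mul (1 - ε)
  refine le_of_tendsto_of_tendsto' h1 (G.cg_tendsto hq hr hS) fun D => ?_
  rw [← G.del_del]
  have h2 := G.iso_explore (S := S') (T := T) (D := G.del (G.del D S) S') (D' := G.del D S) (r := r) (r' := r) hq
    (fun e _ => hr e) (fun e _ => hr e) (fun e he h3 h4 => ⟨(G.mem_del).2 ⟨he, h3, h4⟩, rfl⟩)
  refine le_trans ?_ h2
  refine mul_le_mul_of_nonneg_right ?_ (G.pr_nonneg hq0 (fun e _ => hr e) _)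
  rw [G.pr_not hq0 (fun e _ => hr e)]
  linarith [hε (G.del D S)]

/-- Comparison of infinite volume with a finite domain with smaller odds: lower bound. -/
theorem cg_le_pr (hq : 1 ≤ q) (hr : ∀ f, 0 ≤ r f) (hr' : ∀ f, 0 ≤ r' f) (hrr : ∀ f, r' f ≤ r f)
    (hS : G.FinSet S) (D : Finset E) : G.cg q r S T ≤ G.pr q r' (G.del D S) (G.Iso T) := by
  refine le_of_tendsto (G.cg_tendsto hq hr hS) ?_
  filter_upwards [eventually_ge_atTop D] with D' hD'
  exact G.pr_anti_D hq (G.del_mono hD') (fun e _ => hr' e) (fun e _ => hrr e) (fun e _ => hr e)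
    fun _ _ hab h' => G.iso_anti hab h'

/-- Comparison of infinite volume with a finite domain with smaller odds: upper bound. `B` contains an end of every
edge off `D` and of every edge with `r' ≠ r`. -/
theorem pr_le_cg (hq : 1 ≤ q) (hr : ∀ f, 0 ≤ r f) (hr' : ∀ f, 0 ≤ r' f) (hS : G.FinSet S) {B : Set V}
    (hB : ∀ e, G.s e ∉ B → G.t e ∉ B → e ∈ D ∧ r' e = r e) {ε : ℝ}
    (hε : ∀ D, G.pr q r D (G.Jn B T) ≤ ε) :
    (1 - ε) * G.pr q r' (G.del D S) (G.Iso T) ≤ G.cg q r S T := by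
  have hq0 : 0 < q := one_pos.trans_le hq
  refine ge_of_tendsto' (G.cg_tendsto hq hr hS) fun D' => ?_
  have h2 := G.iso_explore (S := B) (T := T) (D := G.del D S) (D' := G.del D' S) (r := r') (r' := r) hq
    (fun e _ => hr' e) (fun e _ => hr e) (fun e he h3 h4 => by
      have h5 := (G.mem_del).1 he
      have h6 := hB e h3 h4
      exact ⟨(G.mem_del).2 ⟨h6.1, h5.2⟩, h6.2.symm⟩)
  refine le_trans ?_ h2
  refine mul_le_mul_of_nonneg_right ?_ (G.pr_nonneg hq0 (fun e _ => hr' e) _)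
  rw [G.pr_not hq0 (fun e _ => hr e)]
  linarith [hε (G.del D' S)]

end Pool.Agent.Helper13.OZ.Gr
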