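import Pool.Agent.Helper13.OZ.Def

/-!
The rank of an edge set.
-/

open Finset
open scoped Classical

namespace Pool.Agent.Helper13.OZ.Gr

variable {V E : Type} [DecidableEq E] (G : Gr V E)

theorem cn_refl (ω : Finset E) (x : V) : G.Cn ω x x := Relation.EqvGen.refl x

theorem cn_symm {ω : Finset E} {x y : V} (h : G.Cn ω x y) : G.Cn ω y x := Relation.EqvGen.symm _ _ h

theorem cn_trans {ω : Finset E} {x y z : V} (h : G.Cn ω x y) (h' : G.Cn ω y z) : G.Cn ω x z :=
  Relation.EqvGen.trans _ _ _ h h'

theorem cn_edge {ω : Finset E} {e : E} (he : e ∈ ω) : G.Cn ω (G.s e) (G.t e) :=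
  Relation.EqvGen.rel _ _ ⟨e, he, rfl, rfl⟩

theorem cn_mono {ω ω' : Finset E} (h : ω ⊆ ω') {x y : V} (hx : G.Cn ω x y) : G.Cn ω' x y := by
  induction hx with
  | rel x y h1 => obtain ⟨e, he, h2⟩ := h1; exact Relation.EqvGen.rel _ _ ⟨e, h he, h2⟩
  | refl x => exact Relation.EqvGen.refl x
  | symm x y _ ih => exact Relation.EqvGen.symm _ _ ih
  | trans x y z _ _ ih1 ih2 => exact Relation.EqvGen.trans _ _ _ ih1 ih2

/-- An invariant of connectivity. -/
theorem cn_inv {ω : Finset E} {x y : V} (h : G.Cn ω x y) {α : Type*} (f : V → α)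
    (hf : ∀ e ∈ ω, f (G.s e) = f (G.t e)) : f x = f y := by
  induction h with
  | rel x y h1 => obtain ⟨e, he, rfl, rfl⟩ := h1; exact hf e he
  | refl x => rfl
  | symm x y _ ih => exact ih.symm
  | trans x y z _ _ ih1 ih2 => exact ih1.trans ih2

/-- The two ends of an edge of `ω` are joined to the same vertices. -/
theorem cn_ends {ω : Finset E} {e : E} (he : e ∈ ω) (x : V) : G.Cn ω x (G.s e) ↔ G.Cn ω x (G.t e) :=
  ⟨fun h => G.cn_trans h (G.cn_edge he), fun h => G.cn_trans h (G.cn_symm (G.cn_edge he))⟩

theorem mem_span_iff (ω : Finset E) (x y : V) :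
    (Finsupp.single x 1 + Finsupp.single y 1 : V →₀ ZMod 2) ∈
      Submodule.span (ZMod 2) (G.vec '' (ω : Set E)) ↔ G.Cn ω x y := by
  constructor
  · intro h
    by_contra hc
    -- the functional which sums the coordinates in the cluster of `x`
    let L : (V →₀ ZMod 2) →ₗ[ZMod 2] ZMod 2 :=
      Finsupp.lsum (ZMod 2) (fun v => if G.Cn ω x v then LinearMap.id else 0)
    have hL : ∀ v a, L (Finsupp.single v a) = if G.Cn ω x v then a else 0 := by
      intro v a
      simp only [L, Finsupp.lsum_single]
      split_ifs <;> rfl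
    have h0 : ∀ z ∈ Submodule.span (ZMod 2) (G.vec '' (ω : Set E)), L z = 0 := by
      intro z hz
      induction hz using Submodule.span_induction with
      | mem z hz =>
        obtain ⟨e, he, rfl⟩ := hz
        rw [vec, map_add, hL, hL]
        by_cases h1 : G.Cn ω x (G.s e)
        · rw [if_pos h1, if_pos ((G.cn_ends he x).1 h1)]; decide
        · rw [if_neg h1, if_neg (fun h2 => h1 ((G.cn_ends he x).2 h2))]; rfl
      | zero => exact map_zero L
      | add a b _ _ ha hb => rw [map_add, ha, hb, add_zero]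
      | smul c a _ ha => rw [map_smul, ha, smul_zero]
    have h1 := h0 _ h
    rw [map_add, hL, hL, if_pos (G.cn_refl ω x), if_neg hc] at h1
    exact absurd h1 (by decide)
  · intro h
    induction h with
    | rel x y h1 =>
      obtain ⟨e, he, rfl, rfl⟩ := h1
      exact Submodule.subset_span ⟨e, he, rfl⟩
    | refl x =>
      have : (Finsupp.single x 1 + Finsupp.single x 1 : V →₀ ZMod 2) = 0 := by
        rw [← Finsupp.single_add]
        have : (1 + 1 : ZMod 2) = 0 := by decide
        rw [this, Finsupp.single_zero]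
      rw [this]; exact Submodule.zero_mem _
    | symm x y _ ih => rw [add_comm]; exact ih
    | trans x y z _ _ ih1 ih2 =>
      have := Submodule.add_mem _ ih1 ih2
      have h2 : (Finsupp.single y 1 + Finsupp.single y 1 : V →₀ ZMod 2) = 0 := by
        rw [← Finsupp.single_add]
        have : (1 + 1 : ZMod 2) = 0 := by decide
        rw [this, Finsupp.single_zero]
      rwa [add_assoc, ← add_assoc (Finsupp.single y 1), h2, zero_add] at this

theorem rk_empty : G.rk ∅ = 0 := by
  unfold rk
  rw [Finset.coe_empty, Set.image_empty, Submodule.span_empty]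
  exact finrank_bot _ _

theorem rk_insert (ω : Finset E) (e : E) :
    G.rk (insert e ω) = G.rk ω + if G.Cn ω (G.s e) (G.t e) then 0 else 1 := by
  unfold rk
  rw [Finset.coe_insert, Set.image_insert_eq, Submodule.span_insert]
  have hf : FiniteDimensional (ZMod 2) (Submodule.span (ZMod 2) (G.vec '' (ω : Set E))) :=
    FiniteDimensional.span_of_finite _ ((ω.finite_toSet).image _)
  have hf1 : FiniteDimensional (ZMod 2) (Submodule.span (ZMod 2) {G.vec e}) :=
    FiniteDimensional.span_of_finite _ (Set.finite_singleton _)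
  have key := Submodule.finrank_sup_add_finrank_inf_eq (Submodule.span (ZMod 2) {G.vec e})
    (Submodule.span (ZMod 2) (G.vec '' (ω : Set E)))
  by_cases h : G.Cn ω (G.s e) (G.t e)
  · rw [if_pos h]
    have hm : G.vec e ∈ Submodule.span (ZMod 2) (G.vec '' (ω : Set E)) := (G.mem_span_iff ω _ _).2 h
    have : Submodule.span (ZMod 2) {G.vec e} ⊔ Submodule.span (ZMod 2) (G.vec '' (ω : Set E)) =
        Submodule.span (ZMod 2) (G.vec '' (ω : Set E)) := by
      rw [sup_eq_right, Submodule.span_singleton_le_iff_mem]; exact hm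
    rw [this, add_zero]
  · rw [if_neg h]
    have hm : G.vec e ∉ Submodule.span (ZMod 2) (G.vec '' (ω : Set E)) :=
      fun h' => h ((G.mem_span_iff ω _ _).1 h')
    have hz : Submodule.span (ZMod 2) {G.vec e} ⊓ Submodule.span (ZMod 2) (G.vec '' (ω : Set E)) = ⊥ := by
      rw [Submodule.eq_bot_iff]
      rintro z ⟨h1, h2⟩
      obtain ⟨a, rfl⟩ := Submodule.mem_span_singleton.1 h1
      by_cases ha : a = 0
      · rw [ha, zero_smul]
      · exfalso; apply hm
        have := Submodule.smul_mem _ a⁻¹ h2
        rwa [smul_smul, inv_mul_cancel₀ ha, one_smul] at this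
    have hne : G.vec e ≠ 0 := fun h0 => hm (h0 ▸ Submodule.zero_mem _)
    rw [hz, finrank_bot, add_zero, finrank_span_singleton hne] at key
    rw [key, add_comm]

end Pool.Agent.Helper13.OZ.Gr
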