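import Pool.Agent.Helper13.OZ.Aut

/-!
The square lattice: symmetries, the two-point function.
-/

open Finset hiding box
open Filter
open scoped Classical

namespace Pool.Agent.Helper13.OZ

open Pool.Helper49.FK (Edge tip edges gr Conn ncl wt box hom dfc PsiI GI clu cle IsClu)

/-- Translation of edges. -/
def shE (v : ℤ × ℤ) : Edge ≃ Edge where
  toFun e := ((e.1.1 + v.1, e.1.2 + v.2), e.2)
  invFun e := ((e.1.1 - v.1, e.1.2 - v.2), e.2)
  left_inv := by rintro ⟨⟨a, b⟩, c⟩; simp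
  right_inv := by rintro ⟨⟨a, b⟩, c⟩; simp

/-- Translation. -/
def sh (v : ℤ × ℤ) : ℤ × ℤ ≃ ℤ × ℤ where
  toFun x := (x.1 + v.1, x.2 + v.2)
  invFun x := (x.1 - v.1, x.2 - v.2)
  left_inv := by rintro ⟨a, b⟩; simp
  right_inv := by rintro ⟨a, b⟩; simp

theorem sh_aut (v : ℤ × ℤ) : sq.IsAut (sh v) (shE v) := by
  rintro ⟨⟨a, b⟩, c⟩
  left
  cases c <;> simp [sq, sh, shE, tip] <;> ring

/-- Reflection `(a, b) ↦ (a, -b)`. -/
def ry : ℤ × ℤ ≃ ℤ × ℤ where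
  toFun x := (x.1, -x.2)
  invFun x := (x.1, -x.2)
  left_inv := by rintro ⟨a, b⟩; simp
  right_inv := by rintro ⟨a, b⟩; simp

/-- Reflection of edges. -/
def ryE : Edge ≃ Edge where
  toFun e := if e.2 = true then ((e.1.1, -e.1.2), true) else ((e.1.1, -e.1.2 - 1), false)
  invFun e := if e.2 = true then ((e.1.1, -e.1.2), true) else ((e.1.1, -e.1.2 - 1), false)
  left_inv := by rintro ⟨⟨a, b⟩, c⟩; cases c <;> simp
  right_inv := by rintro ⟨⟨a, b⟩, c⟩; cases c <;> simp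

theorem ry_aut : sq.IsAut ry ryE := by
  rintro ⟨⟨a, b⟩, c⟩
  cases c
  · right; simp [sq, ry, ryE, tip]; ring
  · left; simp [sq, ry, ryE, tip]

/-- Reflection `(a, b) ↦ (-a, b)`. -/
def rx : ℤ × ℤ ≃ ℤ × ℤ where
  toFun x := (-x.1, x.2)
  invFun x := (-x.1, x.2)
  left_inv := by rintro ⟨a, b⟩; simp
  right_inv := by rintro ⟨a, b⟩; simp

/-- Reflection of edges. -/
def rxE : Edge ≃ Edge where
  toFun e := if e.2 = true then ((-e.1.1 - 1, e.1.2), true) else ((-e.1.1, e.1.2), false)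
  invFun e := if e.2 = true then ((-e.1.1 - 1, e.1.2), true) else ((-e.1.1, e.1.2), false)
  left_inv := by rintro ⟨⟨a, b⟩, c⟩; cases c <;> simp
  right_inv := by rintro ⟨⟨a, b⟩, c⟩; cases c <;> simp

theorem rx_aut : sq.IsAut rx rxE := by
  rintro ⟨⟨a, b⟩, c⟩
  cases c
  · left; simp [sq, rx, rxE, tip]
  · right; simp [sq, rx, rxE, tip]; ring

/-- The swap of the coordinates. -/
def sw : ℤ × ℤ ≃ ℤ × ℤ where
  toFun x := (x.2, x.1)
  invFun x := (x.2, x.1)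
  left_inv := by rintro ⟨a, b⟩; rfl
  right_inv := by rintro ⟨a, b⟩; rfl

/-- The swap of the coordinates, edges. -/
def swE : Edge ≃ Edge where
  toFun e := ((e.1.2, e.1.1), !e.2)
  invFun e := ((e.1.2, e.1.1), !e.2)
  left_inv := by rintro ⟨⟨a, b⟩, c⟩; simp
  right_inv := by rintro ⟨⟨a, b⟩, c⟩; simp

theorem sw_aut : sq.IsAut sw swE := by
  rintro ⟨⟨a, b⟩, c⟩
  left
  cases c <;> simp [sq, sw, swE, tip]

theorem map_edges {f : ℤ × ℤ ≃ ℤ × ℤ} {g : Edge ≃ Edge} (h : sq.IsAut f g) (D : Finset (ℤ × ℤ)) :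
    (edges D).map g.toEmbedding = edges (D.map f.toEmbedding) := by
  have key : ∀ e, g e ∈ edges (D.map f.toEmbedding) ↔ e ∈ edges D := by
    intro e
    rw [mem_edges, mem_edges]
    have h1 : ∀ x, f x ∈ D.map f.toEmbedding ↔ x ∈ D := fun x => by simp
    have h2 : (g e).1 = sq.s (g e) := rfl
    have h3 : tip (g e) = sq.t (g e) := rfl
    rw [h2, h3]
    rcases h e with ⟨h4, h5⟩ | ⟨h4, h5⟩
    · rw [h4, h5, h1, h1]; rfl
    · rw [h4, h5, h1, h1]; exact and_comm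
  ext e
  rw [Finset.mem_map]
  constructor
  · rintro ⟨e', he', rfl⟩; exact (key e').2 he'
  · intro he
    refine ⟨g.symm e, ?_, by simp⟩
    rw [← key, Equiv.apply_symm_apply]; exact he

variable {q : ℝ} {r r' : Edge → ℝ} {D D' : Finset (ℤ × ℤ)}

theorem G_eq (hq : 0 < q) (x y : ℤ × ℤ) :
    Pool.Helper49.FK.G q r D x y = sq.pr q r (edges D) (fun a => sq.Cn a x y) := by
  unfold Pool.Helper49.FK.G
  rw [pr_eq hq]
  exact sq.pr_congr fun a _ => conn_iff a x y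

theorem G_map (hq : 0 < q) {f : ℤ × ℤ ≃ ℤ × ℤ} {g : Edge ≃ Edge} (h : sq.IsAut f g) (ρ : ℝ) (x y : ℤ × ℤ) :
    Pool.Helper49.FK.G q (hom ρ) (D.map f.toEmbedding) (f x) (f y) = Pool.Helper49.FK.G q (hom ρ) D x y := by
  rw [G_eq hq, G_eq hq, ← map_edges h, sq.pr_map h]
  exact sq.pr_congr fun a _ => sq.cn_map h

theorem G_mono (hq : 1 ≤ q) (hr : ∀ e, 0 ≤ r e) (hrr : ∀ e, r e ≤ r' e) (hD : D ⊆ D') (x y : ℤ × ℤ) :
    Pool.Helper49.FK.G q r D x y ≤ Pool.Helper49.FK.G q r' D' x y := by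
  rw [G_eq (one_pos.trans_le hq), G_eq (one_pos.trans_le hq)]
  exact sq.pr_mono_D hq (edges_mono hD) (fun e _ => hr e) (fun e _ => hrr e) (fun e _ => (hr e).trans (hrr e))
    fun a b hab h => sq.cn_mono hab h

theorem G_nonneg (hq : 1 ≤ q) (hr : ∀ e, 0 ≤ r e) (x y : ℤ × ℤ) : 0 ≤ Pool.Helper49.FK.G q r D x y := by
  rw [G_eq (one_pos.trans_le hq)]; exact sq.pr_nonneg (one_pos.trans_le hq) (fun e _ => hr e) _

theorem G_le_one (hq : 1 ≤ q) (hr : ∀ e, 0 ≤ r e) (x y : ℤ × ℤ) : Pool.Helper49.FK.G q r D x y ≤ 1 := by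
  rw [G_eq (one_pos.trans_le hq)]; exact sq.pr_le_one (one_pos.trans_le hq) (fun e _ => hr e) _

theorem G_le_sup (hq : 1 ≤ q) {ρ : ℝ} (h0 : 0 ≤ ρ) (N : ℕ) (x y : ℤ × ℤ) :
    Pool.Helper49.FK.G q (hom ρ) (box N) x y ≤ GI q ρ x y :=
  le_ciSup (f := fun N : ℕ => Pool.Helper49.FK.G q (hom ρ) (box N) x y)
    ⟨1, by rintro z ⟨N, rfl⟩; exact G_le_one hq (fun _ => h0) x y⟩ N

theorem mem_box {N : ℕ} {x : ℤ × ℤ} : x ∈ box N ↔ |x.1| ≤ N ∧ |x.2| ≤ N := by
  unfold box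
  rw [Finset.mem_product, Finset.mem_Icc, Finset.mem_Icc, abs_le, abs_le]

theorem box_mono {N M : ℕ} (h : N ≤ M) : box N ⊆ box M := by
  intro x hx
  rw [mem_box] at hx ⊢
  have : (N : ℤ) ≤ M := by exact_mod_cast h
  exact ⟨hx.1.trans this, hx.2.trans this⟩

/-- Every finite set is contained in a box. -/
theorem sub_box (D : Finset (ℤ × ℤ)) : ∃ N : ℕ, D ⊆ box N := by
  induction D using Finset.induction_on with
  | empty => exact ⟨0, Finset.empty_subset _⟩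
  | insert x D _ ih =>
    obtain ⟨N, hN⟩ := ih
    refine ⟨max N (x.1.natAbs + x.2.natAbs), Finset.insert_subset ?_ (hN.trans (box_mono (le_max_left _ _)))⟩
    rw [mem_box]
    have h1 : ((x.1.natAbs : ℕ) : ℤ) = |x.1| := Int.natCast_natAbs _
    have h2 : ((x.2.natAbs : ℕ) : ℤ) = |x.2| := Int.natCast_natAbs _
    have h3 : ((max N (x.1.natAbs + x.2.natAbs) : ℕ) : ℤ) ≥ |x.1| + |x.2| := by
      have : ((max N (x.1.natAbs + x.2.natAbs) : ℕ) : ℤ) ≥ ((x.1.natAbs + x.2.natAbs : ℕ) : ℤ) := by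
        exact_mod_cast le_max_right _ _
      rw [Nat.cast_add, h1, h2] at this; exact this
    have := abs_nonneg x.1
    have := abs_nonneg x.2
    constructor <;> linarith

/-- Finite volume two-point functions are bounded by the infinite volume one. -/
theorem G_le_GI (hq : 1 ≤ q) {ρ : ℝ} (hr : ∀ e, 0 ≤ r e) (hρ : ∀ e, r e ≤ ρ) (x y : ℤ × ℤ) :
    Pool.Helper49.FK.G q r D x y ≤ GI q ρ (0, 0) (y - x) := by
  have h0 : 0 ≤ ρ := (hr ((0, 0), true)).trans (hρ _)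
  obtain ⟨N, hN⟩ := sub_box (D.map (sh (-x)).toEmbedding)
  have e1 : (sh (-x)) x = (0, 0) := by
    change (x.1 + (-x).1, x.2 + (-x).2) = _
    simp
  have e2 : (sh (-x)) y = y - x := by
    change (y.1 + (-x).1, y.2 + (-x).2) = _
    ext <;> simp <;> ring
  calc Pool.Helper49.FK.G q r D x y ≤ Pool.Helper49.FK.G q (hom ρ) D x y :=
        G_mono hq hr hρ (Finset.Subset.refl _) x y
    _ = Pool.Helper49.FK.G q (hom ρ) (D.map (sh (-x)).toEmbedding) (0, 0) (y - x) := by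
        rw [← e1, ← e2, G_map (one_pos.trans_le hq) (sh_aut (-x))]
    _ ≤ Pool.Helper49.FK.G q (hom ρ) (box N) (0, 0) (y - x) :=
        G_mono hq (fun _ => h0) (fun _ => le_rfl) hN _ _
    _ ≤ _ := G_le_sup hq h0 N _ _

theorem GI_le {ρ c : ℝ} {x y : ℤ × ℤ} (h : ∀ N, Pool.Helper49.FK.G q (hom ρ) (box N) x y ≤ c) : GI q ρ x y ≤ c :=
  ciSup_le h

theorem GI_nonneg (hq : 1 ≤ q) {ρ : ℝ} (h0 : 0 ≤ ρ) (x y : ℤ × ℤ) : 0 ≤ GI q ρ x y :=
  (G_nonneg hq (fun _ => h0) x y).trans (G_le_sup hq h0 0 x y)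

theorem GI_mul (hq : 1 ≤ q) {ρ : ℝ} (h0 : 0 ≤ ρ) (x y : ℤ × ℤ) :
    GI q ρ (0, 0) x * GI q ρ (0, 0) y ≤ GI q ρ (0, 0) (x + y) := by
  have hq0 : 0 < q := one_pos.trans_le hq
  have key : ∀ N M : ℕ, Pool.Helper49.FK.G q (hom ρ) (box N) (0, 0) x *
      Pool.Helper49.FK.G q (hom ρ) (box M) (0, 0) y ≤ GI q ρ (0, 0) (x + y) := by
    intro N M
    obtain ⟨K, hK⟩ := sub_box ((box M).map (sh x).toEmbedding ∪ box N)
    have hK1 := Finset.subset_union_left.trans hK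
    have hK2 := Finset.subset_union_right.trans hK
    have a1 : Pool.Helper49.FK.G q (hom ρ) (box N) (0, 0) x ≤ Pool.Helper49.FK.G q (hom ρ) (box K) (0, 0) x :=
      G_mono hq (fun _ => h0) (fun _ => le_rfl) hK2 _ _
    have a2 : Pool.Helper49.FK.G q (hom ρ) (box M) (0, 0) y ≤ Pool.Helper49.FK.G q (hom ρ) (box K) x (x + y) := by
      have e1 : (sh x) (0, 0) = x := by
        change ((0 : ℤ) + x.1, (0 : ℤ) + x.2) = _
        ext <;> simp
      have e2 : (sh x) y = x + y := by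
        change (y.1 + x.1, y.2 + x.2) = _
        ext <;> simp <;> ring
      calc _ = Pool.Helper49.FK.G q (hom ρ) ((box M).map (sh x).toEmbedding) x (x + y) := by
            have := G_map (D := box M) hq0 (sh_aut x) ρ (0, 0) y
            rw [e1, e2] at this
            exact this.symm
        _ ≤ _ := G_mono hq (fun _ => h0) (fun _ => le_rfl) hK1 _ _
    refine le_trans ?_ (G_le_sup hq h0 K (0, 0) (x + y))
    calc _ ≤ Pool.Helper49.FK.G q (hom ρ) (box K) (0, 0) x * Pool.Helper49.FK.G q (hom ρ) (box K) x (x + y) :=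
          mul_le_mul a1 a2 (G_nonneg hq (fun _ => h0) _ _) (G_nonneg hq (fun _ => h0) _ _)
      _ ≤ sq.ex q (hom ρ) (edges (box K)) (fun a => ind (sq.Cn a (0, 0) x) * ind (sq.Cn a x (x + y))) := by
          rw [G_eq hq0, G_eq hq0]
          exact sq.fkg hq (fun e _ => h0) (fun a b hab _ => ind_mono fun h => sq.cn_mono hab h)
            (fun a b hab _ => ind_mono fun h => sq.cn_mono hab h) fun a _ => ind_nonneg _
      _ ≤ _ := by
          rw [G_eq hq0]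
          unfold Gr.pr
          refine sq.ex_mono hq0 (fun e _ => h0) fun a _ => ?_
          rw [← ind_and]
          exact ind_mono fun h => sq.cn_trans h.1 h.2
  have n1 : ∀ M, 0 ≤ Pool.Helper49.FK.G q (hom ρ) (box M) (0, 0) y := fun M => G_nonneg hq (fun _ => h0) _ _
  have k1 : ∀ M, GI q ρ (0, 0) x * Pool.Helper49.FK.G q (hom ρ) (box M) (0, 0) y ≤ GI q ρ (0, 0) (x + y) := by
    intro M
    unfold GI
    rw [Real.iSup_mul_of_nonneg (n1 M)]
    exact ciSup_le fun N => key N M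
  conv_lhs => rw [show GI q ρ (0, 0) y = ⨆ M : ℕ, Pool.Helper49.FK.G q (hom ρ) (box M) (0, 0) y from rfl]
  rw [Real.mul_iSup_of_nonneg (GI_nonneg hq h0 _ _)]
  exact ciSup_le fun M => k1 M

theorem GI_map (hq : 0 < q) {f : ℤ × ℤ ≃ ℤ × ℤ} {g : Edge ≃ Edge} (h : sq.IsAut f g)
    (hb : ∀ N : ℕ, (box N).map f.toEmbedding = box N) (ρ : ℝ) (x y : ℤ × ℤ) :
    GI q ρ (f x) (f y) = GI q ρ x y := by
  unfold GI
  refine iSup_congr fun N => ?_
  rw [← G_map (D := box N) hq h ρ x y, hb]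

theorem box_map {f : ℤ × ℤ ≃ ℤ × ℤ} (h : ∀ N : ℕ, ∀ x, f x ∈ box N ↔ x ∈ box N) (N : ℕ) :
    (box N).map f.toEmbedding = box N := by
  ext x
  rw [Finset.mem_map]
  constructor
  · rintro ⟨y, hy, rfl⟩; exact (h N y).2 hy
  · intro hx
    refine ⟨f.symm x, ?_, by simp⟩
    rw [← h N, Equiv.apply_symm_apply]; exact hx

theorem GI_symm (hq : 1 ≤ q) (ρ : ℝ) (a b : ℤ) :
    GI q ρ (0, 0) (a, -b) = GI q ρ (0, 0) (a, b) ∧ GI q ρ (0, 0) (-a, b) = GI q ρ (0, 0) (a, b) ∧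
      GI q ρ (0, 0) (b, a) = GI q ρ (0, 0) (a, b) := by
  have hq0 : 0 < q := one_pos.trans_le hq
  refine ⟨?_, ?_, ?_⟩
  · have := GI_map hq0 ry_aut (box_map fun N x => by
      rw [mem_box, mem_box]; change |x.1| ≤ N ∧ |-x.2| ≤ N ↔ _; rw [abs_neg]) ρ (0, 0) (a, b)
    exact this
  · have := GI_map hq0 rx_aut (box_map fun N x => by
      rw [mem_box, mem_box]; change |-x.1| ≤ N ∧ |x.2| ≤ N ↔ _; rw [abs_neg]) ρ (0, 0) (a, b)
    exact this
  · have := GI_map hq0 sw_aut (box_map fun N x => by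
      rw [mem_box, mem_box]; change |x.2| ≤ N ∧ |x.1| ≤ N ↔ _; exact and_comm) ρ (0, 0) (a, b)
    exact this

end Pool.Agent.Helper13.OZ
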