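import Pool.Agent.Helper13.OZ.Exp

/-!
Thinning: the model with smaller odds on a set `l` of edges is dominated by the homogeneous model with the
open edges of `l` deleted independently.
-/

open Finset
open scoped Classical

namespace Pool.Agent.Helper13.OZ.Gr

variable {V E : Type} [DecidableEq E] (G : Gr V E) {q : ℝ} {r r' : E → ℝ} {D : Finset E} {l : Set E} {δ : ℝ}

/-- The edges of `a` in `l`. -/
noncomputable def onl (l : Set E) (a : Finset E) : Finset E := a.filter fun e => e ∈ l

theorem mem_onl {a : Finset E} {e : E} : e ∈ onl l a ↔ e ∈ a ∧ e ∈ l := Finset.mem_filter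

/-- Unnormalised law of the thinned configuration. -/
noncomputable def th (q : ℝ) (r : E → ℝ) (D : Finset E) (l : Set E) (δ : ℝ) (b : Finset E) : ℝ :=
  (1 - δ) ^ (onl l b).card * ∑ c ∈ (onl l D \ b).powerset, δ ^ c.card * G.w q r (b ∪ c)

/-- Average over the deletions. -/
noncomputable def thin (l : Set E) (δ : ℝ) (F : Finset E → ℝ) (a : Finset E) : ℝ :=
  ∑ c ∈ (onl l a).powerset, δ ^ c.card * (1 - δ) ^ ((onl l a).card - c.card) * F (a \ c)

theorem sum_th (F : Finset E → ℝ) : ∑ b ∈ D.powerset, G.th q r D l δ b * F b =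
    ∑ a ∈ D.powerset, G.w q r a * thin l δ F a := by
  unfold th thin
  simp only [Finset.mul_sum, Finset.sum_mul]
  rw [Finset.sum_sigma', Finset.sum_sigma']
  refine Finset.sum_bij' (fun x _ => ⟨x.1 ∪ x.2, x.2⟩) (fun y _ => ⟨y.1 \ y.2, y.2⟩) ?_ ?_ ?_ ?_ ?_
  · rintro ⟨b, c⟩ h
    simp only [Finset.mem_sigma, Finset.mem_powerset] at h ⊢
    refine ⟨Finset.union_subset h.1 fun e he => ((mem_onl).1 (Finset.mem_sdiff.1 (h.2 he)).1).1, fun e he => ?_⟩
    exact (mem_onl).2 ⟨Finset.mem_union_right _ he, ((mem_onl).1 (Finset.mem_sdiff.1 (h.2 he)).1).2⟩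
  · rintro ⟨a, c⟩ h
    simp only [Finset.mem_sigma, Finset.mem_powerset] at h ⊢
    refine ⟨Finset.sdiff_subset.trans h.1, fun e he => ?_⟩
    have h1 := (mem_onl).1 (h.2 he)
    rw [Finset.mem_sdiff]
    exact ⟨(mem_onl).2 ⟨h.1 h1.1, h1.2⟩, fun h2 => (Finset.mem_sdiff.1 h2).2 he⟩
  · rintro ⟨b, c⟩ h
    simp only [Finset.mem_sigma, Finset.mem_powerset] at h
    have hd : Disjoint b c := by
      rw [Finset.disjoint_right]; exact fun e he => (Finset.mem_sdiff.1 (h.2 he)).2
    have : (b ∪ c) \ c = b := by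
      rw [Finset.union_sdiff_right]; exact Finset.sdiff_eq_self_of_disjoint hd
    simp only [this]
  · rintro ⟨a, c⟩ h
    simp only [Finset.mem_sigma, Finset.mem_powerset] at h
    have : a \ c ∪ c = a := Finset.sdiff_union_of_subset fun e he => ((mem_onl).1 (h.2 he)).1
    simp only [this]
  · rintro ⟨b, c⟩ h
    simp only [Finset.mem_sigma, Finset.mem_powerset] at h
    have hd : Disjoint b c := by
      rw [Finset.disjoint_right]; exact fun e he => (Finset.mem_sdiff.1 (h.2 he)).2
    have h1 : (b ∪ c) \ c = b := by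
      rw [Finset.union_sdiff_right]; exact Finset.sdiff_eq_self_of_disjoint hd
    have h2 : onl l (b ∪ c) = onl l b ∪ c := by
      ext e
      rw [mem_onl, Finset.mem_union, Finset.mem_union, mem_onl]
      constructor
      · rintro ⟨h3 | h3, h4⟩
        · exact Or.inl ⟨h3, h4⟩
        · exact Or.inr h3
      · rintro (h3 | h3)
        · exact ⟨Or.inl h3.1, h3.2⟩
        · exact ⟨Or.inr h3, ((mem_onl).1 (Finset.mem_sdiff.1 (h.2 h3)).1).2⟩
    have h3 : (onl l (b ∪ c)).card - c.card = (onl l b).card := by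
      have hs : onl l b ⊆ b := Finset.filter_subset _ _
      rw [h2, Finset.card_union_of_disjoint (hd.mono_left hs)]
      exact Nat.add_sub_cancel _ _
    simp only [h1, h3]
    ring

theorem thin_one (a : Finset E) : thin l δ (fun _ => 1) a = 1 := by
  unfold thin
  simp only [mul_one]
  rw [Finset.sum_pow_mul_eq_add_pow]
  norm_num

theorem sum_th_one : ∑ b ∈ D.powerset, G.th q r D l δ b = G.Z q r D := by
  have := G.sum_th (q := q) (r := r) (D := D) (l := l) (δ := δ) (fun _ => 1)
  simp only [mul_one, thin_one] at this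
  exact this

/-- The pivotal edges of `l`. -/
noncomputable def piv (l : Set E) (A : Finset E → Prop) (a : Finset E) : Finset E :=
  (onl l a).filter fun e => ¬ A (a.erase e)

theorem thin_le {A : Finset E → Prop} (hA : ∀ a b, a ⊆ b → A a → A b) (h0 : 0 ≤ δ) (h1 : δ ≤ 1) (a : Finset E) :
    thin l δ (fun b => ind (A b)) a ≤ ind (A a) * (1 - δ) ^ (piv l A a).card := by
  by_cases hAa : A a
  · rw [ind_pos hAa, one_mul]
    unfold thin
    have hp : piv l A a ⊆ onl l a := Finset.filter_subset _ _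
    have key : ∑ c ∈ (onl l a \ piv l A a).powerset, δ ^ c.card * (1 - δ) ^ ((onl l a).card - c.card) =
        (1 - δ) ^ (piv l A a).card := by
      have h2 := Finset.sum_pow_mul_eq_add_pow δ (1 - δ) (onl l a \ piv l A a)
      rw [add_sub_cancel, one_pow] at h2
      calc ∑ c ∈ (onl l a \ piv l A a).powerset, δ ^ c.card * (1 - δ) ^ ((onl l a).card - c.card)
          = ∑ c ∈ (onl l a \ piv l A a).powerset, (1 - δ) ^ (piv l A a).card *
              (δ ^ c.card * (1 - δ) ^ ((onl l a \ piv l A a).card - c.card)) := by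
            refine Finset.sum_congr rfl fun c hc => ?_
            have h3 := Finset.card_le_card (Finset.mem_powerset.1 hc)
            have h4 := Finset.card_sdiff_add_card_eq_card hp
            have h5 : (onl l a).card - c.card = (piv l A a).card + ((onl l a \ piv l A a).card - c.card) := by omega
            rw [h5, pow_add]; ring
        _ = _ := by rw [← Finset.mul_sum, h2, mul_one]
    rw [← key]
    have hsub : (onl l a \ piv l A a).powerset ⊆ (onl l a).powerset :=
      Finset.powerset_mono.2 Finset.sdiff_subset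
    rw [← Finset.sum_subset hsub (f := fun c => δ ^ c.card * (1 - δ) ^ ((onl l a).card - c.card) * ind (A (a \ c)))]
    · refine Finset.sum_le_sum fun c _ => ?_
      have : 0 ≤ δ ^ c.card * (1 - δ) ^ ((onl l a).card - c.card) :=
        mul_nonneg (pow_nonneg h0 _) (pow_nonneg (sub_nonneg.2 h1) _)
      calc _ ≤ δ ^ c.card * (1 - δ) ^ ((onl l a).card - c.card) * 1 := mul_le_mul_of_nonneg_left (ind_le_one _) this
        _ = _ := mul_one _
    · intro c hc hc'
      rw [Finset.mem_powerset] at hc hc'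
      have : ∃ e ∈ c, e ∈ piv l A a := by
        by_contra h
        push Not at h
        exact hc' fun e he => Finset.mem_sdiff.2 ⟨hc he, h e he⟩
      obtain ⟨e, he, hp'⟩ := this
      have h2 : ¬ A (a.erase e) := (Finset.mem_filter.1 hp').2
      have h3 : ¬ A (a \ c) := fun h4 => h2 (hA _ _ (by
        intro f hf
        rw [Finset.mem_sdiff] at hf
        exact Finset.mem_erase.2 ⟨fun h5 => hf.2 (h5 ▸ he), hf.1⟩) h4)
      rw [ind_neg h3, mul_zero]
  · rw [ind_neg hAa, zero_mul]
    unfold thin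
    refine (Finset.sum_eq_zero fun c _ => ?_).le
    beta_reduce
    rw [ind_neg (fun h => hAa (hA _ _ Finset.sdiff_subset h)), mul_zero]

theorem th_nonneg (hq : 0 < q) (hr : ∀ e ∈ D, 0 ≤ r e) (h0 : 0 ≤ δ) (h1 : δ ≤ 1) {b : Finset E} (hb : b ⊆ D) :
    0 ≤ G.th q r D l δ b := by
  unfold th
  refine mul_nonneg (pow_nonneg (sub_nonneg.2 h1) _) (Finset.sum_nonneg fun c hc => mul_nonneg (pow_nonneg h0 _) ?_)
  refine G.w_nonneg q r hq.le fun e he => ?_
  rcases Finset.mem_union.1 he with h | h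
  · exact hr e (hb h)
  · exact hr e ((mem_onl).1 (Finset.mem_sdiff.1 (Finset.mem_powerset.1 hc h)).1).1

theorem th_ratio (hq : 1 ≤ q) (hr : ∀ e ∈ D, 0 ≤ r e) (hr' : ∀ e ∈ D, 0 ≤ r' e) (h0 : 0 ≤ δ) (h1 : δ ≤ 1)
    (hrr : ∀ e ∈ D, r' e ≤ r e) (hl : ∀ e ∈ D, e ∈ l → r' e * (1 + δ * r e) ≤ (1 - δ) * r e)
    {a b : Finset E} {e : E} (hab : a ⊆ b) (hb : b ⊆ D) (he : e ∈ D) (heb : e ∉ b) :
    G.w q r' (insert e a) * G.th q r D l δ b ≤ G.th q r D l δ (insert e b) * G.w q r' a := by
  have hq0 : 0 < q := one_pos.trans_le hq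
  have hc : ∀ c ∈ (onl l D \ b).powerset, c ⊆ D := fun c hc f hf =>
    ((mem_onl).1 (Finset.mem_sdiff.1 (Finset.mem_powerset.1 hc hf)).1).1
  by_cases hel : e ∈ l
  · -- the edge is on the line
    have e1 : onl l D \ b = insert e (onl l D \ insert e b) := by
      ext f
      simp only [Finset.mem_insert, Finset.mem_sdiff, mem_onl]
      constructor
      · rintro ⟨h2, h3⟩
        by_cases hf : f = e
        · exact Or.inl hf
        · exact Or.inr ⟨h2, fun h4 => h4.elim hf h3⟩
      · rintro (rfl | ⟨h2, h3⟩)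
        · exact ⟨⟨he, hel⟩, heb⟩
        · exact ⟨h2, fun h4 => h3 (Or.inr h4)⟩
    have e2 : e ∉ onl l D \ insert e b := fun h => (Finset.mem_sdiff.1 h).2 (Finset.mem_insert_self e b)
    have e3 : onl l (insert e b) = insert e (onl l b) := by
      unfold onl; rw [Finset.filter_insert, if_pos hel]
    have e4 : e ∉ onl l b := fun h => heb ((mem_onl).1 h).1
    unfold th
    rw [e3, Finset.card_insert_of_notMem e4, e1, Finset.sum_powerset_insert e2, ← Finset.sum_add_distrib,
      mul_left_comm, pow_succ, mul_assoc, mul_assoc]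
    refine mul_le_mul_of_nonneg_left ?_ (pow_nonneg (sub_nonneg.2 h1) _)
    rw [Finset.mul_sum, ← mul_assoc, Finset.mul_sum, Finset.sum_mul]
    refine Finset.sum_le_sum fun c hc' => ?_
    have hcs : c ⊆ onl l D \ insert e b := Finset.mem_powerset.1 hc'
    have hec : e ∉ c := fun h => e2 (hcs h)
    have hebc : e ∉ b ∪ c := fun h => (Finset.mem_union.1 h).elim heb hec
    have hbcD : b ∪ c ⊆ D := Finset.union_subset hb fun f hf =>
      ((mem_onl).1 (Finset.mem_sdiff.1 (hcs hf)).1).1
    rw [Finset.card_insert_of_notMem hec, Finset.union_insert, Finset.insert_union,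
      G.w_insert q r hq0 hebc, G.w_insert q r' hq0 (fun h => heb (hab h)), pow_succ]
    have w1 : 0 ≤ G.w q r' a := G.w_nonneg q r' hq0.le fun f hf => hr' f (hb (hab hf))
    have w2 : 0 ≤ G.w q r (b ∪ c) := G.w_nonneg q r hq0.le fun f hf => hr f (hbcD hf)
    set ka : ℝ := if G.Cn a (G.s e) (G.t e) then 1 else q⁻¹ with hka
    set kb : ℝ := if G.Cn (b ∪ c) (G.s e) (G.t e) then 1 else q⁻¹ with hkb
    have hqi : q⁻¹ ≤ 1 := inv_le_one_of_one_le₀ hq
    have hqi0 : 0 ≤ q⁻¹ := inv_nonneg.2 hq0.le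
    have k1 : ka ≤ kb := by
      by_cases h : G.Cn a (G.s e) (G.t e)
      · rw [hka, hkb, if_pos h, if_pos (G.cn_mono (hab.trans Finset.subset_union_left) h)]
      · rw [hka, if_neg h, hkb]
        split_ifs
        · exact hqi
        · exact le_refl _
    have k2 : 0 ≤ ka := by rw [hka]; split_ifs; exacts [zero_le_one, hqi0]
    have k3 : kb ≤ 1 := by rw [hkb]; split_ifs; exacts [le_refl _, hqi]
    have hle := hl e he hel
    have r1 := hr e he
    have r2 := hr' e he
    have main : r' e * ka * (1 + δ * (r e * kb)) ≤ (1 - δ) * (r e * kb) := by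
      have s1 : r' e * ka * (1 + δ * (r e * kb)) ≤ r' e * kb * (1 + δ * r e) := by
        refine mul_le_mul (mul_le_mul_of_nonneg_left k1 r2) ?_ ?_ (mul_nonneg r2 (k2.trans k1))
        · have : δ * (r e * kb) ≤ δ * r e := mul_le_mul_of_nonneg_left (by
            calc r e * kb ≤ r e * 1 := mul_le_mul_of_nonneg_left k3 r1
              _ = r e := mul_one _) h0
          linarith
        · have : 0 ≤ δ * (r e * kb) := mul_nonneg h0 (mul_nonneg r1 (k2.trans k1))
          linarith
      calc _ ≤ _ := s1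
        _ = (r' e * (1 + δ * r e)) * kb := by ring
        _ ≤ ((1 - δ) * r e) * kb := mul_le_mul_of_nonneg_right hle (k2.trans k1)
        _ = _ := by ring
    have w3 : 0 ≤ δ ^ c.card * (G.w q r' a * G.w q r (b ∪ c)) := mul_nonneg (pow_nonneg h0 _) (mul_nonneg w1 w2)
    calc G.w q r' a * (r' e * ka) * (δ ^ c.card * G.w q r (b ∪ c) +
          δ ^ c.card * δ * (G.w q r (b ∪ c) * (r e * kb)))
        = δ ^ c.card * (G.w q r' a * G.w q r (b ∪ c)) * (r' e * ka * (1 + δ * (r e * kb))) := by ring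
      _ ≤ δ ^ c.card * (G.w q r' a * G.w q r (b ∪ c)) * ((1 - δ) * (r e * kb)) :=
          mul_le_mul_of_nonneg_left main w3
      _ = _ := by ring
  · have e3 : onl l (insert e b) = onl l b := by
      unfold onl; rw [Finset.filter_insert, if_neg hel]
    have e1 : onl l D \ insert e b = onl l D \ b := by
      ext f
      simp only [Finset.mem_insert, Finset.mem_sdiff, mem_onl]
      constructor
      · rintro ⟨h2, h3⟩; exact ⟨h2, fun h4 => h3 (Or.inr h4)⟩
      · rintro ⟨h2, h3⟩; exact ⟨h2, fun h4 => h4.elim (fun h5 => hel (h5 ▸ h2.2)) h3⟩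
    unfold th
    rw [e3, e1, mul_left_comm, mul_assoc]
    refine mul_le_mul_of_nonneg_left ?_ (pow_nonneg (sub_nonneg.2 h1) _)
    rw [Finset.mul_sum, Finset.sum_mul]
    refine Finset.sum_le_sum fun c hc' => ?_
    have hcs : c ⊆ onl l D \ b := Finset.mem_powerset.1 hc'
    have hec : e ∉ c := fun h => hel ((mem_onl).1 (Finset.mem_sdiff.1 (hcs h)).1).2
    have hebc : e ∉ b ∪ c := fun h => (Finset.mem_union.1 h).elim heb hec
    have hbcD : b ∪ c ⊆ D := Finset.union_subset hb (hc c hc')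
    have := G.w_ratio hq (r := r') (r' := r) (a := a) (b := b ∪ c) (e := e) (hab.trans Finset.subset_union_left)
      (fun f hf => hr' f (hb (hab hf))) (fun f hf => hr f (hbcD hf)) (hr' e he) (hrr e he) hebc
    rw [Finset.insert_union]
    calc G.w q r' (insert e a) * (δ ^ c.card * G.w q r (b ∪ c))
        = δ ^ c.card * (G.w q r' (insert e a) * G.w q r (b ∪ c)) := by ring
      _ ≤ δ ^ c.card * (G.w q r (insert e (b ∪ c)) * G.w q r' a) :=
          mul_le_mul_of_nonneg_left this (pow_nonneg h0 _)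
      _ = _ := by ring

/-- The model with odds `r'` is dominated by the thinned model with odds `r`. -/
theorem pr_thin (hq : 1 ≤ q) (hr : ∀ e ∈ D, 0 ≤ r e) (hr' : ∀ e ∈ D, 0 ≤ r' e) (h0 : 0 ≤ δ) (h1 : δ ≤ 1)
    (hrr : ∀ e ∈ D, r' e ≤ r e) (hl : ∀ e ∈ D, e ∈ l → r' e * (1 + δ * r e) ≤ (1 - δ) * r e)
    {A : Finset E → Prop} (hA : ∀ a b, a ⊆ b → A a → A b) :
    G.pr q r' D A ≤ G.ex q r D (fun a => ind (A a) * (1 - δ) ^ (piv l A a).card) := by
  have hq0 : 0 < q := one_pos.trans_le hq
  have h2 := holley_ratio (D := D) (μ := G.w q r') (ν := G.th q r D l δ)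
    (fun a ha => G.w_nonneg q r' hq0.le fun e he => hr' e (ha he))
    (fun a ha => G.th_nonneg hq0 hr h0 h1 ha)
    (fun a e _ h => G.w_zero h hq0)
    (fun a b e hab hb he heb => G.th_ratio hq hr hr' h0 h1 hrr hl hab hb he heb)
    (F := fun a => ind (A a)) (fun a b hab _ => ind_mono (hA a b hab))
  rw [G.sum_th_one, G.sum_th] at h2
  have hZ := G.Z_pos q r hq0 hr
  have hZ' := G.Z_pos q r' hq0 hr'
  calc G.pr q r' D A = (∑ a ∈ D.powerset, G.w q r' a * ind (A a)) / G.Z q r' D := rfl
    _ ≤ (∑ a ∈ D.powerset, G.w q r a * thin l δ (fun b => ind (A b)) a) / G.Z q r D := by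
        rw [div_le_div_iff₀ hZ' hZ]
        calc _ ≤ _ := h2
          _ = _ := mul_comm _ _
    _ = G.ex q r D (thin l δ (fun b => ind (A b))) := rfl
    _ ≤ _ := G.ex_mono hq0 hr fun a _ => thin_le hA h0 h1 a

end Pool.Agent.Helper13.OZ.Gr
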