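import Pool.Agent.Helper13.OZ.Bridge

/-!
Conditioning on open edges (wired boundary conditions); finite energy.
-/

open Finset Filter
open scoped Classical

namespace Pool.Agent.Helper13.OZ.Gr

variable {V E : Type} [DecidableEq E] (G : Gr V E) {q : ℝ} {r r' : E → ℝ} {D X Y : Finset E}

/-- Sums over the configurations in which `X` is open. -/
theorem sum_open (hX : X ⊆ D) (F : Finset E → ℝ) : ∑ a ∈ D.powerset, G.w q r a * (ind (X ⊆ a) * F a) =
    ∑ a ∈ (D \ X).powerset, G.w q r (a ∪ X) * F (a ∪ X) := by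
  symm
  calc ∑ a ∈ (D \ X).powerset, G.w q r (a ∪ X) * F (a ∪ X)
      = ∑ a ∈ D.powerset.filter (fun a => X ⊆ a), G.w q r a * F a := by
        refine Finset.sum_bij' (fun a _ => a ∪ X) (fun a _ => a \ X) ?_ ?_ ?_ ?_ ?_
        · intro a ha
          rw [Finset.mem_powerset] at ha
          rw [Finset.mem_filter, Finset.mem_powerset]
          exact ⟨Finset.union_subset (ha.trans Finset.sdiff_subset) hX, Finset.subset_union_right⟩
        · intro a ha
          rw [Finset.mem_filter, Finset.mem_powerset] at ha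
          rw [Finset.mem_powerset]
          exact Finset.sdiff_subset_sdiff ha.1 (Finset.Subset.refl _)
        · intro a ha
          rw [Finset.mem_powerset] at ha
          have hd : Disjoint a X := by
            rw [Finset.disjoint_left]; exact fun e he => (Finset.mem_sdiff.1 (ha he)).2
          change (a ∪ X) \ X = a
          rw [Finset.union_sdiff_right]; exact Finset.sdiff_eq_self_of_disjoint hd
        · intro a ha
          rw [Finset.mem_filter, Finset.mem_powerset] at ha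
          exact Finset.sdiff_union_of_subset ha.2
        · intro a _; rfl
    _ = _ := by
        rw [Finset.sum_filter]
        refine Finset.sum_congr rfl fun a _ => ?_
        by_cases h : X ⊆ a
        · rw [if_pos h, ind_pos h, one_mul]
        · rw [if_neg h, ind_neg h, zero_mul, mul_zero]

/-- Comparison of two wired measures on the same edges. -/
theorem wired_le (hq : 1 ≤ q) (hXD : Disjoint D X) (hYD : Disjoint D Y)
    (hr : ∀ e ∈ D ∪ X, 0 ≤ r e) (hr' : ∀ e ∈ D ∪ Y, 0 ≤ r' e) (hrr : ∀ e ∈ D, r e ≤ r' e)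
    (hc : ∀ a b e, a ⊆ b → b ⊆ D → e ∈ D → G.Cn (a ∪ X) (G.s e) (G.t e) → G.Cn (b ∪ Y) (G.s e) (G.t e))
    {F : Finset E → ℝ} (hF : MonoOn D F) :
    (∑ a ∈ D.powerset, G.w q r (a ∪ X) * F a) * ∑ a ∈ D.powerset, G.w q r' (a ∪ Y) ≤
      (∑ a ∈ D.powerset, G.w q r (a ∪ X)) * ∑ a ∈ D.powerset, G.w q r' (a ∪ Y) * F a := by
  have hq0 : 0 < q := one_pos.trans_le hq
  have n1 : ∀ a, a ⊆ D → 0 ≤ G.w q r (a ∪ X) := fun a ha =>
    G.w_nonneg q r hq0.le fun e he => hr e (Finset.union_subset_union_left ha he)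
  have n2 : ∀ a, a ⊆ D → 0 ≤ G.w q r' (a ∪ Y) := fun a ha =>
    G.w_nonneg q r' hq0.le fun e he => hr' e (Finset.union_subset_union_left ha he)
  refine holley_ratio n1 n2 (fun a e _ h => ?_) (fun a b e hab hb he heb => ?_) hF
  · rw [Finset.insert_union]; exact G.w_zero h hq0
  · have h1 : e ∉ a ∪ X := fun h => (Finset.mem_union.1 h).elim (fun h' => heb (hab h'))
      (Finset.disjoint_left.1 hXD he)
    have h2 : e ∉ b ∪ Y := fun h => (Finset.mem_union.1 h).elim heb (Finset.disjoint_left.1 hYD he)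
    rw [Finset.insert_union, Finset.insert_union, G.w_insert q r hq0 h1, G.w_insert q r' hq0 h2]
    have h3 : (if G.Cn (a ∪ X) (G.s e) (G.t e) then (1 : ℝ) else q⁻¹) ≤
        if G.Cn (b ∪ Y) (G.s e) (G.t e) then 1 else q⁻¹ := by
      by_cases h : G.Cn (a ∪ X) (G.s e) (G.t e)
      · rw [if_pos h, if_pos (hc a b e hab hb he h)]
      · rw [if_neg h]
        split_ifs
        · exact inv_le_one_of_one_le₀ hq
        · exact le_refl _
    have h4 : (0 : ℝ) ≤ if G.Cn (a ∪ X) (G.s e) (G.t e) then (1 : ℝ) else q⁻¹ := by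
      split_ifs
      · exact zero_le_one
      · exact inv_nonneg.2 hq0.le
    have h5 : 0 ≤ r e := hr e (Finset.mem_union_left _ he)
    calc G.w q r (a ∪ X) * (r e * if G.Cn (a ∪ X) (G.s e) (G.t e) then 1 else q⁻¹) * G.w q r' (b ∪ Y)
        = (G.w q r (a ∪ X) * G.w q r' (b ∪ Y)) * (r e * if G.Cn (a ∪ X) (G.s e) (G.t e) then 1 else q⁻¹) := by ring
      _ ≤ (G.w q r (a ∪ X) * G.w q r' (b ∪ Y)) * (r' e * if G.Cn (b ∪ Y) (G.s e) (G.t e) then 1 else q⁻¹) :=
          mul_le_mul_of_nonneg_left (mul_le_mul (hrr e he) h3 h4 (h5.trans (hrr e he)))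
            (mul_nonneg (n1 a (hab.trans hb)) (n2 b hb))
      _ = _ := by ring

/-- The measure in `D` conditioned on `X` being open. -/
noncomputable def exo (q : ℝ) (r : E → ℝ) (D X : Finset E) (F : Finset E → ℝ) : ℝ :=
  (∑ a ∈ (D \ X).powerset, G.w q r (a ∪ X) * F (a ∪ X)) / ∑ a ∈ (D \ X).powerset, G.w q r (a ∪ X)

theorem exo_eq (hq : 0 < q) (hr : ∀ e, 0 < r e) (hX : X ⊆ D) (A : Finset E → Prop) :
    G.pr q r D (fun a => X ⊆ a ∧ A a) / G.pr q r D (fun a => X ⊆ a) = G.exo q r D X (fun a => ind (A a)) := by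
  rw [G.pr_eq, G.pr_eq]
  have hZ := G.Z_pos q r hq (D := D) fun e _ => (hr e).le
  have h1 := G.sum_open (q := q) (r := r) hX fun a => ind (A a)
  have h2 := G.sum_open (q := q) (r := r) hX fun _ => 1
  simp only [mul_one] at h2
  have h3 : ∑ a ∈ D.powerset, G.w q r a * ind (X ⊆ a ∧ A a) =
      ∑ a ∈ D.powerset, G.w q r a * (ind (X ⊆ a) * ind (A a)) :=
    Finset.sum_congr rfl fun a _ => by rw [ind_and]
  rw [h3, h1, h2, div_div_div_cancel_right₀ hZ.ne']
  rfl

theorem sum_w_pos (hq : 0 < q) (hr : ∀ e, 0 < r e) (D X : Finset E) : 0 < ∑ a ∈ D.powerset, G.w q r (a ∪ X) :=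
  Finset.sum_pos (fun a _ => G.w_pos q r hq fun e _ => hr e) ⟨∅, Finset.empty_mem_powerset D⟩

/-- An increasing event is most likely if all other edges are open. -/
theorem open_step (hq : 1 ≤ q) (hr : ∀ e, 0 < r e) {F₀ F : Finset E} (hF₀ : F₀ ⊆ D) (hF : F ⊆ D)
    {A H : Finset E → Prop} (hA : ∀ a b, a ⊆ b → A a → A b)
    (hH : ∀ a ⊆ D, ∀ b ⊆ D, a ∩ F = b ∩ F → (H a ↔ H b)) :
    G.exo q r D F₀ (fun a => ind (A a ∧ H a)) ≤
      G.exo q r D (F₀ ∪ F) (fun a => ind (A a)) * G.exo q r D F₀ (fun a => ind (H a)) := by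
  have hq0 : 0 < q := one_pos.trans_le hq
  -- split the edges of `D \ F₀` into those of `F` and the others
  set F₁ : Finset E := F \ F₀ with hF₁
  set R : Finset E := D \ (F₀ ∪ F) with hR
  have e1 : D \ F₀ = F₁ ∪ R := by
    ext e
    simp only [hF₁, hR, Finset.mem_sdiff, Finset.mem_union, not_or]
    constructor
    · rintro ⟨h1, h2⟩
      by_cases h3 : e ∈ F
      · exact Or.inl ⟨h3, h2⟩
      · exact Or.inr ⟨h1, h2, h3⟩
    · rintro (⟨h1, h2⟩ | ⟨h1, h2, _⟩)
      · exact ⟨hF h1, h2⟩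
      · exact ⟨h1, h2⟩
  have hd : Disjoint F₁ R := by
    rw [Finset.disjoint_left]; intro e h1 h2
    exact (Finset.mem_sdiff.1 h2).2 (Finset.mem_union_right _ (Finset.mem_sdiff.1 h1).1)
  have split : ∀ K : Finset E → ℝ, ∑ a ∈ (D \ F₀).powerset, K a =
      ∑ c ∈ F₁.powerset, ∑ b ∈ R.powerset, K (c ∪ b) := by
    intro K
    rw [e1, ← Finset.sum_product']
    refine Finset.sum_bij' (fun a _ => (a ∩ F₁, a ∩ R)) (fun x _ => x.1 ∪ x.2) ?_ ?_ ?_ ?_ ?_
    · intro a _
      simp only [Finset.mem_product, Finset.mem_powerset]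
      exact ⟨Finset.inter_subset_right, Finset.inter_subset_right⟩
    · rintro ⟨c, b⟩ h
      simp only [Finset.mem_product, Finset.mem_powerset] at h ⊢
      exact Finset.union_subset_union h.1 h.2
    · intro a ha
      rw [Finset.mem_powerset] at ha
      change a ∩ F₁ ∪ a ∩ R = a
      rw [← Finset.inter_union_distrib_left]
      exact Finset.inter_eq_left.2 ha
    · rintro ⟨c, b⟩ h
      simp only [Finset.mem_product, Finset.mem_powerset] at h
      have h1 : (c ∪ b) ∩ F₁ = c := by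
        rw [Finset.union_inter_distrib_right, Finset.inter_eq_left.2 h.1]
        have : b ∩ F₁ = ∅ := by
          rw [← Finset.disjoint_iff_inter_eq_empty]; exact hd.symm.mono_left h.2
        rw [this, Finset.union_empty]
      have h2 : (c ∪ b) ∩ R = b := by
        rw [Finset.union_inter_distrib_right, Finset.inter_eq_left.2 h.2]
        have : c ∩ R = ∅ := by
          rw [← Finset.disjoint_iff_inter_eq_empty]; exact hd.mono_left h.1
        rw [this, Finset.empty_union]
      change ((c ∪ b) ∩ F₁, (c ∪ b) ∩ R) = (c, b)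
      rw [h1, h2]
    · intro a ha
      rw [Finset.mem_powerset] at ha
      change K a = K (a ∩ F₁ ∪ a ∩ R)
      rw [← Finset.inter_union_distrib_left, Finset.inter_eq_left.2 ha]
  unfold exo
  have e3 : D \ (F₀ ∪ F) = R := rfl
  rw [e3]
  have hY : F₀ ∪ F = F₁ ∪ F₀ := by
    ext e; simp only [hF₁, Finset.mem_union, Finset.mem_sdiff]; tauto
  set S₁ : ℝ := ∑ a ∈ (D \ F₀).powerset, G.w q r (a ∪ F₀) with hS₁
  set S₂ : ℝ := ∑ a ∈ R.powerset, G.w q r (a ∪ (F₀ ∪ F)) with hS₂
  have p1 : 0 < S₁ := G.sum_w_pos hq0 hr _ _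
  have p2 : 0 < S₂ := G.sum_w_pos hq0 hr _ _
  rw [div_mul_div_comm, div_le_div_iff₀ p1 (mul_pos p2 p1)]
  -- it suffices to compare for every `c`
  have key : ∀ c ∈ F₁.powerset, (∑ b ∈ R.powerset, G.w q r (c ∪ b ∪ F₀) * ind (A (c ∪ b ∪ F₀))) * S₂ ≤
      (∑ b ∈ R.powerset, G.w q r (c ∪ b ∪ F₀)) *
        ∑ b ∈ R.powerset, G.w q r (b ∪ (F₀ ∪ F)) * ind (A (b ∪ (F₀ ∪ F))) := by
    intro c hc
    rw [Finset.mem_powerset] at hc
    have g1 : ∀ b : Finset E, c ∪ b ∪ F₀ = b ∪ (c ∪ F₀) := by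
      intro b; ext e; simp only [Finset.mem_union]; tauto
    simp only [g1]
    have hcF : c ∪ F₀ ⊆ F₀ ∪ F := by
      rw [Finset.union_comm]; exact Finset.union_subset_union_right (hc.trans Finset.sdiff_subset)
    have dX : Disjoint R (c ∪ F₀) := by
      rw [Finset.disjoint_left]; intro e h1 h2
      exact (Finset.mem_sdiff.1 h1).2 (hcF h2)
    have dY : Disjoint R (F₀ ∪ F) := by
      rw [Finset.disjoint_left]; intro e h1 h2
      exact (Finset.mem_sdiff.1 h1).2 h2
    have s1 : ∑ b ∈ R.powerset, G.w q r (b ∪ (c ∪ F₀)) * ind (A (b ∪ (c ∪ F₀))) ≤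
        ∑ b ∈ R.powerset, G.w q r (b ∪ (c ∪ F₀)) * ind (A (b ∪ (F₀ ∪ F))) := by
      refine Finset.sum_le_sum fun b _ => mul_le_mul_of_nonneg_left (ind_mono (hA _ _ ?_))
        (G.w_pos q r hq0 fun e _ => hr e).le
      exact Finset.union_subset_union_right hcF
    have s2 := G.wired_le (D := R) (X := c ∪ F₀) (Y := F₀ ∪ F) (r := r) (r' := r) hq dX dY
      (fun e _ => (hr e).le) (fun e _ => (hr e).le) (fun e _ => le_rfl)
      (fun a b e hab _ _ h => G.cn_mono (Finset.union_subset_union hab hcF) h)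
      (F := fun b => ind (A (b ∪ (F₀ ∪ F))))
      (fun a b hab _ => ind_mono (hA _ _ (Finset.union_subset_union_left hab)))
    exact (mul_le_mul_of_nonneg_right s1 p2.le).trans s2
  -- `H` depends only on `c`
  have hHc : ∀ c ∈ F₁.powerset, ∀ b ∈ R.powerset, ind (H (c ∪ b ∪ F₀)) = ind (H (c ∪ F₀)) := by
    intro c hc b hb
    rw [Finset.mem_powerset] at hc hb
    have hcD : c ⊆ D := hc.trans (Finset.sdiff_subset.trans hF)
    have hbD : b ⊆ D := hb.trans Finset.sdiff_subset
    refine ind_congr (hH _ (Finset.union_subset (Finset.union_subset hcD hbD) hF₀) _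
      (Finset.union_subset hcD hF₀) ?_)
    ext e
    simp only [Finset.mem_inter, Finset.mem_union]
    constructor
    · rintro ⟨(h1 | h1) | h1, h2⟩
      · exact ⟨Or.inl h1, h2⟩
      · exact absurd (Finset.mem_union_right _ h2) (Finset.mem_sdiff.1 (hb h1)).2
      · exact ⟨Or.inr h1, h2⟩
    · rintro ⟨h1 | h1, h2⟩
      · exact ⟨Or.inl (Or.inl h1), h2⟩
      · exact ⟨Or.inr h1, h2⟩
  have L : ∑ a ∈ (D \ F₀).powerset, G.w q r (a ∪ F₀) * ind (A (a ∪ F₀) ∧ H (a ∪ F₀)) =
      ∑ c ∈ F₁.powerset, ind (H (c ∪ F₀)) * ∑ b ∈ R.powerset, G.w q r (c ∪ b ∪ F₀) * ind (A (c ∪ b ∪ F₀)) := by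
    rw [split]
    refine Finset.sum_congr rfl fun c hc => ?_
    rw [Finset.mul_sum]
    refine Finset.sum_congr rfl fun b hb => ?_
    rw [ind_and, hHc c hc b hb]; ring
  have M : ∑ a ∈ (D \ F₀).powerset, G.w q r (a ∪ F₀) * ind (H (a ∪ F₀)) =
      ∑ c ∈ F₁.powerset, ind (H (c ∪ F₀)) * ∑ b ∈ R.powerset, G.w q r (c ∪ b ∪ F₀) := by
    rw [split]
    refine Finset.sum_congr rfl fun c hc => ?_
    rw [Finset.mul_sum]
    refine Finset.sum_congr rfl fun b hb => ?_
    rw [hHc c hc b hb]; ring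
  rw [L, M]
  set N : ℝ := ∑ b ∈ R.powerset, G.w q r (b ∪ (F₀ ∪ F)) * ind (A (b ∪ (F₀ ∪ F))) with hN
  have fin : (∑ c ∈ F₁.powerset, ind (H (c ∪ F₀)) *
        ∑ b ∈ R.powerset, G.w q r (c ∪ b ∪ F₀) * ind (A (c ∪ b ∪ F₀))) * S₂ ≤
      N * ∑ c ∈ F₁.powerset, ind (H (c ∪ F₀)) * ∑ b ∈ R.powerset, G.w q r (c ∪ b ∪ F₀) := by
    rw [Finset.sum_mul, Finset.mul_sum]
    refine Finset.sum_le_sum fun c hc => ?_
    have := mul_le_mul_of_nonneg_left (key c hc) (ind_nonneg (H (c ∪ F₀)))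
    calc _ = ind (H (c ∪ F₀)) * ((∑ b ∈ R.powerset, G.w q r (c ∪ b ∪ F₀) * ind (A (c ∪ b ∪ F₀))) * S₂) := by ring
      _ ≤ _ := this
      _ = _ := by ring
  calc _ = ((∑ c ∈ F₁.powerset, ind (H (c ∪ F₀)) *
        ∑ b ∈ R.powerset, G.w q r (c ∪ b ∪ F₀) * ind (A (c ∪ b ∪ F₀))) * S₂) * S₁ := by ring
    _ ≤ (N * ∑ c ∈ F₁.powerset, ind (H (c ∪ F₀)) * ∑ b ∈ R.powerset, G.w q r (c ∪ b ∪ F₀)) * S₁ :=
        mul_le_mul_of_nonneg_right fin p1.le
    _ = _ := by ring

/-- Finite energy: one edge. -/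
theorem w_energy (hq : 1 ≤ q) {a b : ℝ} (ha : 0 < a) (hab : ∀ e, a ≤ r e ∧ r e ≤ b) {ω : Finset E} {e : E} :
    min 1 (min (a / q) (1 / b)) * G.w q r ω ≤ G.w q r (insert e ω) ∧
    min 1 (min (a / q) (1 / b)) * G.w q r ω ≤ G.w q r (ω.erase e) := by
  have hq0 : 0 < q := one_pos.trans_le hq
  have hr : ∀ e, 0 < r e := fun e => ha.trans_le (hab e).1
  have hb : 0 < b := (hr e).trans_le (hab e).2
  have hw : ∀ c : Finset E, 0 < G.w q r c := fun c => G.w_pos q r hq0 fun e _ => hr e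
  have m1 : min 1 (min (a / q) (1 / b)) ≤ 1 := min_le_left _ _
  have m2 : min 1 (min (a / q) (1 / b)) ≤ a / q := (min_le_right _ _).trans (min_le_left _ _)
  have m3 : min 1 (min (a / q) (1 / b)) ≤ 1 / b := (min_le_right _ _).trans (min_le_right _ _)
  constructor
  · by_cases he : e ∈ ω
    · rw [Finset.insert_eq_of_mem he]
      calc _ ≤ 1 * G.w q r ω := mul_le_mul_of_nonneg_right m1 (hw ω).le
        _ = _ := one_mul _
    · rw [G.w_insert q r hq0 he, mul_comm]
      refine mul_le_mul_of_nonneg_left ?_ (hw ω).le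
      refine m2.trans ?_
      rw [div_eq_mul_inv]
      refine mul_le_mul (hab e).1 ?_ (inv_nonneg.2 hq0.le) (hr e).le
      split_ifs
      · exact inv_le_one_of_one_le₀ hq
      · exact le_refl _
  · by_cases he : e ∈ ω
    · have h1 : G.w q r ω = G.w q r (ω.erase e) *
          (r e * if G.Cn (ω.erase e) (G.s e) (G.t e) then 1 else q⁻¹) := by
        rw [← G.w_insert q r hq0 (Finset.notMem_erase e ω), Finset.insert_erase he]
      have h2 : r e * (if G.Cn (ω.erase e) (G.s e) (G.t e) then 1 else q⁻¹) ≤ b := by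
        calc _ ≤ r e * 1 := by
              refine mul_le_mul_of_nonneg_left ?_ (hr e).le
              split_ifs
              · exact le_refl _
              · exact inv_le_one_of_one_le₀ hq
          _ = r e := mul_one _
          _ ≤ b := (hab e).2
      have m0 : 0 ≤ min 1 (min (a / q) (1 / b)) := by
        refine le_min zero_le_one (le_min (div_nonneg ha.le hq0.le) (div_nonneg zero_le_one hb.le))
      calc min 1 (min (a / q) (1 / b)) * G.w q r ω
          = G.w q r (ω.erase e) * (min 1 (min (a / q) (1 / b)) *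
              (r e * if G.Cn (ω.erase e) (G.s e) (G.t e) then 1 else q⁻¹)) := by rw [h1]; ring
        _ ≤ G.w q r (ω.erase e) * (1 / b * b) := by
            refine mul_le_mul_of_nonneg_left (mul_le_mul m3 h2 ?_ (div_nonneg zero_le_one hb.le)) (hw _).le
            refine mul_nonneg (hr e).le ?_
            split_ifs
            · exact zero_le_one
            · exact inv_nonneg.2 hq0.le
        _ = _ := by rw [one_div, inv_mul_cancel₀ hb.ne', mul_one]
    · rw [Finset.erase_eq_of_notMem he]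
      calc _ ≤ 1 * G.w q r ω := mul_le_mul_of_nonneg_right m1 (hw ω).le
        _ = _ := one_mul _

/-- Finite energy: changing at most `k` edges. -/
theorem w_energy_pow (hq : 1 ≤ q) {a b : ℝ} (ha : 0 < a) (hb : 0 < b) (hab : ∀ e, a ≤ r e ∧ r e ≤ b) (k : ℕ) :
    ∀ ω ω' : Finset E, (ω \ ω' ∪ ω' \ ω).card ≤ k →
      (min 1 (min (a / q) (1 / b))) ^ k * G.w q r ω ≤ G.w q r ω' := by
  have hq0 : 0 < q := one_pos.trans_le hq
  have hr : ∀ e, 0 < r e := fun e => ha.trans_le (hab e).1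
  have hw : ∀ c : Finset E, 0 < G.w q r c := fun c => G.w_pos q r hq0 fun e _ => hr e
  set m : ℝ := min 1 (min (a / q) (1 / b)) with hm
  have m1 : m ≤ 1 := min_le_left _ _
  induction k with
  | zero =>
    intro ω ω' h
    have h1 : ω \ ω' ∪ ω' \ ω = ∅ := Finset.card_eq_zero.1 (Nat.le_zero.1 h)
    have h2 : ω = ω' := by
      ext e
      have h3 : e ∉ ω \ ω' ∪ ω' \ ω := by rw [h1]; exact Finset.notMem_empty e
      simp only [Finset.mem_union, Finset.mem_sdiff] at h3
      tauto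
    rw [h2, pow_zero, one_mul]
  | succ k ih =>
    intro ω ω' h
    by_cases hk : (ω \ ω' ∪ ω' \ ω).card ≤ k
    · have m0 : 0 ≤ m := le_min zero_le_one (le_min (div_nonneg ha.le hq0.le) (div_nonneg zero_le_one hb.le))
      calc m ^ (k + 1) * G.w q r ω = m * (m ^ k * G.w q r ω) := by ring
        _ ≤ 1 * (m ^ k * G.w q r ω) :=
            mul_le_mul_of_nonneg_right m1 (mul_nonneg (pow_nonneg m0 _) (hw ω).le)
        _ = m ^ k * G.w q r ω := one_mul _
        _ ≤ _ := ih ω ω' hk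
    · have hne : (ω \ ω' ∪ ω' \ ω).Nonempty := by
        rw [Finset.nonempty_iff_ne_empty]; intro h0; rw [h0] at hk; simp at hk
      obtain ⟨e, he⟩ := hne
      have m0 : 0 ≤ m := le_min zero_le_one (le_min (div_nonneg ha.le hq0.le) (div_nonneg zero_le_one hb.le))
      rcases Finset.mem_union.1 he with he' | he'
      · -- remove `e`
        have h1 := (G.w_energy (ω := ω) (e := e) hq ha hab).2
        have h2 : (ω.erase e) \ ω' ∪ ω' \ ω.erase e = (ω \ ω' ∪ ω' \ ω).erase e := by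
          rw [Finset.mem_sdiff] at he'
          ext f
          simp only [Finset.mem_union, Finset.mem_sdiff, Finset.mem_erase]
          by_cases hf : f = e
          · subst hf; tauto
          · tauto
        have h3 : ((ω.erase e) \ ω' ∪ ω' \ ω.erase e).card ≤ k := by
          rw [h2, Finset.card_erase_of_mem he]; omega
        calc m ^ (k + 1) * G.w q r ω = m ^ k * (m * G.w q r ω) := by ring
          _ ≤ m ^ k * G.w q r (ω.erase e) := mul_le_mul_of_nonneg_left h1 (pow_nonneg m0 _)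
          _ ≤ _ := ih _ _ h3
      · have h1 := (G.w_energy (ω := ω) (e := e) hq ha hab).1
        have h2 : (insert e ω) \ ω' ∪ ω' \ insert e ω = (ω \ ω' ∪ ω' \ ω).erase e := by
          rw [Finset.mem_sdiff] at he'
          ext f
          simp only [Finset.mem_union, Finset.mem_sdiff, Finset.mem_erase, Finset.mem_insert]
          by_cases hf : f = e
          · subst hf; tauto
          · tauto
        have h3 : ((insert e ω) \ ω' ∪ ω' \ insert e ω).card ≤ k := by
          rw [h2, Finset.card_erase_of_mem he]; omega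
        calc m ^ (k + 1) * G.w q r ω = m ^ k * (m * G.w q r ω) := by ring
          _ ≤ m ^ k * G.w q r (insert e ω) := mul_le_mul_of_nonneg_left h1 (pow_nonneg m0 _)
          _ ≤ _ := ih _ _ h3

end Pool.Agent.Helper13.OZ.Gr
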